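import Pool.Agent.Helper93.LX.Vb

/-!
PROJECT LT2, block V, file Vd: growth and polynomial growth for the product of two types (targets of
Helper34/LU/Tg.lean, word for word).
-/

set_option autoImplicit false

namespace Pool.Agent.Helper93.LX

open Finset Pool.Agent.Helper34.LT LTG Pool.Agent.Helper34.LU
open Pool.Agent.Helper44.LT (PU)
open Pool.Agent.Helper63.LU (Theta2)

noncomputable section

variable (q : ℕ) (s t : Finset ℕ) (ρ1 ρ2 : ℕ → ℂ) (κ1 : s → ℂ) (κ2 : t → ℂ)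
  (c1 c2 : Polynomial ℤ → ℂ) (f : (s → ℂ) → ℂ) (g : (t → ℂ) → ℂ)

private theorem V_growth_fac {ι : Type} [Fintype ι] (L : ℕ) (j : ι → Fin (L + 1)) :
    (∏ u, ((j u : ℕ).factorial : ℝ)) ≤
      Real.exp (Fintype.card ι * (L * Real.log (L + 2))) := by
  have h1 : ∀ u ∈ (Finset.univ : Finset ι), (((j u : ℕ).factorial : ℕ) : ℝ) ≤
      Real.exp (L * Real.log (L + 2)) := by
    intro u _
    have h2 : (j u : ℕ) ≤ L := Nat.lt_succ_iff.1 (j u).2
    have h3 : (((j u : ℕ).factorial : ℕ) : ℝ) ≤ (L : ℝ) ^ L := by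
      exact_mod_cast (Nat.factorial_le h2).trans (Nat.factorial_le_pow L)
    refine h3.trans ?_
    have h4 : (L : ℝ) ^ L ≤ ((L : ℝ) + 2) ^ L :=
      pow_le_pow_left₀ (Nat.cast_nonneg L) (by linarith) L
    refine h4.trans (le_of_eq ?_)
    have h5 : (0 : ℝ) < (L : ℝ) + 2 := by positivity
    rw [← Real.exp_log (pow_pos h5 L), Real.log_pow]
  refine (Finset.prod_le_prod (fun u _ => Nat.cast_nonneg _) h1).trans (le_of_eq ?_)
  rw [Finset.prod_const, Finset.card_univ, ← Real.exp_nat_mul]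

/-- Proof. `vx_growth` for `f` and `g` (constants `C1', C2'`), the arguments have norm `≤ ‖x‖`;
`∏ (j.1 u)! ≤ (L!)^(card s) ≤ L^(card s * L) = exp (card s * L log L)` (`Nat.factorial_le_pow`), `log L ≤ log (L + 2)`
(for `L = 0` the product is `1`). `C = C1' + C2' + card s + card t`. -/
theorem V_growth (h1 : IsTh q s ρ1 κ1 c1 f) (h2 : IsTh q t ρ2 κ2 c2 g) :
    ∃ C : ℝ, ∀ (L : ℕ) (j : JJ s t L) (x : II s t → ℂ),
      ‖Vx f g j x‖ ≤ Real.exp (C * (L * Real.log (L + 2) + ‖x‖ ^ 2 + 1)) := by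
  obtain ⟨D1, hD1, hrt1⟩ := h1.rt
  obtain ⟨D2, hD2, hrt2⟩ := h2.rt
  obtain ⟨C1, hC1⟩ := h1.growth
  obtain ⟨C2, hC2⟩ := h2.growth
  obtain ⟨B1, hB1, hv1⟩ := vx_growth (ι := s) C1
  obtain ⟨B2, hB2, hv2⟩ := vx_growth (ι := t) C2
  refine ⟨B1 + B2 + s.card + t.card, fun L j x => ?_⟩
  have e1 := hv1 D1 1 hD1 f hrt1 hC1 (fun u => (j.1 u : ℕ))
    (Sum.elim (fun u => x (Sum.inl (Sum.inl u))) (fun u => x (Sum.inr (Sum.inl u))))
  have e2 := hv2 D2 1 hD2 g hrt2 hC2 (fun v => (j.2 v : ℕ))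
    (Sum.elim (fun v => x (Sum.inl (Sum.inr v))) (fun v => x (Sum.inr (Sum.inr v))))
  have n1 : ‖(Sum.elim (fun u => x (Sum.inl (Sum.inl u))) (fun u => x (Sum.inr (Sum.inl u))) :
      s ⊕ s → ℂ)‖ ≤ ‖x‖ := by
    refine (pi_norm_le_iff_of_nonneg (norm_nonneg x)).2 fun i => ?_
    rcases i with u | u
    · exact norm_le_pi_norm x (Sum.inl (Sum.inl u))
    · exact norm_le_pi_norm x (Sum.inr (Sum.inl u))
  have n2 : ‖(Sum.elim (fun v => x (Sum.inl (Sum.inr v))) (fun v => x (Sum.inr (Sum.inr v))) :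
      t ⊕ t → ℂ)‖ ≤ ‖x‖ := by
    refine (pi_norm_le_iff_of_nonneg (norm_nonneg x)).2 fun i => ?_
    rcases i with u | u
    · exact norm_le_pi_norm x (Sum.inl (Sum.inr u))
    · exact norm_le_pi_norm x (Sum.inr (Sum.inr u))
  have f1 := V_growth_fac (ι := s) L (fun u => j.1 u)
  have f2 := V_growth_fac (ι := t) L (fun u => j.2 u)
  rw [Fintype.card_coe] at f1 f2
  have hx := norm_nonneg x
  have g1 : Real.exp (B1 * (1 + ‖(Sum.elim (fun u => x (Sum.inl (Sum.inl u)))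
      (fun u => x (Sum.inr (Sum.inl u))) : s ⊕ s → ℂ)‖ ^ 2)) ≤
      Real.exp (B1 * (1 + ‖x‖ ^ 2)) := by
    refine Real.exp_le_exp.2 (mul_le_mul_of_nonneg_left ?_ hB1)
    have := pow_le_pow_left₀ (norm_nonneg _) n1 2
    linarith
  have g2 : Real.exp (B2 * (1 + ‖(Sum.elim (fun v => x (Sum.inl (Sum.inr v)))
      (fun v => x (Sum.inr (Sum.inr v))) : t ⊕ t → ℂ)‖ ^ 2)) ≤
      Real.exp (B2 * (1 + ‖x‖ ^ 2)) := by
    refine Real.exp_le_exp.2 (mul_le_mul_of_nonneg_left ?_ hB2)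
    have := pow_le_pow_left₀ (norm_nonneg _) n2 2
    linarith
  have hlog : 0 ≤ (L : ℝ) * Real.log (L + 2) :=
    mul_nonneg (Nat.cast_nonneg L) (Real.log_nonneg (by
      have : (0 : ℝ) ≤ L := Nat.cast_nonneg L
      linarith))
  unfold Vx
  rw [norm_mul]
  have k1 := e1.trans (mul_le_mul f1 g1 (Real.exp_pos _).le (Real.exp_pos _).le)
  have k2 := e2.trans (mul_le_mul f2 g2 (Real.exp_pos _).le (Real.exp_pos _).le)
  refine (mul_le_mul k1 k2 (norm_nonneg _) (mul_pos (Real.exp_pos _) (Real.exp_pos _)).le).trans ?_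
  rw [← Real.exp_add, ← Real.exp_add, ← Real.exp_add]
  refine Real.exp_le_exp.2 ?_
  have c1' : (0 : ℝ) ≤ s.card := Nat.cast_nonneg _
  have c2' : (0 : ℝ) ≤ t.card := Nat.cast_nonneg _
  have hx2 : 0 ≤ ‖x‖ ^ 2 := sq_nonneg _
  have m1 := mul_nonneg hB1 hlog
  have m2 := mul_nonneg hB2 hlog
  have m3 := mul_nonneg c1' hx2
  have m4 := mul_nonneg c2' hx2
  nlinarith

private theorem V_poly_one {q : ℕ} {s : Finset ℕ} (hs : HS q s) (D : ℕ) (hD : 1 ≤ D)
    (f : (s → ℂ) → ℂ) (h : RT D 1 f) (L : ℕ) (j : s → Fin (L + 1)) (Xa Xb : s → ℂ)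
    (w : UU q) (hw : (w : ℕ) ∉ s) (R : ℝ) :
    ∃ B : ℝ, 0 ≤ B ∧ ∀ (x : UU q → ℂ) (z : ℂ), ‖x‖ ≤ R →
      ‖vx f (fun u => (j u : ℕ))
        (Sum.elim (fun u => Xa u * (Function.update x w z) ⟨u, HS_mem hs u⟩)
          (fun u => Xb u * (Function.update x w z) ⟨q - u, HS_mem' hs u⟩))‖ ≤
        B * (1 + ‖z‖) ^ L := by
  have hw' := mem_UU.1 w.2
  have hwq : (w : ℕ) < q := by omega
  have hv : q - (w : ℕ) ∈ s := by
    by_contra hn
    exact hw ((hs.half w hw'.1.1 hwq hw'.2).2 hn)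
  obtain ⟨v, hvv⟩ : ∃ v : s, v = ⟨q - (w : ℕ), hv⟩ := ⟨_, rfl⟩
  obtain ⟨B, hB, hb⟩ := vx_poly_growth D 1 hD f h (fun u => (j u : ℕ)) v
    ((‖Xa‖ + ‖Xb‖) * R)
  refine ⟨B * (1 + ‖Xb v‖) ^ L, mul_nonneg hB (by positivity), fun x z hx => ?_⟩
  have hR : 0 ≤ R := (norm_nonneg x).trans hx
  have e1 : (Sum.elim (fun u => Xa u * (Function.update x w z) ⟨u, HS_mem hs u⟩)
      (fun u => Xb u * (Function.update x w z) ⟨q - u, HS_mem' hs u⟩) : s ⊕ s → ℂ) =
      Function.update (Sum.elim (fun u => Xa u * x ⟨u, HS_mem hs u⟩)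
        (fun u => Xb u * x ⟨q - u, HS_mem' hs u⟩)) (Sum.inr v) (Xb v * z) := by
    funext i
    rcases i with u | u
    · have h1 : (⟨(u : ℕ), HS_mem hs u⟩ : UU q) ≠ w := by
        intro h2
        have h3 : (u : ℕ) = w := congrArg Subtype.val h2
        exact hw (h3 ▸ u.2)
      rw [Sum.elim_inl, Function.update_of_ne h1, Function.update_of_ne Sum.inl_ne_inr,
        Sum.elim_inl]
    · by_cases h1 : u = v
      · have h2 : (⟨q - (u : ℕ), HS_mem' hs u⟩ : UU q) = w := by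
          apply Subtype.ext
          change q - (u : ℕ) = w
          rw [h1, hvv]
          change q - (q - (w : ℕ)) = w
          omega
        rw [Sum.elim_inr, h2, Function.update_self, h1, Function.update_self]
      · have h2 : (⟨q - (u : ℕ), HS_mem' hs u⟩ : UU q) ≠ w := by
          intro h3
          have h4 : q - (u : ℕ) = w := congrArg Subtype.val h3
          have h5 := (hs.mem u u.2).2.1
          apply h1
          apply Subtype.ext
          rw [hvv]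
          change (u : ℕ) = q - (w : ℕ)
          omega
        have h3 : (Sum.inr u : s ⊕ s) ≠ Sum.inr v := fun h4 => h1 (Sum.inr_injective h4)
        rw [Sum.elim_inr, Function.update_of_ne h2, Function.update_of_ne h3, Sum.elim_inr]
  have e2 : ‖(Sum.elim (fun u => Xa u * x ⟨u, HS_mem hs u⟩)
        (fun u => Xb u * x ⟨q - u, HS_mem' hs u⟩) : s ⊕ s → ℂ)‖ ≤ (‖Xa‖ + ‖Xb‖) * R := by
    refine (pi_norm_le_iff_of_nonneg (mul_nonneg (by positivity) hR)).2 fun i => ?_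
    rcases i with u | u
    · rw [Sum.elim_inl, norm_mul]
      refine mul_le_mul ?_ ((norm_le_pi_norm x _).trans hx) (norm_nonneg _) (by positivity)
      exact (norm_le_pi_norm Xa u).trans (le_add_of_nonneg_right (norm_nonneg _))
    · rw [Sum.elim_inr, norm_mul]
      refine mul_le_mul ?_ ((norm_le_pi_norm x _).trans hx) (norm_nonneg _) (by positivity)
      exact (norm_le_pi_norm Xb u).trans (le_add_of_nonneg_left (norm_nonneg _))
  rw [e1]
  refine (hb _ (Xb v * z) e2).trans ?_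
  rw [mul_assoc, ← mul_pow]
  refine mul_le_mul_of_nonneg_left ?_ hB
  have h6 : 1 + ‖Xb v * z‖ ≤ (1 + ‖Xb v‖) * (1 + ‖z‖) := by
    rw [norm_mul]
    nlinarith [norm_nonneg (Xb v), norm_nonneg z]
  have h7 : (1 : ℝ) ≤ (1 + ‖Xb v‖) * (1 + ‖z‖) := by
    nlinarith [norm_nonneg (Xb v), norm_nonneg z, mul_nonneg (norm_nonneg (Xb v)) (norm_nonneg z)]
  refine (pow_le_pow_left₀ (by positivity) h6 _).trans (pow_le_pow_right₀ h7 ?_)
  exact Nat.lt_succ_iff.1 (j v).2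

/-- Proof. `w` is a unit (`mem_UU`), `w ∉ s`, `w ∉ t`, so `q - w ∈ s` and `q - w ∈ t` (`HS`: exactly one of `u`, `q - u`).
In the first factor the argument is `y ↦ (X_u x_u)_u, (X x_(q-u))_u`; replacing `x` by `update x w z` changes only the
vertical coordinate `u = q - w` (`pj (inr (inl u)) = w` iff `u = q - w`; the abelian coordinates `u ∈ s` are `≠ w`): the
argument is `Function.update x' (inr v) (X * z)`, `v = q - w`, `‖x'‖ ≤ ‖X‖ R`; `vx_poly_growth` gives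
`B1 (1 + ‖X‖ ‖z‖)^(j.1 v) ≤ B1 ((1 + ‖X‖) (1 + ‖z‖))^L`. Same for the second factor (index `inr (inr v)`); multiply. -/
theorem V_poly (h1 : IsTh q s ρ1 κ1 c1 f) (h2 : IsTh q t ρ2 κ2 c2 g) (L : ℕ) (j : JJ s t L)
    (X : II s t → ℂ) (w : UU q) (hs : (w : ℕ) ∉ s) (ht : (w : ℕ) ∉ t) (R : ℝ) :
    ∃ B : ℝ, ∀ (x : UU q → ℂ) (z : ℂ), ‖x‖ ≤ R →
      ‖Vx f g j (wv h1.half h2.half X (Function.update x w z))‖ ≤ B * (1 + ‖z‖) ^ (2 * L) := by
  obtain ⟨D1, hD1, hrt1⟩ := h1.rt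
  obtain ⟨D2, hD2, hrt2⟩ := h2.rt
  obtain ⟨B1, hB1, e1⟩ := V_poly_one h1.half D1 hD1 f hrt1 L j.1 (fun u => X (Sum.inl (Sum.inl u)))
    (fun u => X (Sum.inr (Sum.inl u))) w hs R
  obtain ⟨B2, hB2, e2⟩ := V_poly_one h2.half D2 hD2 g hrt2 L j.2 (fun u => X (Sum.inl (Sum.inr u)))
    (fun u => X (Sum.inr (Sum.inr u))) w ht R
  refine ⟨B1 * B2, fun x z hx => ?_⟩
  unfold Vx
  rw [norm_mul]
  have k1 := e1 x z hx
  have k2 := e2 x z hx
  have hz : 0 ≤ (1 + ‖z‖) ^ L := by positivity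
  refine (mul_le_mul k1 k2 (norm_nonneg _) (mul_nonneg hB1 hz)).trans (le_of_eq ?_)
  rw [two_mul, pow_add]
  ring

end

end Pool.Agent.Helper93.LX
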