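import Pool.Agent.Helper93.LX.Vc
import Pool.Agent.Helper4.LT.Zt

/-!
PROJECT LT2, block V, file Ve: quasi-periodicity on `V`, `Theta2` (targets of Helper34/LU/Tg.lean, word for
word).
-/

set_option autoImplicit false

namespace Pool.Agent.Helper93.LX

open Finset Pool.Agent.Helper34.LT LTG Pool.Agent.Helper34.LU
open Pool.Agent.Helper44.LT (PU)
open Pool.Agent.Helper63.LU (Theta2)

noncomputable section

/-- `P (ζ ^ (q - u))` is the conjugate of `P (ζ ^ u)` -/
theorem V_per_conj {q u : ℕ} (hq : q ≠ 0) (hu : u ≤ q) (P : Polynomial ℤ) :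
    Polynomial.aeval (zt q ^ (q - u)) P = (starRingEnd ℂ) (Polynomial.aeval (zt q ^ u) P) := by
  rw [← conj_zt_pow q u hq hu, Polynomial.aeval_def, Polynomial.aeval_def, Polynomial.hom_eval₂]
  congr 1
  exact RingHom.ext_int _ _

/-- one factor: the shift by `lamS q s ρ P` in the abelian and `κ u * conj (P(ζ^u))` in the vertical
variables -/
theorem V_per_one (q : ℕ) (s : Finset ℕ) (ρ : ℕ → ℂ) (κ : s → ℂ) (c : Polynomial ℤ → ℂ)
    (f : (s → ℂ) → ℂ) (h : IsTh q s ρ κ c f) (k : s → ℕ) (P : Polynomial ℤ) (x : s ⊕ s → ℂ) :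
    vx f k (x + Sum.elim (lamS q s ρ P) (fun u => κ u * (starRingEnd ℂ) (pt q s P u))) =
      Complex.exp (∑ u : s, κ u * (starRingEnd ℂ) (pt q s P u) * x (Sum.inl u) + c P) *
        vx f k x := by
  obtain ⟨D, hD, hR⟩ := h.rt
  exact vx_qp D 1 hD f hR (lamS q s ρ P) (fun u => κ u * (starRingEnd ℂ) (pt q s P u)) (c P)
    (fun z => h.qp P z) k x

variable (q : ℕ) (s t : Finset ℕ) (ρ1 ρ2 : ℕ → ℂ) (κ1 : s → ℂ) (κ2 : t → ℂ)
  (c1 c2 : Polynomial ℤ → ℂ) (f : (s → ℂ) → ℂ) (g : (t → ℂ) → ℂ)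

/-- on `V`, true slopes: quasi-periodicity.
Proof. First factor: abelian argument `u ↦ ρ1 u * (x_u + P(ζ^u))` = old + `lamS q s ρ1 P`; vertical argument
`u ↦ κ1 u * (x_(q-u) + P(ζ^(q-u)))` = old + `κ1 u * conj (P(ζ^u))` (`zt q ^ (q - u) = conj (zt q ^ u)`, integer
coefficients: `pt q (UU q) P (q-u) = conj (pt q s P u)`); `QPS` for `f` has the multiplier
`exp (∑ κ1 u * conj (pt q s P u) * z u + c1 P)`, so `vx_qp` with `γ = lamS q s ρ1 P`,
`a u = κ1 u * conj (pt q s P u)` gives the factor `exp (∑ κ1 u conj(..) ρ1 u x_u + c1 P)`. Same for the second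
factor; multiply (`Complex.exp_add`). -/
theorem V_per (h1 : IsTh q s ρ1 κ1 c1 f) (h2 : IsTh q t ρ2 κ2 c2 g) (L : ℕ) (j : JJ s t L)
    (P : Polynomial ℤ) (x : UU q → ℂ) :
    Vx f g j (wv h1.half h2.half (tru ρ1 ρ2 κ1 κ2) (x + pt q (UU q) P)) =
      Complex.exp (∑ u : s, κ1 u * ρ1 u * (starRingEnd ℂ) (pt q s P u) *
          x ⟨u, HS_mem h1.half u⟩ +
        ∑ v : t, κ2 v * ρ2 v * (starRingEnd ℂ) (pt q t P v) * x ⟨v, HS_mem h2.half v⟩ +
        (c1 P + c2 P)) *
      Vx f g j (wv h1.half h2.half (tru ρ1 ρ2 κ1 κ2) x) := by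
  have hq : q ≠ 0 := by have := h1.half.three; omega
  have e1 : (Sum.elim
      (fun u : s => wv h1.half h2.half (tru ρ1 ρ2 κ1 κ2) (x + pt q (UU q) P) (Sum.inl (Sum.inl u)))
      (fun u : s => wv h1.half h2.half (tru ρ1 ρ2 κ1 κ2) (x + pt q (UU q) P)
        (Sum.inr (Sum.inl u))) : s ⊕ s → ℂ) =
      Sum.elim
        (fun u : s => wv h1.half h2.half (tru ρ1 ρ2 κ1 κ2) x (Sum.inl (Sum.inl u)))
        (fun u : s => wv h1.half h2.half (tru ρ1 ρ2 κ1 κ2) x (Sum.inr (Sum.inl u))) +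
      Sum.elim (lamS q s ρ1 P) (fun u => κ1 u * (starRingEnd ℂ) (pt q s P u)) := by
    funext i
    rcases i with u | u
    · simp only [wv, tru, pj, Sum.elim_inl, Pi.add_apply, pt, lamS]
      ring
    · have hu := (h1.half.mem u u.2).2.1.le
      simp only [wv, tru, pj, Sum.elim_inl, Sum.elim_inr, Pi.add_apply, pt]
      rw [V_per_conj hq hu]
      ring
  have e2 : (Sum.elim
      (fun u : t => wv h1.half h2.half (tru ρ1 ρ2 κ1 κ2) (x + pt q (UU q) P) (Sum.inl (Sum.inr u)))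
      (fun u : t => wv h1.half h2.half (tru ρ1 ρ2 κ1 κ2) (x + pt q (UU q) P)
        (Sum.inr (Sum.inr u))) : t ⊕ t → ℂ) =
      Sum.elim
        (fun u : t => wv h1.half h2.half (tru ρ1 ρ2 κ1 κ2) x (Sum.inl (Sum.inr u)))
        (fun u : t => wv h1.half h2.half (tru ρ1 ρ2 κ1 κ2) x (Sum.inr (Sum.inr u))) +
      Sum.elim (lamS q t ρ2 P) (fun u => κ2 u * (starRingEnd ℂ) (pt q t P u)) := by
    funext i
    rcases i with u | u
    · simp only [wv, tru, pj, Sum.elim_inl, Sum.elim_inr, Pi.add_apply, pt, lamS]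
      ring
    · have hu := (h2.half.mem u u.2).2.1.le
      simp only [wv, tru, pj, Sum.elim_inr, Pi.add_apply, pt]
      rw [V_per_conj hq hu]
      ring
  have s1 : ∑ u : s, κ1 u * (starRingEnd ℂ) (pt q s P u) *
      (Sum.elim
        (fun u : s => wv h1.half h2.half (tru ρ1 ρ2 κ1 κ2) x (Sum.inl (Sum.inl u)))
        (fun u : s => wv h1.half h2.half (tru ρ1 ρ2 κ1 κ2) x (Sum.inr (Sum.inl u)))
        (Sum.inl u)) =
      ∑ u : s, κ1 u * ρ1 u * (starRingEnd ℂ) (pt q s P u) * x ⟨u, HS_mem h1.half u⟩ := by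
    refine Finset.sum_congr rfl fun u _ => ?_
    simp only [wv, tru, pj, Sum.elim_inl]
    ring
  have s2 : ∑ u : t, κ2 u * (starRingEnd ℂ) (pt q t P u) *
      (Sum.elim
        (fun u : t => wv h1.half h2.half (tru ρ1 ρ2 κ1 κ2) x (Sum.inl (Sum.inr u)))
        (fun u : t => wv h1.half h2.half (tru ρ1 ρ2 κ1 κ2) x (Sum.inr (Sum.inr u)))
        (Sum.inl u)) =
      ∑ u : t, κ2 u * ρ2 u * (starRingEnd ℂ) (pt q t P u) * x ⟨u, HS_mem h2.half u⟩ := by
    refine Finset.sum_congr rfl fun u _ => ?_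
    simp only [wv, tru, pj, Sum.elim_inl, Sum.elim_inr]
    ring
  rw [Vx, Vx, e1, e2, V_per_one q s ρ1 κ1 c1 f h1, V_per_one q t ρ2 κ2 c2 g h2, s1, s2]
  rw [show ∀ a b c d : ℂ, a + b + (c + d) = (a + c) + (b + d) from fun a b c d => by ring,
    Complex.exp_add (_ + c1 P)]
  ring

/-- A half system has at most `q / 2` elements. -/
private theorem two_card_le {q : ℕ} {s : Finset ℕ} (h : HS q s) : 2 * Fintype.card s ≤ q := by
  classical
  have h3 := h.three
  have hd : Disjoint s (s.image fun u => q - u) := by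
    rw [Finset.disjoint_left]
    intro u hu hu'
    obtain ⟨v, hv, rfl⟩ := Finset.mem_image.1 hu'
    obtain ⟨a1, a2, a3⟩ := h.mem v hv
    exact (h.half v a1 a2 a3).1 hv hu
  have hc : (s.image fun u => q - u).card = s.card := by
    refine Finset.card_image_of_injOn ?_
    intro u hu v hv huv
    have b1 := h.mem u hu
    have b2 := h.mem v hv
    simp only at huv
    omega
  have hsub : s ∪ (s.image fun u => q - u) ⊆ Finset.Icc 1 (q - 1) := by
    intro u hu
    rcases Finset.mem_union.1 hu with hu | hu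
    · obtain ⟨a1, a2, a3⟩ := h.mem u hu
      exact Finset.mem_Icc.2 ⟨a1, by omega⟩
    · obtain ⟨v, hv, rfl⟩ := Finset.mem_image.1 hu
      obtain ⟨a1, a2, a3⟩ := h.mem v hv
      exact Finset.mem_Icc.2 ⟨by omega, by omega⟩
  have := Finset.card_le_card hsub
  rw [Finset.card_union_of_disjoint hd, hc, Nat.card_Icc] at this
  rw [Fintype.card_coe]
  omega

/-- Quasi-periodicity of the product functions. -/
private theorem Vx_shift (h1 : IsTh q s ρ1 κ1 c1 f) (h2 : IsTh q t ρ2 κ2 c2 g) (L : ℕ)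
    (j : JJ s t L) (a : Polynomial ℤ × Polynomial ℤ) (z : II s t → ℂ) :
    Vx f g j (z + Sum.elim (gm q s t ρ1 ρ2 a) (sgm ρ1 ρ2 κ1 κ2 (gm q s t ρ1 ρ2 a))) =
      Complex.exp (lm q κ1 κ2 a (fun i => z (Sum.inl i)) + cm c1 c2 a) * Vx f g j z := by
  obtain ⟨D1, hD1, r1⟩ := h1.rt
  obtain ⟨D2, hD2, r2⟩ := h2.rt
  have e1 : (Sum.elim
      (fun u : s => (z + Sum.elim (gm q s t ρ1 ρ2 a) (sgm ρ1 ρ2 κ1 κ2 (gm q s t ρ1 ρ2 a)))
        (Sum.inl (Sum.inl u)))
      (fun u : s => (z + Sum.elim (gm q s t ρ1 ρ2 a) (sgm ρ1 ρ2 κ1 κ2 (gm q s t ρ1 ρ2 a)))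
        (Sum.inr (Sum.inl u))) : s ⊕ s → ℂ) =
      Sum.elim (fun u => z (Sum.inl (Sum.inl u))) (fun u => z (Sum.inr (Sum.inl u))) +
        Sum.elim (lamS q s ρ1 a.1) (fun u => κ1 u * (starRingEnd ℂ) (pt q s a.1 u)) := by
    funext i
    rcases i with u | u
    · simp [gm]
    · have hr : ρ1 u ≠ 0 := h1.rho u u.2
      simp [gm, sgm, lamS]
      left
      exact mul_div_cancel_left₀ _ ((map_ne_zero _).2 hr)
  have e2 : (Sum.elim
      (fun v : t => (z + Sum.elim (gm q s t ρ1 ρ2 a) (sgm ρ1 ρ2 κ1 κ2 (gm q s t ρ1 ρ2 a)))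
        (Sum.inl (Sum.inr v)))
      (fun v : t => (z + Sum.elim (gm q s t ρ1 ρ2 a) (sgm ρ1 ρ2 κ1 κ2 (gm q s t ρ1 ρ2 a)))
        (Sum.inr (Sum.inr v))) : t ⊕ t → ℂ) =
      Sum.elim (fun v => z (Sum.inl (Sum.inr v))) (fun v => z (Sum.inr (Sum.inr v))) +
        Sum.elim (lamS q t ρ2 a.2) (fun v => κ2 v * (starRingEnd ℂ) (pt q t a.2 v)) := by
    funext i
    rcases i with u | u
    · simp [gm]
    · have hr : ρ2 u ≠ 0 := h2.rho u u.2
      simp [gm, sgm, lamS]
      left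
      exact mul_div_cancel_left₀ _ ((map_ne_zero _).2 hr)
  unfold Vx
  rw [e1, e2, vx_qp D1 1 hD1 f r1 _ _ _ (h1.qp a.1), vx_qp D2 1 hD2 g r2 _ _ _ (h2.qp a.2)]
  have e3 : lm q κ1 κ2 a (fun i => z (Sum.inl i)) + cm c1 c2 a =
      (∑ u : s, κ1 u * (starRingEnd ℂ) (pt q s a.1 u) *
          (Sum.elim (fun u => z (Sum.inl (Sum.inl u))) (fun u => z (Sum.inr (Sum.inl u))) :
            s ⊕ s → ℂ) (Sum.inl u) + c1 a.1) +
      (∑ v : t, κ2 v * (starRingEnd ℂ) (pt q t a.2 v) *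
          (Sum.elim (fun v => z (Sum.inl (Sum.inr v))) (fun v => z (Sum.inr (Sum.inr v))) :
            t ⊕ t → ℂ) (Sum.inl v) + c2 a.2) := by
    simp only [lm, cm, AddMonoidHom.coe_mk, ZeroHom.coe_mk, LinearMap.add_apply,
      LinearMap.coe_sum, Finset.sum_apply, LinearMap.smul_apply, LinearMap.proj_apply,
      smul_eq_mul, Sum.elim_inl]
    ring
  rw [e3, Complex.exp_add (_ + c1 a.1)]
  ring

/-- Polynomial dependence on the vertical variables of the product functions. -/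
private theorem Vx_poly (h1 : IsTh q s ρ1 κ1 c1 f) (h2 : IsTh q t ρ2 κ2 c2 g) (L : ℕ)
    (j : JJ s t L) (z : s ⊕ t → ℂ) :
    ∃ P : MvPolynomial (s ⊕ t) ℂ, P.totalDegree ≤ q * L ∧
      ∀ w : s ⊕ t → ℂ, Vx f g j (Sum.elim z w) = MvPolynomial.eval w P := by
  obtain ⟨D1, hD1, r1⟩ := h1.rt
  obtain ⟨D2, hD2, r2⟩ := h2.rt
  obtain ⟨P1, d1, -, -, ev1⟩ := vx_poly D1 1 hD1 f r1 (fun u => (j.1 u : ℕ))
    (fun u => z (Sum.inl u))
  obtain ⟨P2, d2, -, -, ev2⟩ := vx_poly D2 1 hD2 g r2 (fun v => (j.2 v : ℕ))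
    (fun v => z (Sum.inr v))
  refine ⟨MvPolynomial.rename Sum.inl P1 * MvPolynomial.rename Sum.inr P2, ?_, fun w => ?_⟩
  · have c1 : ∑ u, (j.1 u : ℕ) ≤ Fintype.card s * L := by
      refine (Finset.sum_le_card_nsmul _ _ L fun u _ => Nat.lt_succ_iff.1 (j.1 u).2).trans ?_
      rw [Finset.card_univ, smul_eq_mul]
    have c2 : ∑ v, (j.2 v : ℕ) ≤ Fintype.card t * L := by
      refine (Finset.sum_le_card_nsmul _ _ L fun v _ => Nat.lt_succ_iff.1 (j.2 v).2).trans ?_
      rw [Finset.card_univ, smul_eq_mul]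
    have k1 := two_card_le h1.half
    have k2 := two_card_le h2.half
    have k3 : Fintype.card s + Fintype.card t ≤ q := by omega
    calc (MvPolynomial.rename Sum.inl P1 * MvPolynomial.rename Sum.inr P2).totalDegree
        ≤ (MvPolynomial.rename Sum.inl P1).totalDegree +
          (MvPolynomial.rename Sum.inr P2).totalDegree := MvPolynomial.totalDegree_mul _ _
      _ ≤ P1.totalDegree + P2.totalDegree := add_le_add (MvPolynomial.totalDegree_rename_le _ _)
          (MvPolynomial.totalDegree_rename_le _ _)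
      _ ≤ Fintype.card s * L + Fintype.card t * L := add_le_add (d1.trans c1) (d2.trans c2)
      _ = (Fintype.card s + Fintype.card t) * L := by ring
      _ ≤ q * L := Nat.mul_le_mul_right L k3
  · rw [map_mul, MvPolynomial.eval_rename, MvPolynomial.eval_rename]
    have := ev1 (w ∘ Sum.inl)
    have h' := ev2 (w ∘ Sum.inr)
    rw [← this, ← h']
    rfl

/-- Proof. Differentiable: `vx_diff` composed with linear maps, products and sums. Quasi-periodicity: the shift by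
`Sum.elim (gm a) (sgm (gm a))` is, in the first factor, `lamS q s ρ1 a.1` in the abelian and
`κ1 u * conj (ρ1 u * P(ζ^u) / ρ1 u) = κ1 u * conj (pt q s a.1 u)` in the vertical variables (`ρ1 u ≠ 0`), so
`vx_qp` applies (as in `V_per`); the exponents add up to `lm a (x ∘ inl) + cm a`, independent of `j`, so it factors out of
the sum. Polynomial in the vertical variables: `vx_poly` for both factors, rename the variables
(`MvPolynomial.rename Sum.inl`, `Sum.inr`), product, total degree `≤ ∑ j.1 u + ∑ j.2 v ≤ (card s + card t) L ≤ q L`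
(`card s ≤ (q-1)/2`: `u ∈ s → q - u ∉ s`, `s ⊆ [1, q-1]`, so `2 card s ≤ q - 1`), linear combination
(`MvPolynomial.totalDegree_finset_sum`). -/
theorem V_theta (h1 : IsTh q s ρ1 κ1 c1 f) (h2 : IsTh q t ρ2 κ2 c2 g) (L : ℕ)
    (b : JJ s t L → ℂ) :
    Theta2 (gm q s t ρ1 ρ2) (lm q κ1 κ2) (cm c1 c2) (sgm ρ1 ρ2 κ1 κ2) 1 (q * L)
      (fun x => ∑ j, b j * Vx f g j x) := by
  refine ⟨?_, ?_, ?_⟩
  · obtain ⟨D1, hD1, r1⟩ := h1.rt
    obtain ⟨D2, hD2, r2⟩ := h2.rt
    refine Differentiable.fun_sum fun j _ => (differentiable_const _).mul ?_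
    refine Differentiable.mul ?_ ?_
    · refine (vx_diff D1 1 hD1 f r1 _).comp ?_
      rw [differentiable_pi]
      rintro (u | u)
      · exact differentiable_apply _
      · exact differentiable_apply _
    · refine (vx_diff D2 1 hD2 g r2 _).comp ?_
      rw [differentiable_pi]
      rintro (u | u)
      · exact differentiable_apply _
      · exact differentiable_apply _
  · intro a z
    simp only [Nat.cast_one, one_mul]
    rw [Finset.mul_sum]
    refine Finset.sum_congr rfl fun j _ => ?_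
    rw [Vx_shift q s t ρ1 ρ2 κ1 κ2 c1 c2 f g h1 h2 L j a z]
    ring
  · intro z
    choose P hP hw using fun j => Vx_poly q s t ρ1 ρ2 κ1 κ2 c1 c2 f g h1 h2 L j z
    refine ⟨∑ j, MvPolynomial.C (b j) * P j, ?_, fun w => ?_⟩
    · refine MvPolynomial.totalDegree_finsetSum_le fun j _ => ?_
      refine (MvPolynomial.totalDegree_mul _ _).trans ?_
      rw [MvPolynomial.totalDegree_C, zero_add]
      exact hP j
    · rw [map_sum]
      refine Finset.sum_congr rfl fun j _ => ?_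
      rw [map_mul, MvPolynomial.eval_C, hw j w]

end

end Pool.Agent.Helper93.LX
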