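import Pool.Agent.Helper93.LX.Vc

/-!
PROJECT LT2, block V, file Vf: linear independence of the product functions (target `V_ne` of
Helper34/LU/Tg.lean, word for word).
-/

set_option autoImplicit false

namespace Pool.Agent.Helper93.LX

open Finset Pool.Agent.Helper34.LT LTG Pool.Agent.Helper34.LU

noncomputable section

variable (q : ℕ) (s t : Finset ℕ) (ρ1 ρ2 : ℕ → ℂ) (κ1 : s → ℂ) (κ2 : t → ℂ)
  (c1 c2 : Polynomial ℤ → ℂ) (f : (s → ℂ) → ℂ) (g : (t → ℂ) → ℂ)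

theorem V_ne (h1 : IsTh q s ρ1 κ1 c1 f) (h2 : IsTh q t ρ2 κ2 c2 g) (L : ℕ)
    (b : JJ s t L → ℂ) (hb : b ≠ 0) : ∃ x, ∑ j, b j * Vx f g j x ≠ 0 := by
  by_contra hc
  push Not at hc
  obtain ⟨D1, hD1, hr1⟩ := h1.rt
  obtain ⟨D2, hD2, hr2⟩ := h2.rt
  have h3 := prod_indep _ _ (vx_indep D1 1 hD1 f hr1 h1.ne L) (vx_indep D2 1 hD2 g hr2 h2.ne L)
  rw [Fintype.linearIndependent_iff] at h3
  apply hb
  funext j
  refine h3 b ?_ j
  funext y
  have h4 := hc (Sum.elim (Sum.elim (fun u => y.1 (Sum.inl u)) (fun v => y.2 (Sum.inl v)))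
    (Sum.elim (fun u => y.1 (Sum.inr u)) (fun v => y.2 (Sum.inr v))))
  rw [Finset.sum_apply, Pi.zero_apply, ← h4]
  refine Finset.sum_congr rfl fun k _ => ?_
  have e1 : (Sum.elim (fun u => y.1 (Sum.inl u)) (fun u => y.1 (Sum.inr u)) : s ⊕ s → ℂ) = y.1 := by
    funext i
    rcases i with i | i <;> rfl
  have e2 : (Sum.elim (fun u => y.2 (Sum.inl u)) (fun u => y.2 (Sum.inr u)) : t ⊕ t → ℂ) = y.2 := by
    funext i
    rcases i with i | i <;> rfl
  simp only [Pi.smul_apply, smul_eq_mul, Vx, Sum.elim_inl, Sum.elim_inr]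
  rw [e1, e2]

end

end Pool.Agent.Helper93.LX
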