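import Pool.Agent.Helper34.LU.Co
import Pool.Agent.Helper4.LT.Sl
import Pool.Agent.Helper4.LT.Rt
import Pool.Agent.Helper4.LT.Rl
import Pool.Agent.Helper13.LT.Psm
import Pool.Agent.Helper13.LT.Psd
import Pool.Agent.Helper96.LU.Vr

/-!
PROJECT LT2 (MP_274814_nt), block V (vector part), captain helper93.  File Va: joint expansion.

`vx f k (z, w) = ∂_t^k [f(z + t) exp (-⟨t, w⟩)]` at `t = 0` (Helper34/LU/Df.lean).
-/

namespace Pool.Agent.Helper93.LX

open Pool.Agent.Helper34.LT (RT)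
open Pool.Agent.Helper34.LU (cof vx)
open Pool.Agent.Helper13.LT (PS)

noncomputable section

variable {ι : Type} [Fintype ι]

/-- the generating function of the vector part, `vx f k x = k! cof (vt f x) k` -/
def vt (f : (ι → ℂ) → ℂ) (x : ι ⊕ ι → ℂ) (t : ι → ℂ) : ℂ :=
  f (fun u => x (Sum.inl u) + t u) * Complex.exp (-∑ u, t u * x (Sum.inr u))

theorem vx_eq (f : (ι → ℂ) → ℂ) (k : ι → ℕ) (x : ι ⊕ ι → ℂ) :
    vx f k x = (∏ u, ((k u).factorial : ℂ)) * cof (vt f x) k := rfl

omit [Fintype ι] in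
private theorem RT_ext_inj {κ : Type} (i : ι → κ) (hi : Function.Injective i) :
    Function.Injective (fun m : ι → ℕ => Function.extend i m (0 : κ → ℕ)) := by
  intro m m' h
  funext u
  have h1 := congrFun h (i u)
  simpa only [hi.extend_apply] using h1

private theorem RT_ext_aux {κ : Type} [Fintype κ] (i : ι → κ) (hi : Function.Injective i)
    (D n : ℕ) (f : (ι → ℂ) → ℂ) (h : RT D n f) :
    RT D n (fun x : κ → ℂ => f (fun u => x (i u))) := by
  classical
  obtain ⟨A, hA⟩ := h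
  refine ⟨fun M => if M ∈ Set.range (fun m : ι → ℕ => Function.extend i m (0 : κ → ℕ)) then
    A (fun u => M (i u)) else 0, fun z => ?_⟩
  have h0 : ∀ (m : ι → ℕ) (k : κ), k ∉ Set.range i → Function.extend i m (0 : κ → ℕ) k = 0 := by
    intro m k hk
    rw [Function.extend_apply' _ _ _ hk]
    rfl
  refine ((RT_ext_inj i hi).hasSum_iff ?_).mp ?_
  · intro M hM
    have h5 : (if M ∈ Set.range (fun m : ι → ℕ => Function.extend i m (0 : κ → ℕ)) then
      A (fun u => M (i u)) else 0) = 0 := if_neg hM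
    beta_reduce
    rw [h5]
    simp
  · refine (hA (fun u => z (i u))).congr_fun ?_
    intro m
    have h1 : ∑ u, m u = ∑ k, Function.extend i m (0 : κ → ℕ) k :=
      Fintype.sum_of_injective i hi _ _ (h0 m) fun u => (hi.extend_apply m 0 u).symm
    have h2 : ∏ u, ((m u).factorial : ℂ) =
        ∏ k, ((Function.extend i m (0 : κ → ℕ) k).factorial : ℂ) :=
      Fintype.prod_of_injective i hi _ _ (fun k hk => by rw [h0 m k hk]; simp)
        fun u => by rw [hi.extend_apply]
    have h3 : ∏ u, z (i u) ^ m u = ∏ k, z k ^ (Function.extend i m (0 : κ → ℕ) k) :=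
      Fintype.prod_of_injective i hi _ _ (fun k hk => by rw [h0 m k hk]; simp)
        fun u => by rw [hi.extend_apply]
    simp only [Function.comp_apply, Set.mem_range_self, if_true]
    rw [← h1, ← h2, ← h3]
    have h4 : (fun u => Function.extend i m (0 : κ → ℕ) (i u)) = m :=
      funext fun u => hi.extend_apply m 0 u
    rw [h4]

/-- `RT` is a special case of `PS`. -/
theorem RT.ps {D n : ℕ} {f : (ι → ℂ) → ℂ} (h : RT D n f) : ∃ c : (ι → ℕ) → ℂ, PS c f := by
  obtain ⟨A, hA⟩ := h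
  exact ⟨_, hA⟩

/-- Proof. The index set is transported by `e` (`Equiv.arrowCongr`, `Equiv.hasSum_iff`,
`Equiv.sum_comp`, `Equiv.prod_comp`). -/
theorem RT_reindex {κ : Type} [Fintype κ] (e : ι ≃ κ) (D n : ℕ) (f : (ι → ℂ) → ℂ) (h : RT D n f) :
    RT D n (fun x : κ → ℂ => f (fun i => x (e i))) :=
  RT_ext_aux e e.injective D n f h

/-- A function of some of the variables only. Proof. `i` injective; the coefficients `A'_M` are `A_m` if `M` is the
extension by `0` of `m` (`M = fun k => if k is i u then m u else 0`), `0` otherwise (`Function.Injective.hasSum_iff` for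
`m ↦ ext m`). -/
theorem RT_ext {κ : Type} [Fintype κ] (i : ι → κ) (hi : Function.Injective i) (D n : ℕ)
    (f : (ι → ℂ) → ℂ) (h : RT D n f) : RT D n (fun x : κ → ℂ => f (fun u => x (i u))) :=
  RT_ext_aux i hi D n f h

private theorem RT_one (D : ℕ) : RT D 0 (fun _ : ι → ℂ => (1 : ℂ)) := by
  classical
  refine ⟨fun m => if m = 0 then 1 else 0, fun z => ?_⟩
  have h := hasSum_single (f := fun m : ι → ℕ =>
    (((if m = 0 then 1 else 0 : ℤ)) : ℂ) /
      ((D : ℂ) ^ (∑ u, m u + 0) * ∏ u, ((m u).factorial : ℂ)) * ∏ u, z u ^ m u) 0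
    (fun m hm => by simp [hm])
  simpa using h

private theorem RT_prod {J : Type} (D : ℕ) (hD : 1 ≤ D) (s : Finset J) (g : J → (ι → ℂ) → ℂ)
    (hg : ∀ j, RT D 0 (g j)) : RT D 0 (fun z : ι → ℂ => ∏ j ∈ s, g j z) := by
  classical
  induction s using Finset.induction_on with
  | empty => simpa using RT_one D
  | insert a s ha ih =>
    have h := LTG.RT_mul D 0 0 hD _ _ (hg a) ih
    simpa only [Finset.prod_insert ha] using h

private theorem RT_exp2 (D : ℕ) (hD : 1 ≤ D) :
    RT D 0 (fun X : Bool → ℂ => Complex.exp (-(X true * X false))) := by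
  classical
  have hD' : (D : ℂ) ≠ 0 := by exact_mod_cast (by omega : D ≠ 0)
  refine ⟨fun M => if M ∈ Set.range (fun n : ℕ => fun _ : Bool => n) then
    (-1) ^ M true * (D : ℤ) ^ (2 * M true) * ((M true).factorial : ℤ) else 0, fun z => ?_⟩
  have hinj : Function.Injective (fun n : ℕ => fun _ : Bool => n) := fun a b h => congrFun h true
  refine (hinj.hasSum_iff ?_).mp ?_
  · intro M hM
    have h5 : (if M ∈ Set.range (fun n : ℕ => fun _ : Bool => n) then
      (-1) ^ M true * (D : ℤ) ^ (2 * M true) * ((M true).factorial : ℤ) else 0) = 0 := if_neg hM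
    beta_reduce
    rw [h5]
    simp
  · have h := NormedSpace.expSeries_div_hasSum_exp (-(z true * z false))
    rw [← Complex.exp_eq_exp_ℂ] at h
    refine h.congr_fun ?_
    intro n
    have hn : ((n.factorial : ℕ) : ℂ) ≠ 0 := by exact_mod_cast n.factorial_ne_zero
    simp only [Function.comp_apply, Set.mem_range_self, if_true, Fintype.sum_bool,
      Fintype.prod_bool]
    push_cast
    have h6 : (-(z true * z false)) ^ n = (-1) ^ n * (z true ^ n * z false ^ n) := by
      rw [neg_pow, mul_pow]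
    rw [h6, add_zero, ← two_mul]
    field_simp

/-- Proof. `exp (-∑ t_u y_u) = ∏_u ∑_n (-t_u y_u)^n / n!`: coefficient of `y^n t^n` (all other coefficients are `0`)
`(-1)^|n| / ∏ n_u! = A / (D^(2|n|) ∏ n_u! ∏ n_u!)`, `A = (-1)^|n| D^(2|n|) ∏ n_u!`. Variables: `X (inl (inl u))` does
not occur, `X (inl (inr u)) = y_u`, `X (inr u) = t_u`. One way: the function `(a, b) ↦ exp (-a b)` of two variables
(index `Bool` or `Fin 2`) has `RT D 0` (one sum over `n : ℕ`, extended by zero along the injective map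
`n ↦ fun _ => n`), `RT_ext` for each `u`, and the finite product by induction with `LTG.RT_mul`. -/
theorem RT_expb (D : ℕ) (hD : 1 ≤ D) :
    RT D 0 (fun X : (ι ⊕ ι) ⊕ ι → ℂ =>
      Complex.exp (-∑ u, X (Sum.inr u) * X (Sum.inl (Sum.inr u)))) := by
  have h := RT_prod (ι := (ι ⊕ ι) ⊕ ι) D hD (Finset.univ : Finset ι)
    (fun u X => Complex.exp (-(X (Sum.inr u) * X (Sum.inl (Sum.inr u))))) (fun u => by
      have hi : Function.Injective (fun b : Bool => (cond b (Sum.inr u)
          (Sum.inl (Sum.inr u)) : (ι ⊕ ι) ⊕ ι)) := by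
        intro b b' hb
        cases b <;> cases b' <;> simp_all
      exact RT_ext _ hi D 0 _ (RT_exp2 D hD))
  simpa only [← Finset.sum_neg_distrib, Complex.exp_sum] using h

/-- Proof. `LTG.RT_lin` with `(1, 1, 0)` on `ι ⊕ (ι ⊕ ι)` (`inl u`: `z_u`, `inr (inl u)`: `t_u`, `inr (inr u)`: `w_u`),
`RT_reindex`, `RT_expb` and `LTG.RT_mul`. -/
theorem vt_RT (D n : ℕ) (hD : 1 ≤ D) (f : (ι → ℂ) → ℂ) (h : RT D n f) :
    RT D n (fun X : (ι ⊕ ι) ⊕ ι → ℂ => vt f (fun s => X (Sum.inl s)) (fun u => X (Sum.inr u))) := by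
  have h1 := LTG.RT_lin D n hD 1 1 0 f h
  have hi : Function.Injective (Sum.elim (fun u : ι => (Sum.inl (Sum.inl u) : (ι ⊕ ι) ⊕ ι))
      (Sum.elim (fun u : ι => Sum.inr u) (fun u : ι => Sum.inl (Sum.inr u)))) := by
    rintro (a | a | a) (b | b | b) hab <;> simp at hab ⊢ <;> exact hab
  have h2 := RT_ext _ hi D n _ h1
  have h3 := LTG.RT_mul D n 0 hD _ _ h2 (RT_expb (ι := ι) D hD)
  simpa [vt] using h3

/-- Proof. From `vt_RT`: the family `b M = A M / (D^(|M| + n) M!)` is an expansion of the joint function; for fixed `x`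
the slices `LTG.sl b β x` (`LTG.sl_hasSum`) are the coefficients in `t`, and `LTG.sl_hasSum'` gives the expansion of
the slice in `x`: `vx f k x = k! sl b k x = ∑_m A (m, k) / (D^(|m| + |k| + n) m!) x^m`. -/
theorem vx_RT (D n : ℕ) (hD : 1 ≤ D) (f : (ι → ℂ) → ℂ) (h : RT D n f) (k : ι → ℕ) :
    RT D (∑ u, k u + n) (vx f k) :=
  Pool.Agent.Helper96.LU.vx_RT hD h k

/-- Proof. For fixed `x`: `LTG.sl_hasSum`, see `vx_RT`. -/
theorem vt_PS (D n : ℕ) (hD : 1 ≤ D) (f : (ι → ℂ) → ℂ) (h : RT D n f) (x : ι ⊕ ι → ℂ) :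
    ∃ c : (ι → ℕ) → ℂ, PS c (vt f x) := by
  obtain ⟨φ, hφ⟩ := RT.ps h
  exact ⟨_, (Pool.Agent.Helper96.LU.ps_shift hφ (fun u => x (Sum.inl u))).mul
    (Pool.Agent.Helper96.LU.ps_exp (fun u => x (Sum.inr u)))⟩

end

end Pool.Agent.Helper93.LX
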