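import Pool.Agent.Helper93.LX.Va

/-!
PROJECT LT2, block V, file Vb: quasi-periodicity and growth of the vector part.
-/

namespace Pool.Agent.Helper93.LX

open Pool.Agent.Helper34.LT (RT)
open Pool.Agent.Helper34.LU (cof vx cof_of_PS cof_bound cof_smul)
open Pool.Agent.Helper13.LT (PS)

noncomputable section

variable {ι : Type} [Fintype ι]

/-- Proof. `vx_RT` and `PS.diff` (`RT` is the special case `c m = A m / (D^(|m| + n) m!)` of `PS`). -/
theorem vx_diff (D n : ℕ) (hD : 1 ≤ D) (f : (ι → ℂ) → ℂ) (h : RT D n f) (k : ι → ℕ) :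
    Differentiable ℂ (vx f k) := by
  obtain ⟨c, hc⟩ := RT.ps (vx_RT D n hD f h k)
  exact PS.diff hc

/-- Proof. For `x' = x + Sum.elim γ a` and every `t`: `vt f x' t = exp (∑ a_u x_l u + c) * vt f x t`,
because `f(x_l + t + γ) = exp (∑ a_u (x_l u + t_u) + c) f(x_l + t)` and
`exp (-∑ t_u (x_r u + a_u)) = exp (-∑ t_u x_r u) exp (-∑ t_u a_u)`. So `cof` is
multiplied by the constant: `vt_PS`, `cof_smul`. -/
theorem vx_qp (D n : ℕ) (hD : 1 ≤ D) (f : (ι → ℂ) → ℂ) (h : RT D n f) (γ a : ι → ℂ) (c : ℂ)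
    (hγ : ∀ z, f (z + γ) = Complex.exp (∑ u, a u * z u + c) * f z)
    (k : ι → ℕ) (x : ι ⊕ ι → ℂ) :
    vx f k (x + Sum.elim γ a) = Complex.exp (∑ u, a u * x (Sum.inl u) + c) * vx f k x := by
  have h1 : vt f (x + Sum.elim γ a) =
      fun t => Complex.exp (∑ u, a u * x (Sum.inl u) + c) * vt f x t := by
    funext t
    unfold vt
    have h2 : (fun u => (x + Sum.elim γ a) (Sum.inl u) + t u) =
        (fun u => x (Sum.inl u) + t u) + γ := by
      funext u
      simp only [Pi.add_apply, Sum.elim_inl]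
      ring
    have h3 : Complex.exp (∑ u, a u * (x (Sum.inl u) + t u) + c) *
        Complex.exp (-∑ u, t u * (x + Sum.elim γ a) (Sum.inr u)) =
        Complex.exp (∑ u, a u * x (Sum.inl u) + c) *
          Complex.exp (-∑ u, t u * x (Sum.inr u)) := by
      rw [← Complex.exp_add, ← Complex.exp_add]
      congr 1
      simp only [Pi.add_apply, Sum.elim_inr, mul_add, Finset.sum_add_distrib]
      have h4 : ∑ u, a u * t u = ∑ u, t u * a u := Finset.sum_congr rfl fun u _ => mul_comm _ _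
      rw [h4]
      ring
    rw [h2, hγ, mul_right_comm, h3]
    ring
  rw [vx_eq, vx_eq, h1, cof_smul (vt_PS D n hD f h x)]
  ring

private theorem Vb_sum (t y : ι → ℂ) (b : ℝ) (h : ∀ u, ‖t u * y u‖ ≤ b) :
    ‖∑ u, t u * y u‖ ≤ Fintype.card ι * b := by
  refine (norm_sum_le _ _).trans ?_
  refine (Finset.sum_le_sum fun u _ => h u).trans ?_
  rw [Finset.sum_const, nsmul_eq_mul, Finset.card_univ]

/-- Proof. `cof_bound` with `R = 1`: for `‖t‖ ≤ 1`, `‖f (x_l + t)‖ ≤ exp (|C| (1 + (‖x‖ + 1)^2))` and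
`‖exp (-∑ t_u x_r u)‖ ≤ exp (card ι * ‖x‖)`; `(1 + ‖x‖)^2 ≤ 2 + 2 ‖x‖^2`, `‖x‖ ≤ 1 + ‖x‖^2`;
`C' = 3 |C| + card ι`. -/
theorem vx_growth (C : ℝ) : ∃ C' : ℝ, 0 ≤ C' ∧ ∀ (D n : ℕ), 1 ≤ D → ∀ (f : (ι → ℂ) → ℂ), RT D n f →
    (∀ z, ‖f z‖ ≤ Real.exp (C * (1 + ‖z‖ ^ 2))) → ∀ (k : ι → ℕ) (x : ι ⊕ ι → ℂ),
      ‖vx f k x‖ ≤ (∏ u, ((k u).factorial : ℝ)) * Real.exp (C' * (1 + ‖x‖ ^ 2)) := by
  refine ⟨3 * |C| + Fintype.card ι, by positivity, fun D n hD f h hf k x => ?_⟩
  have hc : ‖cof (vt f x) k‖ ≤ Real.exp ((3 * |C| + Fintype.card ι) * (1 + ‖x‖ ^ 2)) := by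
    have h1 := cof_bound (vt_PS D n hD f h x) zero_le_one
      (B := Real.exp ((3 * |C| + Fintype.card ι) * (1 + ‖x‖ ^ 2))) (fun t ht => ?_) k
    · rwa [one_pow, mul_one] at h1
    · unfold vt
      rw [norm_mul]
      have h2 : ‖(fun u => x (Sum.inl u) + t u)‖ ≤ ‖x‖ + 1 := by
        rw [pi_norm_le_iff_of_nonneg (by positivity)]
        intro u
        exact (norm_add_le _ _).trans (add_le_add (norm_le_pi_norm x _)
          ((norm_le_pi_norm t u).trans ht))
      have h3 := hf (fun u => x (Sum.inl u) + t u)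
      have h4 : ‖Complex.exp (-∑ u, t u * x (Sum.inr u))‖ ≤ Real.exp (Fintype.card ι * ‖x‖) := by
        rw [Complex.norm_exp]
        refine Real.exp_le_exp.2 ((Complex.re_le_norm _).trans ?_)
        rw [norm_neg]
        exact Vb_sum t (fun u => x (Sum.inr u)) _ fun u => by
          rw [norm_mul]
          have h5 : ‖t u‖ * ‖x (Sum.inr u)‖ ≤ 1 * ‖x‖ :=
            mul_le_mul ((norm_le_pi_norm t u).trans ht) (norm_le_pi_norm x _) (norm_nonneg _)
              zero_le_one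
          rwa [one_mul] at h5
      refine (mul_le_mul h3 h4 (norm_nonneg _) (Real.exp_pos _).le).trans ?_
      rw [← Real.exp_add]
      refine Real.exp_le_exp.2 ?_
      have h6 : ‖(fun u => x (Sum.inl u) + t u)‖ ^ 2 ≤ (‖x‖ + 1) ^ 2 :=
        pow_le_pow_left₀ (norm_nonneg _) h2 2
      have h7 : C * (1 + ‖(fun u => x (Sum.inl u) + t u)‖ ^ 2) ≤ |C| * (3 * (1 + ‖x‖ ^ 2)) := by
        refine (mul_le_mul_of_nonneg_right (le_abs_self C) (by positivity)).trans ?_
        refine mul_le_mul_of_nonneg_left ?_ (abs_nonneg C)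
        nlinarith [sq_nonneg (‖x‖ - 1), sq_nonneg ‖x‖]
      have h8 : (Fintype.card ι : ℝ) * ‖x‖ ≤ Fintype.card ι * (1 + ‖x‖ ^ 2) := by
        refine mul_le_mul_of_nonneg_left ?_ (Nat.cast_nonneg _)
        nlinarith [sq_nonneg (‖x‖ - 1), norm_nonneg x]
      nlinarith
  rw [vx_eq, norm_mul]
  have h9 : ‖(∏ u, ((k u).factorial : ℂ))‖ = ∏ u, ((k u).factorial : ℝ) := by
    rw [norm_prod]
    exact Finset.prod_congr rfl fun u _ => by rw [Complex.norm_natCast]
  rw [h9]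
  exact mul_le_mul_of_nonneg_left hc (Finset.prod_nonneg fun u _ => Nat.cast_nonneg _)

/-- Polynomial growth in one vertical variable `x (inr v) = y`, the others bounded.
Proof. `ρ = 1 / (1 + ‖y‖) ≤ 1`. Let `c` be the expansion of `vt f x'` (`x' = Function.update x (inr v) y`); by `PS.scale`
with `y_v = ρ`, `y_u = 1` (`u ≠ v`), the function `t ↦ vt f x' (t with t_v replaced by ρ t_v)` has the expansion
`c m ρ^(m v)`, and `cof_bound`/`PS.bound` with `R = 1` gives `‖cof‖ ρ^(k v) ≤ sup_{‖t‖ ≤ 1} ‖f (x_l + t')‖ *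
exp (∑_{u ≠ v} ‖x_r u‖ + ρ ‖y‖) ≤ M exp (card ι * R + 1)` (`M` = bound of the continuous function `f` on
`‖z‖ ≤ R + 1`). -/
theorem vx_poly_growth [DecidableEq ι] (D n : ℕ) (hD : 1 ≤ D) (f : (ι → ℂ) → ℂ) (h : RT D n f)
    (k : ι → ℕ) (v : ι) (R : ℝ) :
    ∃ B : ℝ, 0 ≤ B ∧ ∀ (x : ι ⊕ ι → ℂ) (y : ℂ), ‖x‖ ≤ R →
      ‖vx f k (Function.update x (Sum.inr v) y)‖ ≤ B * (1 + ‖y‖) ^ (k v) := by
  obtain ⟨cf, hcf⟩ := RT.ps h
  have hf : Continuous f := (PS.diff hcf).continuous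
  obtain ⟨M, hM⟩ := (isCompact_closedBall (0 : ι → ℂ) (|R| + 1)).exists_bound_of_continuousOn
    hf.continuousOn
  have hM0 : 0 ≤ M := (norm_nonneg _).trans (hM 0 (by
    rw [Metric.mem_closedBall, dist_self]
    positivity))
  refine ⟨(∏ u, ((k u).factorial : ℝ)) * (M * Real.exp (Fintype.card ι * |R| + 1)),
    by positivity, fun x y hx => ?_⟩
  set x' := Function.update x (Sum.inr v) y with hx'
  obtain ⟨c, hc⟩ := vt_PS D n hD f h x'
  set ρ : ℝ := (1 + ‖y‖)⁻¹ with hρ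
  have hy0 : 0 < 1 + ‖y‖ := by positivity
  have hρ0 : 0 < ρ := inv_pos.2 hy0
  have hρ1 : ρ ≤ 1 := inv_le_one_of_one_le₀ (by linarith [norm_nonneg y])
  have hρy : ρ * ‖y‖ ≤ 1 := by
    rw [hρ, inv_mul_le_iff₀ hy0]
    linarith
  set s : ι → ℂ := Function.update (fun _ => (1 : ℂ)) v (ρ : ℂ) with hs
  have hsv : s v = (ρ : ℂ) := Function.update_self _ _ _
  have hsu : ∀ u, u ≠ v → s u = 1 := fun u hu => Function.update_of_ne hu _ _
  have hs1 : ∀ u, ‖s u‖ ≤ 1 := fun u => by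
    by_cases hu : u = v
    · rw [hu, hsv, Complex.norm_real, Real.norm_of_nonneg hρ0.le]
      exact hρ1
    · rw [hsu u hu, norm_one]
  have hb := PS.bound (PS.scale hc s) zero_le_one
    (B := M * Real.exp (Fintype.card ι * |R| + 1)) (fun t ht => ?_) k
  · rw [one_pow, mul_one, norm_mul] at hb
    have hp : ‖∏ u, s u ^ k u‖ = ρ ^ k v := by
      rw [Finset.prod_eq_single v (fun u _ hu => by rw [hsu u hu, one_pow])
        (fun hv => absurd (Finset.mem_univ v) hv), hsv, norm_pow, Complex.norm_real,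
        Real.norm_of_nonneg hρ0.le]
    rw [hp] at hb
    have hck : ‖c k‖ ≤ M * Real.exp (Fintype.card ι * |R| + 1) * (1 + ‖y‖) ^ k v := by
      have h1 : ρ ^ k v * (1 + ‖y‖) ^ k v = 1 := by
        rw [← mul_pow, hρ, inv_mul_cancel₀ hy0.ne', one_pow]
      calc ‖c k‖ = ‖c k‖ * ρ ^ k v * (1 + ‖y‖) ^ k v := by rw [mul_assoc, h1, mul_one]
        _ ≤ _ := mul_le_mul_of_nonneg_right hb (by positivity)
    rw [vx_eq, cof_of_PS hc, norm_mul]
    have h9 : ‖(∏ u, ((k u).factorial : ℂ))‖ = ∏ u, ((k u).factorial : ℝ) := by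
      rw [norm_prod]
      exact Finset.prod_congr rfl fun u _ => by rw [Complex.norm_natCast]
    rw [h9, mul_assoc]
    exact mul_le_mul_of_nonneg_left hck (Finset.prod_nonneg fun u _ => Nat.cast_nonneg _)
  · unfold vt
    rw [norm_mul]
    have ht' : ∀ u, ‖s u * t u‖ ≤ 1 := fun u => by
      rw [norm_mul]
      exact mul_le_one₀ (hs1 u) (norm_nonneg _) ((norm_le_pi_norm t u).trans ht)
    have hxR : ∀ i, ‖x i‖ ≤ |R| := fun i => (norm_le_pi_norm x i).trans (hx.trans (le_abs_self R))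
    refine mul_le_mul (hM _ ?_) ?_ (norm_nonneg _) hM0
    · rw [mem_closedBall_zero_iff, pi_norm_le_iff_of_nonneg (by positivity)]
      intro u
      rw [hx', Function.update_of_ne (by simp)]
      exact (norm_add_le _ _).trans (add_le_add (hxR _) (ht' u))
    · rw [Complex.norm_exp]
      refine Real.exp_le_exp.2 ((Complex.re_le_norm _).trans ?_)
      rw [norm_neg]
      refine (norm_sum_le _ _).trans ?_
      have h5 : ∀ u ∈ (Finset.univ : Finset ι), ‖s u * t u * x' (Sum.inr u)‖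
          ≤ |R| + (if u = v then 1 else 0) := fun u _ => by
        by_cases hu : u = v
        · rw [if_pos hu, hu, hsv, hx', Function.update_self, norm_mul, norm_mul,
            Complex.norm_real, Real.norm_of_nonneg hρ0.le]
          have h6 : ρ * ‖t v‖ * ‖y‖ ≤ 1 := by
            have h7 : ‖t v‖ ≤ 1 := (norm_le_pi_norm t v).trans ht
            calc ρ * ‖t v‖ * ‖y‖ = (ρ * ‖y‖) * ‖t v‖ := by ring
              _ ≤ 1 * 1 := mul_le_mul hρy h7 (norm_nonneg _) zero_le_one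
              _ = 1 := one_mul 1
          linarith [abs_nonneg R]
        · rw [if_neg hu, add_zero, norm_mul, hx',
            Function.update_of_ne (fun h => hu (Sum.inr_injective h))]
          calc ‖s u * t u‖ * ‖x (Sum.inr u)‖ ≤ 1 * |R| :=
                mul_le_mul (ht' u) (hxR _) (norm_nonneg _) zero_le_one
            _ = |R| := one_mul _
      refine (Finset.sum_le_sum h5).trans ?_
      rw [Finset.sum_add_distrib, Finset.sum_const, nsmul_eq_mul, Finset.card_univ,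
        Finset.sum_ite_eq' Finset.univ v, if_pos (Finset.mem_univ v)]

end

end Pool.Agent.Helper93.LX
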