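import Pool.Agent.Helper93.LX.Vb

/-!
PROJECT LT2, block V, file Vc: polynomial dependence on `w`, linear independence.
-/

namespace Pool.Agent.Helper93.LX

open Pool.Agent.Helper34.LT (RT)
open Pool.Agent.Helper34.LU (cof vx cof_of_PS cof_bound cof_smul)
open Pool.Agent.Helper13.LT (PS)

noncomputable section

variable {ι : Type} [Fintype ι]

open Filter Topology in
/-- expansion of `exp (∑ z_u)` -/
private theorem Vc_exp :
    PS (ι := ι) (fun m => ∏ u, ((m u).factorial : ℂ)⁻¹) (fun z => Complex.exp (∑ u, z u)) := by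
  classical
  intro z
  have hterm : (fun m : ι → ℕ => (∏ u, ((m u).factorial : ℂ)⁻¹) * ∏ u, z u ^ m u) =
      fun m : ι → ℕ => ∏ u, (z u ^ m u / ((m u).factorial : ℂ)) := by
    funext m
    rw [← Finset.prod_mul_distrib]
    refine Finset.prod_congr rfl fun u _ => ?_
    rw [div_eq_mul_inv, mul_comm]
  rw [hterm]
  have hs : Summable fun m : ι → ℕ => ∏ u, (z u ^ m u / ((m u).factorial : ℂ)) := by
    refine Summable.of_norm ?_
    refine summable_of_sum_le (c := ∏ u, Real.exp ‖z u‖) (fun m => norm_nonneg _) ?_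
    intro s
    set N : ℕ := (s.sup fun m => Finset.univ.sup m) + 1 with hN
    have hs : s ⊆ Fintype.piFinset (fun _ : ι => Finset.range N) := by
      intro m hm
      rw [Fintype.mem_piFinset]
      intro u
      rw [Finset.mem_range, hN, Nat.lt_succ_iff]
      have h2 : m u ≤ Finset.univ.sup m := Finset.le_sup (f := m) (Finset.mem_univ u)
      have h3 : Finset.univ.sup m ≤ s.sup fun m => Finset.univ.sup m :=
        Finset.le_sup (f := fun m : ι → ℕ => Finset.univ.sup m) hm
      exact h2.trans h3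
    calc ∑ m ∈ s, ‖∏ u, (z u ^ m u / ((m u).factorial : ℂ))‖
        ≤ ∑ m ∈ Fintype.piFinset (fun _ : ι => Finset.range N),
            ‖∏ u, (z u ^ m u / ((m u).factorial : ℂ))‖ :=
          Finset.sum_le_sum_of_subset_of_nonneg hs (fun m _ _ => norm_nonneg _)
      _ = ∑ m ∈ Fintype.piFinset (fun _ : ι => Finset.range N),
            ∏ u, (‖z u‖ ^ m u / ((m u).factorial : ℝ)) := by
          refine Finset.sum_congr rfl fun m _ => ?_
          rw [norm_prod]
          refine Finset.prod_congr rfl fun u _ => ?_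
          rw [norm_div, norm_pow, Complex.norm_natCast]
      _ = ∏ u : ι, ∑ n ∈ Finset.range N, ‖z u‖ ^ n / (n.factorial : ℝ) := by
          rw [Finset.prod_univ_sum]
      _ ≤ ∏ u : ι, Real.exp ‖z u‖ := by
          refine Finset.prod_le_prod (fun u _ => Finset.sum_nonneg fun n _ => by positivity)
            fun u _ => ?_
          exact Real.sum_le_exp_of_nonneg (norm_nonneg _) N
  have ht : Tendsto (fun N : ℕ => Fintype.piFinset (fun _ : ι => Finset.range N)) atTop atTop := by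
    refine tendsto_atTop_finset_of_monotone ?_ ?_
    · intro a b hab
      exact Fintype.piFinset_subset _ _ fun _ => Finset.range_mono hab
    · intro m
      refine ⟨Finset.univ.sup m + 1, ?_⟩
      rw [Fintype.mem_piFinset]
      intro u
      rw [Finset.mem_range, Nat.lt_succ_iff]
      exact Finset.le_sup (f := m) (Finset.mem_univ u)
  have h1 : Tendsto (fun N : ℕ => ∑ m ∈ Fintype.piFinset (fun _ : ι => Finset.range N),
      ∏ u, (z u ^ m u / ((m u).factorial : ℂ))) atTop
      (𝓝 (∑' m : ι → ℕ, ∏ u, (z u ^ m u / ((m u).factorial : ℂ)))) := by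
    have h0 : Tendsto (fun s : Finset (ι → ℕ) =>
        ∑ m ∈ s, ∏ u, (z u ^ m u / ((m u).factorial : ℂ))) atTop
        (𝓝 (∑' m : ι → ℕ, ∏ u, (z u ^ m u / ((m u).factorial : ℂ)))) := by
      simpa only [HasSum, SummationFilter.unconditional_filter] using hs.hasSum
    exact h0.comp ht
  have h2 : Tendsto (fun N : ℕ => ∑ m ∈ Fintype.piFinset (fun _ : ι => Finset.range N),
      ∏ u, (z u ^ m u / ((m u).factorial : ℂ))) atTop (𝓝 (∏ u, Complex.exp (z u))) := by
    have h3 : (fun N : ℕ => ∑ m ∈ Fintype.piFinset (fun _ : ι => Finset.range N),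
        ∏ u, (z u ^ m u / ((m u).factorial : ℂ))) =
        fun N : ℕ => ∏ u : ι, ∑ n ∈ Finset.range N, z u ^ n / (n.factorial : ℂ) := by
      funext N
      rw [Finset.prod_univ_sum]
    rw [h3]
    refine tendsto_finset_prod _ fun u _ => ?_
    have h4 : HasSum (fun n : ℕ => z u ^ n / (n.factorial : ℂ)) (Complex.exp (z u)) := by
      rw [Complex.exp_eq_exp_ℂ]
      exact NormedSpace.expSeries_div_hasSum_exp (z u)
    exact h4.tendsto_sum_nat
  have h5 := tendsto_nhds_unique h1 h2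
  have h6 := hs.hasSum
  rw [h5, ← Complex.exp_sum] at h6
  exact h6

/-- expansion of `exp (-∑ t_u w_u)` -/
private theorem Vc_expw (w : ι → ℂ) :
    PS (fun m => (∏ u, ((m u).factorial : ℂ)⁻¹) * ∏ u, (-w u) ^ m u)
      (fun t => Complex.exp (-∑ u, t u * w u)) := by
  have h1 := Pool.Agent.Helper13.LT.PS.scale (Vc_exp (ι := ι)) (fun u => -w u)
  have h2 : (fun t : ι → ℂ => Complex.exp (∑ u, -w u * t u)) =
      fun t : ι → ℂ => Complex.exp (-∑ u, t u * w u) := by
    funext t
    congr 1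
    rw [← Finset.sum_neg_distrib]
    refine Finset.sum_congr rfl fun u _ => ?_
    ring
  rw [← h2]
  exact h1

/-- constant coefficient -/
private theorem Vc_zero {c : (ι → ℕ) → ℂ} {f : (ι → ℂ) → ℂ} (h : PS c f) : c 0 = f 0 := by
  have h1 := h 0
  have h2 : HasSum (fun m : ι → ℕ => c m * ∏ u, (0 : ι → ℂ) u ^ m u)
      (c 0 * ∏ u, (0 : ι → ℂ) u ^ (0 : ι → ℕ) u) := by
    refine hasSum_single 0 fun m hm => ?_
    obtain ⟨u, hu⟩ := Function.ne_iff.1 hm
    rw [Finset.prod_eq_zero (Finset.mem_univ u), mul_zero]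
    rw [Pi.zero_apply, zero_pow hu]
  have h3 := h2.unique h1
  simpa using h3

/-- Proof. `x = Sum.elim z w`, `vt f x t = f(z + t) exp (-∑ t_u w_u)`; `f(z + ·)` has an expansion `a`
(`vt_PS` at `(z, 0)`; `a 0 = f z`, the value at `t = 0`), `exp (-∑ t_u w_u)` has the expansion
`(-1)^|j| w^j / j!` (slices of `RT_expb` with `D = 1`, or one variable at a time), so by `PS.mul` (`cv`,
`adg`) `vx f k (z, w) = k! ∑_{i + j = k} a_i (-1)^|j| w^j / j!`: the polynomial
`P = ∑_{(i,j) ∈ adg k} C (k! a_i (-1)^|j| / j!) * monomial j 1`; its coefficient at `k` comes from `i = 0`, `j = k`. -/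
theorem vx_poly (D n : ℕ) (hD : 1 ≤ D) (f : (ι → ℂ) → ℂ) (h : RT D n f) (k : ι → ℕ) (z : ι → ℂ) :
    ∃ P : MvPolynomial ι ℂ, P.totalDegree ≤ ∑ u, k u ∧
      (∀ m : ι →₀ ℕ, P.coeff m ≠ 0 → ∀ u, m u ≤ k u) ∧
      P.coeff (Finsupp.equivFunOnFinite.symm k) = (-1) ^ (∑ u, k u) * f z ∧
      ∀ w : ι → ℂ, vx f k (Sum.elim z w) = MvPolynomial.eval w P := by
  classical
  obtain ⟨a, ha⟩ := vt_PS D n hD f h (Sum.elim z 0)
  have hf : vt f (Sum.elim z 0) = fun t : ι → ℂ => f (fun u => z u + t u) := by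
    funext t
    simp [vt]
  rw [hf] at ha
  have ha0 : a 0 = f z := by
    rw [Vc_zero ha]
    congr 1
    funext u
    simp
  set Q : (ι → ℕ) × (ι → ℕ) → ℂ := fun p => (∏ u, ((k u).factorial : ℂ)) *
    (a p.1 * ((∏ u, ((p.2 u).factorial : ℂ)⁻¹) * (-1) ^ (∑ u, p.2 u))) with hQ
  set P : MvPolynomial ι ℂ := ∑ p ∈ Pool.Agent.Helper13.LT.adg k,
    MvPolynomial.monomial (Finsupp.equivFunOnFinite.symm p.2) (Q p) with hP
  have hco : ∀ m : ι →₀ ℕ, P.coeff m ≠ 0 → ∀ u, m u ≤ k u := by
    intro m hm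
    rw [hP, MvPolynomial.coeff_sum] at hm
    obtain ⟨p, hp, hp0⟩ := Finset.exists_ne_zero_of_sum_ne_zero hm
    rw [MvPolynomial.coeff_monomial] at hp0
    split_ifs at hp0 with h1
    · intro u
      rw [← h1, ← Pool.Agent.Helper13.LT.mem_adg.1 hp]
      simp
    · exact absurd rfl hp0
  refine ⟨P, ?_, hco, ?_, ?_⟩
  · rw [MvPolynomial.totalDegree]
    refine Finset.sup_le fun m hm => ?_
    rw [Finsupp.sum_fintype _ _ (fun _ => rfl)]
    exact Finset.sum_le_sum fun u _ => hco m (MvPolynomial.mem_support_iff.1 hm) u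
  · rw [hP, MvPolynomial.coeff_sum, Finset.sum_eq_single ((0, k) : (ι → ℕ) × (ι → ℕ))]
    · rw [MvPolynomial.coeff_monomial, if_pos rfl, hQ]
      simp only
      rw [ha0, Finset.prod_inv_distrib]
      have h1 : (∏ u, ((k u).factorial : ℂ)) ≠ 0 :=
        Finset.prod_ne_zero_iff.2 fun u _ => Nat.cast_ne_zero.2 (Nat.factorial_ne_zero _)
      field_simp
    · intro p hp hne
      rw [MvPolynomial.coeff_monomial, if_neg]
      intro h1
      apply hne
      have h2 : p.2 = k := by
        have := congrArg Finsupp.equivFunOnFinite h1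
        simpa using this
      have h3 := Pool.Agent.Helper13.LT.mem_adg.1 hp
      refine Prod.ext ?_ h2
      rw [h2] at h3
      simpa using h3
    · intro h1
      exact absurd (Pool.Agent.Helper13.LT.mem_adg.2 (by simp)) h1
  · intro w
    have h1 : PS (Pool.Agent.Helper13.LT.cv a
        (fun m => (∏ u, ((m u).factorial : ℂ)⁻¹) * ∏ u, (-w u) ^ m u)) (vt f (Sum.elim z w)) := by
      have h2 := Pool.Agent.Helper13.LT.PS.mul ha (Vc_expw w)
      have h3 : vt f (Sum.elim z w) = fun t : ι → ℂ => f (fun u => z u + t u) *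
          Complex.exp (-∑ u, t u * w u) := by
        funext t
        simp [vt]
      rw [h3]
      exact h2
    rw [vx_eq, cof_of_PS h1, hP, map_sum, Pool.Agent.Helper13.LT.cv, Finset.mul_sum]
    refine Finset.sum_congr rfl fun p _ => ?_
    rw [MvPolynomial.eval_monomial, hQ, Finsupp.prod_fintype _ _ (fun _ => pow_zero _)]
    have h4 : ∏ u, (-w u) ^ p.2 u = (-1) ^ (∑ u, p.2 u) * ∏ u, w u ^ p.2 u := by
      rw [← Finset.prod_pow_eq_pow_sum, ← Finset.prod_mul_distrib]
      refine Finset.prod_congr rfl fun u _ => ?_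
      rw [← mul_pow, neg_one_mul]
    rw [h4]
    simp only [Finsupp.equivFunOnFinite_symm_apply_apply]
    ring

/-- Proof. Let `∑_k p_k vx f k = 0`, not all `p_k = 0`, `k` with `p_k ≠ 0` and `|k|` maximal, `z` with `f z ≠ 0`.
The polynomial `∑ p_k' P_k'` of `vx_poly` at `z` vanishes at all `w`, so it is `0` (`MvPolynomial.funext`);
coefficient at `k`: `p_k (±f z)` plus the contributions of `k' ≠ k` with `P_k'.coeff k ≠ 0`, for these
`k ≤ k'`, `k ≠ k'`, so `|k'| > |k|` and `p_k' = 0`. -/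
theorem vx_indep (D n : ℕ) (hD : 1 ≤ D) (f : (ι → ℂ) → ℂ) (h : RT D n f) (h0 : ∃ z, f z ≠ 0) (L : ℕ) :
    LinearIndependent ℂ (fun k : ι → Fin (L + 1) => vx f (fun u => (k u : ℕ))) := by
  classical
  obtain ⟨z, hz⟩ := h0
  rw [Fintype.linearIndependent_iff]
  intro g hg
  by_contra hcon
  push Not at hcon
  obtain ⟨k0, hk0⟩ := hcon
  obtain ⟨k, hk, hmax⟩ := Finset.exists_max_image
    (Finset.univ.filter fun k : ι → Fin (L + 1) => g k ≠ 0) (fun k => ∑ u, (k u : ℕ))
    ⟨k0, by simp [hk0]⟩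
  rw [Finset.mem_filter] at hk
  choose P hPd hPc hPk hPe using fun k : ι → Fin (L + 1) =>
    vx_poly D n hD f h (fun u => (k u : ℕ)) z
  have h1 : ∑ k', MvPolynomial.C (g k') * P k' = 0 := by
    refine MvPolynomial.funext fun w => ?_
    rw [map_sum, map_zero]
    have h2 := congrFun hg (Sum.elim z w)
    rw [Finset.sum_apply, Pi.zero_apply] at h2
    rw [← h2]
    refine Finset.sum_congr rfl fun k' _ => ?_
    rw [map_mul, MvPolynomial.eval_C, Pi.smul_apply, smul_eq_mul, hPe]
  have h3 := congrArg (MvPolynomial.coeff (Finsupp.equivFunOnFinite.symm fun u => (k u : ℕ))) h1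
  rw [MvPolynomial.coeff_sum, MvPolynomial.coeff_zero, Finset.sum_eq_single k] at h3
  · rw [MvPolynomial.coeff_C_mul, hPk] at h3
    have h4 : ((-1 : ℂ)) ^ (∑ u, (k u : ℕ)) ≠ 0 := pow_ne_zero _ (by norm_num)
    exact mul_ne_zero hk.2 (mul_ne_zero h4 hz) h3
  · intro k' _ hne
    rw [MvPolynomial.coeff_C_mul]
    by_contra h4
    have h5 : g k' ≠ 0 := left_ne_zero_of_mul h4
    have h6 := hPc k' _ (right_ne_zero_of_mul h4)
    simp only [Finsupp.equivFunOnFinite_symm_apply_apply] at h6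
    have h7 := hmax k' (by simp [h5])
    obtain ⟨u, hu⟩ := Function.ne_iff.1 hne
    have h8 : ∑ u, (k u : ℕ) < ∑ u, (k' u : ℕ) := by
      refine Finset.sum_lt_sum (fun u _ => h6 u) ⟨u, Finset.mem_univ u, ?_⟩
      refine lt_of_le_of_ne (h6 u) fun h9 => hu ?_
      exact Fin.ext h9.symm
    omega
  · intro h4
    exact absurd (Finset.mem_univ k) h4

/-- Proof. Elementary: if `∑_{i,j} p_ij f_i(x) g_j(y) = 0` for all `x`, `y`, then for fixed `x` the independence
of the `g_j` gives `∑_i p_ij f_i(x) = 0` for all `j`, `x`, then the independence of the `f_i` gives `p = 0`. -/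
theorem prod_indep {α β I J : Type} [Fintype I] [Fintype J] (f : I → α → ℂ) (g : J → β → ℂ)
    (hf : LinearIndependent ℂ f) (hg : LinearIndependent ℂ g) :
    LinearIndependent ℂ (fun (k : I × J) (x : α × β) => f k.1 x.1 * g k.2 x.2) := by
  rw [Fintype.linearIndependent_iff] at hf hg ⊢
  intro p hp
  have h1 : ∀ (j : J) (x : α), ∑ i, p (i, j) * f i x = 0 := by
    intro j x
    refine hg (fun j => ∑ i, p (i, j) * f i x) ?_ j
    funext y
    have h2 := congrFun hp (x, y)
    rw [Finset.sum_apply, Pi.zero_apply] at h2 ⊢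
    rw [← h2, Fintype.sum_prod_type_right]
    refine Finset.sum_congr rfl fun j _ => ?_
    rw [Pi.smul_apply, smul_eq_mul, Finset.sum_mul]
    refine Finset.sum_congr rfl fun i _ => ?_
    rw [Pi.smul_apply, smul_eq_mul, mul_assoc]
  rintro ⟨i, j⟩
  refine hf (fun i => p (i, j)) ?_ i
  funext x
  rw [Finset.sum_apply, Pi.zero_apply, ← h1 j x]
  refine Finset.sum_congr rfl fun i _ => ?_
  rw [Pi.smul_apply, smul_eq_mul]

end

end Pool.Agent.Helper93.LX
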