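import Pool.Agent.Helper53.LT.Bx

/-!
PROJECT LT2 (MP_274814_nt), block X (box principle for `e` copies with polynomial variables),
captain helper93.  File Xa: polynomial growth in one variable.
-/

namespace Pool.Agent.Helper93.LX

open Pool.Agent.Helper53.LT

noncomputable section

variable {ι η : Type} [Fintype ι] [Fintype η]

/-- `h` grows at most like `|y_k|^D` in the variable `k`, locally uniformly in the others -/
def PolyIn [DecidableEq η] (k : η) (D : ℕ) (h : (η → ℂ) → ℂ) : Prop :=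
  ∀ R : ℝ, ∃ B : ℝ, ∀ (y : η → ℂ) (t : ℂ), ‖y‖ ≤ R →
    ‖h (Function.update y k t)‖ ≤ B * (1 + ‖t‖) ^ D

/-- Proof. As `tc_neg` (Helper53/LT/Bt.lean) with the other sign: `fc_decay` for the function
`u ↦ h ((R exp (2 pi i u_j))_j)` (`tc_diff`) with `w = Pi.single k (-(I T))`, `T ≥ 0`. At `rv x + w` the
argument of `h` is `Function.update y k t`, `y_j = R exp (2 pi i x_j)` (`‖y‖ ≤ R`),
`t = R exp (2 pi i x_k) exp (2 pi T)`, so by `PolyIn` the value is
`≤ B (1 + R exp (2 pi T))^D ≤ |B| (1 + R)^D exp (2 pi T D)`; `‖ev n w‖ = exp (2 pi n_k T)` (`norm_ev`).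
With `n_k ≥ D + 1`: `‖tc h R n‖ exp (2 pi T) ≤ |B| (1 + R)^D` for all `T ≥ 0`; let `T → ∞`
(`T ≤ exp (2 pi T)`, conclude as at the end of `tc_neg`). -/
theorem tc_poly [DecidableEq η] (h : (η → ℂ) → ℂ) (hh : Differentiable ℂ h) (R : ℝ) (hR : 0 ≤ R)
    (n : η → ℤ) (k : η) (D : ℕ) (hp : PolyIn k D h) (hn : (D : ℤ) < n k) : tc h R n = 0 := by
  obtain ⟨B, hB⟩ := hp R
  obtain ⟨hd, hper⟩ := tc_diff h hh R
  obtain ⟨M, hM⟩ : ∃ M : ℝ, M = |B| * (1 + R) ^ D := ⟨_, rfl⟩
  have key : ∀ T : ℝ, 0 ≤ T → ‖tc h R n‖ * T ≤ M := by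
    intro T hT
    obtain ⟨E, hE⟩ : ∃ E : ℝ, E = Real.exp (2 * Real.pi * T) := ⟨_, rfl⟩
    have hpi := Real.pi_gt_three
    have hT2 : 0 ≤ 2 * Real.pi * T := by positivity
    have hE1 : 1 ≤ E := by rw [hE]; exact Real.one_le_exp hT2
    have hE0 : 0 < E := by linarith
    have hbound : ∀ x : η → ℝ, ‖h (fun j => (R : ℂ) * Complex.exp (2 * Real.pi * Complex.I *
        (rv x + (Pi.single k (-(Complex.I * (T : ℂ))) : η → ℂ)) j))‖ ≤ M * E ^ D := by
      intro x
      obtain ⟨y, hy⟩ : ∃ y : η → ℂ, y = fun j =>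
        (R : ℂ) * Complex.exp (2 * Real.pi * Complex.I * rv x j) := ⟨_, rfl⟩
      obtain ⟨t, ht⟩ : ∃ t : ℂ, t = (R : ℂ) * Complex.exp (2 * Real.pi * Complex.I *
        (rv x k + -(Complex.I * (T : ℂ)))) := ⟨_, rfl⟩
      have h1 : (fun j => (R : ℂ) * Complex.exp (2 * Real.pi * Complex.I *
          (rv x + (Pi.single k (-(Complex.I * (T : ℂ))) : η → ℂ)) j)) = Function.update y k t := by
        funext j
        by_cases hj : j = k
        · subst hj
          rw [Function.update_self, ht, Pi.add_apply, Pi.single_eq_same]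
        · rw [Function.update_of_ne hj, hy, Pi.add_apply, Pi.single_eq_of_ne hj, add_zero]
      have h2 : ‖y‖ ≤ R := by
        refine (pi_norm_le_iff_of_nonneg hR).2 fun j => ?_
        rw [hy, norm_mul, Complex.norm_real, Real.norm_eq_abs, abs_of_nonneg hR, Complex.norm_exp]
        have h3 : (2 * Real.pi * Complex.I * rv x j).re = 0 := by
          simp [Complex.mul_re, Complex.mul_im, rv]
        rw [h3, Real.exp_zero, mul_one]
      have h4 : ‖t‖ = R * E := by
        rw [ht, norm_mul, Complex.norm_real, Real.norm_eq_abs, abs_of_nonneg hR,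
          Complex.norm_exp, hE]
        have h3 : (2 * Real.pi * Complex.I * (rv x k + -(Complex.I * (T : ℂ)))).re =
            2 * Real.pi * T := by
          simp [Complex.mul_re, Complex.mul_im, rv]
        rw [h3]
      rw [h1]
      refine (hB y t h2).trans ?_
      rw [h4, hM, mul_assoc, ← mul_pow]
      refine mul_le_mul (le_abs_self B) ?_ (by positivity) (abs_nonneg B)
      refine pow_le_pow_left₀ (by positivity) ?_ D
      nlinarith
    have h1 := fc_decay _ hd hper n (Pi.single k (-(Complex.I * (T : ℂ)))) (M * E ^ D) hbound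
    rw [norm_ev] at h1
    have h3 : ∑ i, (n i : ℝ) * ((Pi.single k (-(Complex.I * (T : ℂ))) : η → ℂ) i).im =
        -((n k : ℝ) * T) := by
      rw [Finset.sum_eq_single k]
      · rw [Pi.single_eq_same]
        simp
      · intro j _ hj
        rw [Pi.single_eq_of_ne hj]
        simp
      · intro hk
        exact absurd (Finset.mem_univ k) hk
    rw [h3] at h1
    have h4 : (D : ℝ) + 1 ≤ (n k : ℝ) := by
      have : (D : ℤ) + 1 ≤ n k := by omega
      exact_mod_cast this
    have h5 : E ^ D * E ≤ Real.exp (-(2 * Real.pi * -((n k : ℝ) * T))) := by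
      rw [hE, ← Real.exp_nat_mul, ← Real.exp_add]
      apply Real.exp_le_exp.2
      have h6 := mul_le_mul_of_nonneg_right h4 hT2
      nlinarith
    have h6 : ‖tc h R n‖ * (E ^ D * E) ≤ M * E ^ D :=
      (mul_le_mul_of_nonneg_left h5 (norm_nonneg _)).trans h1
    have h7 : ‖tc h R n‖ * E ≤ M := by
      have h8 : E ^ D * (‖tc h R n‖ * E) ≤ E ^ D * M := by linarith
      exact le_of_mul_le_mul_left h8 (by positivity)
    have h8 : T ≤ E := by
      have h9 := Real.add_one_le_exp (2 * Real.pi * T)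
      rw [← hE] at h9
      nlinarith
    exact (mul_le_mul_of_nonneg_left h8 (norm_nonneg _)).trans h7
  by_contra hne
  have hpos : 0 < ‖tc h R n‖ := norm_pos_iff.2 hne
  have hM0 : 0 ≤ M := by
    have := key 0 le_rfl
    rwa [mul_zero] at this
  have h9 := key (M / ‖tc h R n‖ + 1) (by positivity)
  rw [mul_add, mul_div_cancel₀ _ hpos.ne'] at h9
  linarith

end

end Pool.Agent.Helper93.LX
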