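import Pool.Agent.Helper93.LX.Xa

/-!
PROJECT LT2, block X, file Xb: the box principle, some of the variables polynomial.
-/

namespace Pool.Agent.Helper93.LX

open Pool.Agent.Helper53.LT

noncomputable section

/-- Proof. Copy of the proof of `box` (Helper53/LT/Bx.lean), same constants, with
`P = Q × ((k : η) → Fin (if k ∈ s then D + 1 else J))` in place of `Q × (η → Fin J)`:
`card P = card Q * (D + 1)^(s.card) * J^(card η - s.card)` (`Fintype.card_pi`, `Finset.prod_ite`,
`Finset.prod_const`, filter cards). In the step `hsmall` (the bound of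
`‖tc (fun y => ∑ c_i h_iq y) (4 R) n‖` for `0 ≤ n_k < J`): if `D < n_k` for some `k ∈ s`, then by `tc_sum`
and `tc_poly` (all terms vanish) it is `0`; otherwise `n` comes from an element of `P` and the pigeon
estimate applies. Everything else is unchanged (`V ≥ 1`, so `J ≤ (r + 8) V`, `(r+8)^(..) ≤ (r+8)^r`). -/
theorem boxP (η : Type) [Fintype η] [DecidableEq η] : ∃ C : ℝ, 0 < C ∧ ∀ (s : Finset η) (D : ℕ)
    (I Q : Type) [Fintype I] [Fintype Q]
    [Nonempty Q] (R : ℝ), 0 < R → ∀ h : I → Q → (η → ℂ) → ℂ, (∀ i q, Differentiable ℂ (h i q)) →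
    (∀ i q, ∀ k ∈ s, PolyIn k D (h i q)) →
    ∀ S V : ℝ, 1 ≤ S → S ≤ V → (Fintype.card I : ℝ) ≤ Real.exp V →
    (∀ i q y, ‖y‖ ≤ 4 * R → ‖h i q y‖ ≤ Real.exp V) →
    C * Fintype.card Q * ((D : ℝ) + 1) ^ s.card * V ^ (Fintype.card η - s.card + 1) ≤
      Fintype.card I * S →
    ∃ c : I → ℤ, c ≠ 0 ∧ (∀ i, |(c i : ℝ)| ≤ Real.exp S) ∧
      ∀ q y, ‖y‖ ≤ R → ‖∑ i, (c i : ℂ) * h i q y‖ ≤ Real.exp (-V) := by
  classical
  set r := Fintype.card η with hr
  refine ⟨14 * (r + 2) * (r + 8) ^ r + 1, by positivity, ?_⟩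
  intro s D I Q _ _ _ R hR h hd hpoly S V hS hSV hI hh hC
  have hV : 1 ≤ V := hS.trans hSV
  set W : ℝ := (r + 2) * V with hW
  set J : ℕ := ⌈((r : ℝ) + 7) * V⌉₊ with hJ
  have hr0 : (0 : ℝ) ≤ r := Nat.cast_nonneg _
  have hJ1 : ((r : ℝ) + 7) * V ≤ J := Nat.le_ceil _
  have hJ2 : (J : ℝ) ≤ ((r : ℝ) + 8) * V := by
    have h1 := Nat.ceil_lt_add_one (by positivity : (0 : ℝ) ≤ ((r : ℝ) + 7) * V)
    have h2 : ((r : ℝ) + 8) * V = ((r : ℝ) + 7) * V + V := by ring
    rw [h2]
    linarith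
  have hVW : V ≤ W := by
    rw [hW]
    nlinarith
  let m : η → ℕ := fun k => if k ∈ s then D + 1 else J
  let t : I → Q × ((k : η) → Fin (m k)) → ℂ := fun i p =>
    tc (h i p.1) (4 * R) (fun k => ((p.2 k : ℕ) : ℤ))
  have hsr : s.card ≤ r := Finset.card_le_univ s
  have hcardP : (Fintype.card (Q × ((k : η) → Fin (m k))) : ℝ) =
      Fintype.card Q * (((D : ℝ) + 1) ^ s.card * (J : ℝ) ^ (r - s.card)) := by
    have h1 : Fintype.card ((k : η) → Fin (m k)) = (D + 1) ^ s.card * J ^ (r - s.card) := by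
      rw [Fintype.card_pi]
      simp only [Fintype.card_fin, m]
      rw [Finset.prod_ite, Finset.prod_const, Finset.prod_const]
      have h2 : (Finset.univ.filter fun k => k ∈ s) = s := by
        ext k
        simp
      have h3 : (Finset.univ.filter fun k => k ∉ s) = sᶜ := by
        ext k
        simp
      rw [h2, h3, Finset.card_compl]
    rw [Fintype.card_prod, h1]
    push_cast
    rfl
  have hQ : (0 : ℝ) < Fintype.card Q := by exact_mod_cast Fintype.card_pos
  have hD : (0 : ℝ) < ((D : ℝ) + 1) ^ s.card := by positivity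
  have hc : 14 * W * Fintype.card (Q × ((k : η) → Fin (m k))) < Fintype.card I * S := by
    rw [hcardP]
    refine lt_of_lt_of_le ?_ hC
    have h1 : (J : ℝ) ^ (r - s.card) ≤ ((r : ℝ) + 8) ^ r * V ^ (r - s.card) := by
      calc (J : ℝ) ^ (r - s.card) ≤ (((r : ℝ) + 8) * V) ^ (r - s.card) :=
            pow_le_pow_left₀ (Nat.cast_nonneg _) hJ2 _
        _ = ((r : ℝ) + 8) ^ (r - s.card) * V ^ (r - s.card) := mul_pow _ _ _
        _ ≤ ((r : ℝ) + 8) ^ r * V ^ (r - s.card) := by
            refine mul_le_mul_of_nonneg_right ?_ (by positivity)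
            exact pow_le_pow_right₀ (by linarith) (Nat.sub_le _ _)
    have h2 : 14 * W * (Fintype.card Q * (((D : ℝ) + 1) ^ s.card * (J : ℝ) ^ (r - s.card))) ≤
        14 * W * (Fintype.card Q *
          (((D : ℝ) + 1) ^ s.card * (((r : ℝ) + 8) ^ r * V ^ (r - s.card)))) := by
      refine mul_le_mul_of_nonneg_left (mul_le_mul_of_nonneg_left
        (mul_le_mul_of_nonneg_left h1 hD.le) hQ.le) ?_
      have : 0 ≤ W := by linarith
      positivity
    refine lt_of_le_of_lt h2 ?_
    have h3 : 14 * W * (Fintype.card Q *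
        (((D : ℝ) + 1) ^ s.card * (((r : ℝ) + 8) ^ r * V ^ (r - s.card)))) =
        14 * (r + 2) * (r + 8) ^ r *
          (Fintype.card Q * ((D : ℝ) + 1) ^ s.card * V ^ (r - s.card + 1)) := by
      rw [hW, pow_succ]
      ring
    rw [h3, mul_assoc (14 * ((r : ℝ) + 2) * (r + 8) ^ r + 1),
      mul_assoc (14 * ((r : ℝ) + 2) * (r + 8) ^ r + 1)]
    have h4 : 0 < Fintype.card Q * ((D : ℝ) + 1) ^ s.card * V ^ (r - s.card + 1) :=
      mul_pos (mul_pos hQ hD) (pow_pos (by linarith) _)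
    rw [add_mul, one_mul]
    linarith
  obtain ⟨c, hc0, hc1, hc2⟩ := pigeon t S V W hS hSV hVW hI
    (fun i p => tc_le _ _ (by linarith) _ (fun y hy => hh i p.1 y hy) _) hc
  refine ⟨c, hc0, hc1, fun q y hy => ?_⟩
  have hdiff : Differentiable ℂ (fun y => ∑ i, (c i : ℂ) * h i q y) :=
    Differentiable.fun_sum fun i _ => (hd i q).const_mul _
  have hB : ∀ y, ‖y‖ ≤ 4 * R → ‖∑ i, (c i : ℂ) * h i q y‖ ≤ Real.exp (3 * V) := by
    intro y hy
    calc ‖∑ i, (c i : ℂ) * h i q y‖ ≤ ∑ i, ‖(c i : ℂ) * h i q y‖ := norm_sum_le _ _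
      _ ≤ ∑ _i : I, Real.exp S * Real.exp V := by
        refine Finset.sum_le_sum fun i _ => ?_
        rw [norm_mul, Complex.norm_intCast]
        exact mul_le_mul (hc1 i) (hh i q y hy) (norm_nonneg _) (Real.exp_pos S).le
      _ = (Fintype.card I : ℝ) * (Real.exp S * Real.exp V) := by
        rw [Finset.sum_const, Finset.card_univ, nsmul_eq_mul]
      _ ≤ Real.exp V * (Real.exp V * Real.exp V) := by
        refine mul_le_mul hI (mul_le_mul_of_nonneg_right (Real.exp_le_exp.2 hSV)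
          (Real.exp_pos V).le) (by positivity) (Real.exp_pos V).le
      _ = Real.exp (3 * V) := by
        rw [← Real.exp_add, ← Real.exp_add]
        congr 1
        ring
  have hsmall : ∀ n : η → ℤ, (∀ k, 0 ≤ n k) → (∀ k, n k < J) →
      ‖tc (fun y => ∑ i, (c i : ℂ) * h i q y) (4 * R) n‖ ≤ Real.exp (-W) := by
    intro n hn0 hn1
    have h1 := tc_sum Finset.univ (fun i => (c i : ℂ)) (fun i => h i q) (fun i => hd i q) (4 * R) n
    rw [h1]
    by_cases hbig : ∃ k ∈ s, (D : ℤ) < n k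
    · obtain ⟨k, hk, hnk⟩ := hbig
      have h2 : ∀ i, tc (h i q) (4 * R) n = 0 := fun i =>
        tc_poly (h i q) (hd i q) (4 * R) (by linarith) n k D (hpoly i q k hk) hnk
      simp only [h2, mul_zero, Finset.sum_const_zero, norm_zero]
      exact (Real.exp_pos _).le
    · push Not at hbig
      have hlt : ∀ k, (n k).toNat < m k := by
        intro k
        have h3 := hn0 k
        have h4 := hn1 k
        simp only [m]
        split_ifs with hk
        · have h6 := hbig k hk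
          omega
        · omega
      have h2 := hc2 (q, fun k => ⟨(n k).toNat, hlt k⟩)
      have h5 : (fun k => (((n k).toNat : ℕ) : ℤ)) = n := by
        funext k
        exact Int.toNat_of_nonneg (hn0 k)
      change ‖∑ i, (c i : ℂ) * tc (h i q) (4 * R) (fun k => (((n k).toNat : ℕ) : ℤ))‖ ≤ _ at h2
      rw [h5] at h2
      exact h2
  have key := tc_small (fun y => ∑ i, (c i : ℂ) * h i q y) hdiff (4 * R) (by linarith)
    (Real.exp (3 * V)) (Real.exp (-W)) (Real.exp_pos _).le hB J hsmall y (by linarith)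
  refine key.trans ?_
  have hl2 : Real.log 2 ≤ 1 := by
    have := Real.log_two_lt_d9
    linarith
  have hl3 : 4 ≤ 6 * Real.log 2 := by
    have := Real.log_two_gt_d9
    linarith
  have hl0 : 0 < Real.log 2 := Real.log_pos (by norm_num)
  have e2 : (2 : ℝ) ^ r = Real.exp (r * Real.log 2) := by
    rw [Real.exp_nat_mul, Real.exp_log (by norm_num)]
  have e3 : ((1 : ℝ) / 2) ^ J = Real.exp (-(J * Real.log 2)) := by
    rw [one_div, inv_pow, Real.exp_neg, Real.exp_nat_mul, Real.exp_log (by norm_num)]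
  have e4 : (1 : ℝ) / 2 = Real.exp (-Real.log 2) := by
    rw [Real.exp_neg, Real.exp_log (by norm_num), one_div]
  have f1 : (2 : ℝ) ^ r * Real.exp (-W) ≤ 1 / 2 * Real.exp (-V) := by
    rw [e2, e4, ← Real.exp_add, ← Real.exp_add]
    refine Real.exp_le_exp.2 ?_
    rw [hW]
    have g1 : (r : ℝ) * Real.log 2 ≤ r * V :=
      mul_le_mul_of_nonneg_left (hl2.trans hV) hr0
    have g2 : ((r : ℝ) + 2) * V = r * V + V + V := by ring
    rw [g2]
    linarith
  have f2 : (2 : ℝ) ^ r * (Real.exp (3 * V) * (1 / 2) ^ J) ≤ 1 / 2 * Real.exp (-V) := by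
    rw [e2, e3, e4, ← Real.exp_add, ← Real.exp_add, ← Real.exp_add]
    refine Real.exp_le_exp.2 ?_
    have g1 : ((r : ℝ) + 7) * V * Real.log 2 ≤ J * Real.log 2 :=
      mul_le_mul_of_nonneg_right hJ1 hl0.le
    have g2 : ((r : ℝ) + 7) * V * Real.log 2 =
        r * Real.log 2 * V + Real.log 2 * V + 6 * Real.log 2 * V := by ring
    have g3 : (r : ℝ) * Real.log 2 ≤ r * Real.log 2 * V :=
      le_mul_of_one_le_right (by positivity) hV
    have g4 : Real.log 2 ≤ Real.log 2 * V := le_mul_of_one_le_right hl0.le hV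
    have g5 : 4 * V ≤ 6 * Real.log 2 * V := mul_le_mul_of_nonneg_right hl3 (by linarith)
    linarith
  rw [mul_add]
  linarith

end

end Pool.Agent.Helper93.LX
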