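import Pool.Agent.Helper93.LX.Xb
import Pool.Agent.Helper53.LT.Bp

/-!
PROJECT LT2, block X, file Xc: the box principle for the class `Qp`, some variables polynomial.
-/

namespace Pool.Agent.Helper93.LX

open Pool.Agent.Helper53.LT

noncomputable section

variable {ι η : Type} [Fintype ι] [Fintype η]

/-- Proof. If `F` (continuous, polynomially bounded in `y_k` as below) then
`h y = fc (fun x => F (x, y)) m` satisfies `PolyIn k D h`: `fc_le` with the bound for `‖x‖ ≤ 1`... the real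
points used by `fc` are in `(0, 1]^ι`, but `fc_le` asks for all real `x`: use the periodicity `hper` (every real
`x` is congruent mod `Z^ι` to a point of `[0, 1]^ι`: `F (rv x, y) = F (rv (Int.fract ∘ x), y)`) and the bound
with `max R 1`. -/
theorem fc_poly [DecidableEq η] (F : (ι → ℂ) × (η → ℂ) → ℂ)
    (hper : ∀ (a : ι → ℤ) (x : ι → ℂ) (y : η → ℂ), F (x + co a, y) = F (x, y)) (k : η) (D : ℕ)
    (hF : ∀ R : ℝ, ∃ B : ℝ, ∀ (x : ι → ℂ) (y : η → ℂ) (t : ℂ), ‖x‖ ≤ R → ‖y‖ ≤ R →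
      ‖F (x, Function.update y k t)‖ ≤ B * (1 + ‖t‖) ^ D) (m : ι → ℤ) :
    PolyIn k D (fun y => fc (fun x => F (x, y)) m) := by
  intro R
  obtain ⟨B, hB⟩ := hF (max R 1)
  refine ⟨B, fun y t hy => ?_⟩
  refine fc_le _ _ (fun x => ?_) m
  have h1 : rv x = rv (fun i => Int.fract (x i)) + co (fun i => ⌊x i⌋) := by
    funext i
    simp only [rv, co, Pi.add_apply]
    have h2 := Int.fract_add_floor (x i)
    conv_lhs => rw [← h2]
    push_cast
    rfl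
  rw [h1, hper]
  refine hB _ y t ?_ (hy.trans (le_max_left _ _))
  refine le_trans ?_ (le_max_right R 1)
  rw [pi_norm_le_iff_of_nonneg zero_le_one]
  intro i
  simp only [rv]
  rw [Complex.norm_real, Real.norm_eq_abs, abs_of_nonneg (Int.fract_nonneg _)]
  exact (Int.fract_lt_one _).le

/-- Proof. Copy of `B1` (Helper53/LT/Bp.lean) with `U' = 2 U` in place of `U`: constants `C'`, `Q` from `small`;
`boxP` with `R = C' √(U'/N)`, `h i q y = fc (F_i (·, y)) q`, `V = C'' U'`; `fc_poly` gives its hypothesis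
`PolyIn`; `dec` with this `A` (`A ≤ U`) bounds `h` on `‖y‖ ≤ 4 R`; then `small` for `∑ c_i F_i` with `U'`
(its growth is `≤ card I exp S exp (A + ..) ≤ exp (3 U + ..) ≤ exp (2 U' + ..)`), `fc_sum`; and
`exp (-U') ≤ exp (-U)`. -/
theorem B1P [DecidableEq η] (α : (ι → ℤ) →+ (ι → ℂ)) (β : (ι → ℤ) →+ (η → ℂ))
    (μ : (ι → ℤ) →+ (ι → ℤ))
    (l : (ι → ℤ) →+ ((η → ℂ) →ₗ[ℂ] ℂ)) (hμ : Function.Injective μ) (C0 R0 : ℝ) :
    ∃ C : ℝ, 0 < C ∧ ∀ (s : Finset η) (D N : ℕ), 1 ≤ N → ∀ (I : Type) [Fintype I]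
      (F : I → (ι → ℂ) × (η → ℂ) → ℂ) (e : (ι → ℤ) → ℂ), (∀ i, Qp α β μ l N e (F i)) →
      (∀ i, ∀ k ∈ s, ∀ R : ℝ, ∃ B : ℝ, ∀ (x : ι → ℂ) (y : η → ℂ) (t : ℂ), ‖x‖ ≤ R → ‖y‖ ≤ R →
        ‖F i (x, Function.update y k t)‖ ≤ B * (1 + ‖t‖) ^ D) →
      (∀ b, (e b).re ≤ C0 * (1 + ‖b‖ ^ 2)) →
      ∀ A : ℝ, (∀ i x y, ‖F i (x, y)‖ ≤ Real.exp (A + C0 * N * (1 + ‖x‖ ^ 2 + ‖y‖ ^ 2))) →
      ∀ S U : ℝ, 1 ≤ S → S ≤ U → A ≤ U → (N : ℝ) ≤ U → (Fintype.card I : ℝ) ≤ Real.exp U →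
      C * (N : ℝ) ^ Fintype.card ι * ((D : ℝ) + 1) ^ s.card *
        U ^ (Fintype.card η - s.card + 1) ≤ Fintype.card I * S →
      ∃ c : I → ℤ, c ≠ 0 ∧ (∀ i, |(c i : ℝ)| ≤ Real.exp S) ∧
        ∀ x y, ‖x‖ ≤ R0 → ‖y‖ ≤ R0 → ‖∑ i, (c i : ℂ) * F i (x, y)‖ ≤ Real.exp (-U) := by
  obtain ⟨C1, hC1, hsm⟩ := small α β μ l hμ C0 R0
  obtain ⟨Cd, cd, hCd, hcd, hdec⟩ := dec ι η C0
  obtain ⟨Cb, hCb, hbox⟩ := boxP η
  set C2 : ℝ := 1 + C1 + Cd + 16 * Cd * C1 ^ 2 with hC2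
  have hC2p : 0 < C2 := by positivity
  have hC2a : 1 ≤ C2 := by
    have h1 : 0 ≤ 16 * Cd * C1 ^ 2 := by positivity
    linarith
  have hC2b : C1 ≤ C2 := by
    have h1 : 0 ≤ 16 * Cd * C1 ^ 2 := by positivity
    linarith
  refine ⟨Cb * C1 * (2 * C2) ^ (Fintype.card η + 1), by positivity, ?_⟩
  intro s D N hN I _ F e hQp hpoly he A hF S U0 hS hSU0 hAU hNU0 hI0 hC
  obtain ⟨Q, hQne, hQcard, hQ⟩ := hsm N hN
  have hN1 : (1 : ℝ) ≤ N := by exact_mod_cast hN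
  have hN0 : (0 : ℝ) < N := by linarith
  have hU00 : 0 < U0 := by linarith
  obtain ⟨U, hUd⟩ : ∃ U : ℝ, U = 2 * U0 := ⟨_, rfl⟩
  have hU0 : 0 < U := by linarith
  have hSU : S ≤ U := by linarith
  have hNU : (N : ℝ) ≤ U := by linarith
  have hUU : U0 ≤ U := by linarith
  have hI : (Fintype.card I : ℝ) ≤ Real.exp U := hI0.trans (Real.exp_le_exp.2 hUU)
  have hne : Nonempty {m // m ∈ Q} := by
    obtain ⟨m, hm⟩ := hQne
    exact ⟨⟨m, hm⟩⟩
  set R : ℝ := C1 * Real.sqrt (U / N) with hR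
  have hR0 : 0 < R := mul_pos hC1 (Real.sqrt_pos.2 (div_pos hU0 hN0))
  have hR2 : (N : ℝ) * R ^ 2 = C1 ^ 2 * U := by
    rw [hR, mul_pow, Real.sq_sqrt (div_pos hU0 hN0).le]
    field_simp
  have hdiff : ∀ i (q : {m // m ∈ Q}),
      Differentiable ℂ (fun y : η → ℂ => fc (fun x => F i (x, y)) q.1) := fun i q =>
    differentiable_fc (F i) (hQp i).diff q.1
  have hbd : ∀ i (q : {m // m ∈ Q}) (y : η → ℂ), ‖y‖ ≤ 4 * R →
      ‖fc (fun x => F i (x, y)) q.1‖ ≤ Real.exp (C2 * U) := by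
    intro i q y hy
    have h1 := hdec N hN (F i) (hQp i).diff (hQp i).per A (hF i) q.1 y
    refine h1.trans (Real.exp_le_exp.2 ?_)
    have h2 : 0 ≤ cd * ‖q.1‖ ^ 2 / N := by positivity
    have h3 : ‖y‖ ^ 2 ≤ 16 * R ^ 2 := by
      have := pow_le_pow_left₀ (norm_nonneg y) hy 2
      rw [mul_pow] at this
      norm_num at this
      exact this
    have h4 : Cd * N * (1 + ‖y‖ ^ 2) ≤ Cd * N * (1 + 16 * R ^ 2) :=
      mul_le_mul_of_nonneg_left (by linarith) (by positivity)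
    have h5 : Cd * N * (1 + 16 * R ^ 2) = Cd * N + 16 * Cd * C1 ^ 2 * U := by
      linear_combination 16 * Cd * hR2
    have h6 : Cd * N ≤ Cd * U := mul_le_mul_of_nonneg_left hNU hCd.le
    have h7 : C2 * U = U + C1 * U + Cd * U + 16 * Cd * C1 ^ 2 * U := by rw [hC2]; ring
    have h8 : 0 < C1 * U := by positivity
    rw [h7]
    linarith
  have hSV : S ≤ C2 * U := hSU.trans (by nlinarith)
  have hIV : (Fintype.card I : ℝ) ≤ Real.exp (C2 * U) :=
    hI.trans (Real.exp_le_exp.2 (by nlinarith))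
  have hcond : Cb * Fintype.card {m // m ∈ Q} * ((D : ℝ) + 1) ^ s.card *
      (C2 * U) ^ (Fintype.card η - s.card + 1) ≤ Fintype.card I * S := by
    refine le_trans ?_ hC
    rw [Fintype.card_coe]
    have e1 : (C2 * U) ^ (Fintype.card η - s.card + 1) =
        (2 * C2) ^ (Fintype.card η - s.card + 1) * U0 ^ (Fintype.card η - s.card + 1) := by
      rw [← mul_pow, hUd]
      congr 1
      ring
    have e2 : (2 * C2) ^ (Fintype.card η - s.card + 1) ≤ (2 * C2) ^ (Fintype.card η + 1) :=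
      pow_le_pow_right₀ (by linarith) (by omega)
    have e3 : 0 ≤ U0 ^ (Fintype.card η - s.card + 1) := by positivity
    rw [e1]
    calc Cb * (Q.card : ℝ) * ((D : ℝ) + 1) ^ s.card *
          ((2 * C2) ^ (Fintype.card η - s.card + 1) * U0 ^ (Fintype.card η - s.card + 1)) =
        (Cb * ((D : ℝ) + 1) ^ s.card * (2 * C2) ^ (Fintype.card η - s.card + 1) *
          U0 ^ (Fintype.card η - s.card + 1)) * (Q.card : ℝ) := by ring
      _ ≤ (Cb * ((D : ℝ) + 1) ^ s.card * (2 * C2) ^ (Fintype.card η - s.card + 1) *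
          U0 ^ (Fintype.card η - s.card + 1)) *
          (C1 * (N : ℝ) ^ Fintype.card ι) := mul_le_mul_of_nonneg_left hQcard (by positivity)
      _ = (Cb * C1 * (N : ℝ) ^ Fintype.card ι * ((D : ℝ) + 1) ^ s.card *
          U0 ^ (Fintype.card η - s.card + 1)) * (2 * C2) ^ (Fintype.card η - s.card + 1) := by
          ring
      _ ≤ (Cb * C1 * (N : ℝ) ^ Fintype.card ι * ((D : ℝ) + 1) ^ s.card *
          U0 ^ (Fintype.card η - s.card + 1)) * (2 * C2) ^ (Fintype.card η + 1) :=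
          mul_le_mul_of_nonneg_left e2 (by positivity)
      _ = _ := by ring
  obtain ⟨c, hc0, hc1, hc2⟩ := hbox s D I {m // m ∈ Q} R hR0
    (fun i q y => fc (fun x => F i (x, y)) q.1) hdiff
    (fun i q k hk => fc_poly (F i) (hQp i).per k D (hpoly i k hk) q.1)
    S (C2 * U) hS hSV hIV hbd hcond
  refine ⟨c, hc0, hc1, ?_⟩
  intro x y hx hy
  refine le_trans ?_ (Real.exp_le_exp.2 (neg_le_neg hUU))
  refine hQ U hNU e (fun p => ∑ i, (c i : ℂ) * F i p) ⟨?_, ?_, ?_⟩ he ?_ ?_ x y hx hy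
  · exact Differentiable.fun_sum fun i _ => (hQp i).diff.const_mul _
  · intro a x y
    exact Finset.sum_congr rfl fun i _ => by rw [(hQp i).per]
  · intro b x y
    rw [Finset.mul_sum]
    refine Finset.sum_congr rfl fun i _ => ?_
    rw [(hQp i).qp]
    ring
  · intro x y
    calc ‖∑ i, (c i : ℂ) * F i (x, y)‖ ≤ ∑ i, ‖(c i : ℂ) * F i (x, y)‖ := norm_sum_le _ _
      _ ≤ ∑ _i : I, Real.exp S * Real.exp (A + C0 * N * (1 + ‖x‖ ^ 2 + ‖y‖ ^ 2)) := by
        refine Finset.sum_le_sum fun i _ => ?_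
        rw [norm_mul, Complex.norm_intCast]
        exact mul_le_mul (hc1 i) (hF i x y) (norm_nonneg _) (Real.exp_pos S).le
      _ = (Fintype.card I : ℝ) *
          (Real.exp S * Real.exp (A + C0 * N * (1 + ‖x‖ ^ 2 + ‖y‖ ^ 2))) := by
        rw [Finset.sum_const, Finset.card_univ, nsmul_eq_mul]
      _ ≤ Real.exp U * (Real.exp U0 * Real.exp (A + C0 * N * (1 + ‖x‖ ^ 2 + ‖y‖ ^ 2))) := by
        refine mul_le_mul hI (mul_le_mul_of_nonneg_right (Real.exp_le_exp.2 hSU0)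
          (Real.exp_pos _).le) (by positivity) (Real.exp_pos U).le
      _ ≤ Real.exp (2 * U + C0 * N * (1 + ‖x‖ ^ 2 + ‖y‖ ^ 2)) := by
        rw [← Real.exp_add, ← Real.exp_add]
        refine Real.exp_le_exp.2 ?_
        linarith
  · intro m hm y hy
    have h1 := fc_sum Finset.univ (fun i => (c i : ℂ)) (fun i x => F i (x, y))
      (fun i => (hQp i).diff.continuous.comp (by fun_prop)) m
    change ‖fc (fun x => ∑ i, (c i : ℂ) * F i (x, y)) m‖ ≤ _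
    rw [h1]
    refine (hc2 ⟨m, hm⟩ y hy).trans (Real.exp_le_exp.2 ?_)
    have h2 : C1 * U ≤ C2 * U := mul_le_mul_of_nonneg_right hC2b hU0.le
    linarith

end

end Pool.Agent.Helper93.LX
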