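import Pool.Agent.Helper93.LX.Xc
import Pool.Agent.Helper53.LT.Ga

/-!
PROJECT LT2, block X, file Xd: the box principle in the original coordinates, some variables polynomial.
-/

namespace Pool.Agent.Helper93.LX

open Pool.Agent.Helper53.LT

noncomputable section

/-- the exponent of the Gaussian factor -/
private def gaE {σ ι η : Type} [Fintype σ] [Fintype ι] (T : ((ι → ℂ) × (η → ℂ)) →ₗ[ℂ] (σ → ℂ))
    (K : σ → ℂ) (lam : ι → ℂ) (x : ι → ℂ) (y : η → ℂ) : ℂ :=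
  (1 / 2) * ∑ u, K u * T (x, y) u ^ 2 + ∑ j, lam j * x j

private lemma gaE_shift {σ ι η : Type} [Fintype σ] [Fintype ι]
    (T : ((ι → ℂ) × (η → ℂ)) →ₗ[ℂ] (σ → ℂ)) (K : σ → ℂ) (lam : ι → ℂ) (x x' : ι → ℂ)
    (y y' : η → ℂ) : gaE T K lam (x + x') (y + y') = gaE T K lam x y +
      ∑ u, K u * T (x', y') u * T (x, y) u + (1 / 2) * ∑ u, K u * T (x', y') u ^ 2 +
      ∑ j, lam j * x' j := by
  have h : T (x + x', y + y') = T (x, y) + T (x', y') := by
    rw [← map_add, Prod.mk_add_mk]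
  unfold gaE
  rw [h]
  simp only [Pi.add_apply, mul_add, Finset.sum_add_distrib, add_sq, Finset.mul_sum]
  have e1 : ∀ u, K u * (2 * T (x, y) u * T (x', y') u) = 2 * (K u * T (x', y') u * T (x, y) u) :=
    fun u => by ring
  simp only [e1]
  have e2 : ∑ u, (1 / 2 : ℂ) * (2 * (K u * T (x', y') u * T (x, y) u)) =
      ∑ u, K u * T (x', y') u * T (x, y) u := Finset.sum_congr rfl fun u _ => by ring
  rw [e2]
  ring

private lemma ga_mu {σ ι : Type} [Fintype σ] (K : σ → ℂ) (v : ι → σ → ℂ)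
    (w : (ι → ℤ) →+ (σ → ℂ)) (c1 : ι → ℂ) (c2 : (ι → ℤ) → ℂ) (F1 : (σ → ℂ) → ℂ)
    (h1 : ∀ j z, F1 (z + v j) = Complex.exp ((∑ u, K u * v j u * z u) + c1 j) * F1 z)
    (h2 : ∀ b z, F1 (z + w b) = Complex.exp (-(∑ u, K u * w b u * z u) + c2 b) * F1 z)
    (h3 : F1 0 ≠ 0) :
    ∃ μ : (ι → ℤ) →+ (ι → ℤ), ∀ b j,
      2 * ∑ u, K u * w b u * v j u = (μ b j : ℂ) * (2 * Real.pi * Complex.I) := by
  have key : ∀ b j, Complex.exp (2 * ∑ u, K u * w b u * v j u) = 1 := by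
    intro b j
    have e1 := h2 b (v j)
    have e2 := h1 j 0
    have e3 := h1 j (w b)
    have e4 := h2 b 0
    rw [zero_add] at e2 e4
    rw [add_comm (w b) (v j)] at e3
    rw [e1, e2, e4] at e3
    have z1 : ∑ u, K u * v j u * (0 : σ → ℂ) u = 0 := by simp
    have z2 : ∑ u, K u * w b u * (0 : σ → ℂ) u = 0 := by simp
    rw [z1, z2, zero_add, neg_zero, zero_add, ← mul_assoc, ← mul_assoc, ← Complex.exp_add,
      ← Complex.exp_add] at e3
    have e5 := mul_right_cancel₀ h3 e3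
    have e6 : ∑ u, K u * v j u * w b u = ∑ u, K u * w b u * v j u :=
      Finset.sum_congr rfl fun u _ => by ring
    rw [e6] at e5
    rw [show 2 * ∑ u, K u * w b u * v j u = (∑ u, K u * w b u * v j u + c1 j + c2 b) -
      (-(∑ u, K u * w b u * v j u) + c2 b + c1 j) by ring, Complex.exp_sub, e5,
      div_self (Complex.exp_ne_zero _)]
  have key' : ∀ b j, ∃ n : ℤ, 2 * ∑ u, K u * w b u * v j u = n * (2 * Real.pi * Complex.I) :=
    fun b j => Complex.exp_eq_one_iff.1 (key b j)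
  choose m hm using key'
  refine ⟨AddMonoidHom.mk' m ?_, hm⟩
  intro b b'
  funext j
  have h4 := hm (b + b') j
  have h5 : ((m (b + b') j : ℤ) : ℂ) = ((m b j + m b' j : ℤ) : ℂ) := by
    have h6 : (m (b + b') j : ℂ) * (2 * Real.pi * Complex.I) =
        ((m b j : ℂ) + (m b' j : ℂ)) * (2 * Real.pi * Complex.I) := by
      rw [← h4, add_mul, ← hm b j, ← hm b' j, ← mul_add, ← Finset.sum_add_distrib]
      congr 1
      refine Finset.sum_congr rfl fun u _ => ?_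
      rw [map_add, Pi.add_apply]
      ring
    rw [Int.cast_add]
    exact mul_right_cancel₀ Complex.two_pi_I_ne_zero h6
  exact_mod_cast h5

private lemma ga_single_dec {ι η : Type} [Fintype ι] [DecidableEq ι] {G : (ι → ℂ) × (η → ℂ) → ℂ}
    (h : ∀ j x y, G (x + Pi.single j 1, y) = G (x, y)) (a : ι → ℤ) (x : ι → ℂ) (y : η → ℂ) :
    G (x + co a, y) = G (x, y) := by
  let S : AddSubgroup (ι → ℤ) :=
    { carrier := {a | ∀ x y, G (x + co a, y) = G (x, y)}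
      zero_mem' := by
        intro x y
        have : co (0 : ι → ℤ) = 0 := by funext i; simp [co]
        rw [this, add_zero]
      add_mem' := by
        intro a b ha hb x y
        have : co (a + b) = co a + co b := by funext i; simp [co]
        rw [this, ← add_assoc, hb, ha]
      neg_mem' := by
        intro a ha x y
        have h1 : co (-a) = -co a := by funext i; simp [co]
        have h2 := ha (x + co (-a)) y
        rw [h1, neg_add_cancel_right] at h2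
        rw [h1, h2] }
  have hs : ∀ j, Pi.single j (1 : ℤ) ∈ S := by
    intro j x y
    have : co (Pi.single j (1 : ℤ)) = Pi.single j (1 : ℂ) := by
      funext i
      unfold co
      by_cases hij : i = j
      · subst hij; simp
      · simp [Pi.single_eq_of_ne hij]
    rw [this]
    exact h j x y
  have ha : a = ∑ j, a j • Pi.single j (1 : ℤ) := by
    funext i
    rw [Finset.sum_apply]
    simp [Pi.single_apply]
  have hmem : a ∈ S := by
    rw [ha]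
    exact AddSubgroup.sum_mem _ fun j _ => AddSubgroup.zsmul_mem _ (hs j) _
  exact hmem x y

private lemma ga_T {σ ι η : Type} [Fintype σ] [Fintype ι] [Fintype η]
    (T : ((ι → ℂ) × (η → ℂ)) →ₗ[ℂ] (σ → ℂ)) : ∃ C : ℝ, 0 ≤ C ∧ ∀ x y,
      ‖T (x, y)‖ ^ 2 ≤ C * (‖x‖ ^ 2 + ‖y‖ ^ 2) := by
  refine ⟨‖LinearMap.toContinuousLinearMap T‖ ^ 2, sq_nonneg _, fun x y => ?_⟩
  have h1 : ‖T (x, y)‖ ≤ ‖LinearMap.toContinuousLinearMap T‖ * ‖(x, y)‖ :=
    (LinearMap.toContinuousLinearMap T).le_opNorm (x, y)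
  have h2 : ‖(x, y)‖ ^ 2 ≤ ‖x‖ ^ 2 + ‖y‖ ^ 2 := by
    rw [Prod.norm_def]
    rcases max_choice ‖x‖ ‖y‖ with h | h
    · rw [h]
      exact le_add_of_nonneg_right (sq_nonneg _)
    · rw [h]
      exact le_add_of_nonneg_left (sq_nonneg _)
  calc ‖T (x, y)‖ ^ 2 ≤ (‖LinearMap.toContinuousLinearMap T‖ * ‖(x, y)‖) ^ 2 :=
        pow_le_pow_left₀ (norm_nonneg _) h1 2
    _ = ‖LinearMap.toContinuousLinearMap T‖ ^ 2 * ‖(x, y)‖ ^ 2 := by ring
    _ ≤ _ := mul_le_mul_of_nonneg_left h2 (sq_nonneg _)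

private lemma ga_sum_sq {σ : Type} [Fintype σ] (K z : σ → ℂ) :
    ‖∑ u, K u * z u ^ 2‖ ≤ (∑ u, ‖K u‖) * ‖z‖ ^ 2 := by
  rw [Finset.sum_mul]
  refine (norm_sum_le _ _).trans (Finset.sum_le_sum fun u _ => ?_)
  rw [norm_mul, norm_pow]
  exact mul_le_mul_of_nonneg_left (pow_le_pow_left₀ (norm_nonneg _) (norm_le_pi_norm z u) 2)
    (norm_nonneg _)

private lemma ga_sum_lin {ι : Type} [Fintype ι] (lam x : ι → ℂ) :
    ‖∑ j, lam j * x j‖ ≤ (∑ j, ‖lam j‖) * ‖x‖ := by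
  rw [Finset.sum_mul]
  refine (norm_sum_le _ _).trans (Finset.sum_le_sum fun u _ => ?_)
  rw [norm_mul]
  exact mul_le_mul_of_nonneg_left (norm_le_pi_norm x u) (norm_nonneg _)

private lemma gaE_bound {σ ι η : Type} [Fintype σ] [Fintype ι] [Fintype η]
    (T : ((ι → ℂ) × (η → ℂ)) →ₗ[ℂ] (σ → ℂ)) (K : σ → ℂ) (lam : ι → ℂ) :
    ∃ C : ℝ, 0 ≤ C ∧ ∀ x y, ‖gaE T K lam x y‖ ≤ C * (1 + ‖x‖ ^ 2 + ‖y‖ ^ 2) := by
  obtain ⟨C, hC, h⟩ := ga_T T
  have hK : 0 ≤ ∑ u, ‖K u‖ := Finset.sum_nonneg fun _ _ => norm_nonneg _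
  have hl : 0 ≤ ∑ u, ‖lam u‖ := Finset.sum_nonneg fun _ _ => norm_nonneg _
  refine ⟨(∑ u, ‖K u‖) * C + ∑ u, ‖lam u‖, by positivity, fun x y => ?_⟩
  have h1 : ‖(1 / 2 : ℂ) * ∑ u, K u * T (x, y) u ^ 2‖ ≤
      (∑ u, ‖K u‖) * (C * (‖x‖ ^ 2 + ‖y‖ ^ 2)) := by
    rw [norm_mul]
    have h2 : ‖(1 / 2 : ℂ)‖ ≤ 1 := by norm_num
    have h3 : ‖∑ u, K u * T (x, y) u ^ 2‖ ≤ (∑ u, ‖K u‖) * (C * (‖x‖ ^ 2 + ‖y‖ ^ 2)) :=
      (ga_sum_sq K (T (x, y))).trans (mul_le_mul_of_nonneg_left (h x y) hK)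
    calc ‖(1 / 2 : ℂ)‖ * ‖∑ u, K u * T (x, y) u ^ 2‖ ≤ 1 * ‖∑ u, K u * T (x, y) u ^ 2‖ :=
          mul_le_mul_of_nonneg_right h2 (norm_nonneg _)
      _ ≤ _ := by rw [one_mul]; exact h3
  have h4 := ga_sum_lin lam x
  have h5 : ‖x‖ ≤ 1 + ‖x‖ ^ 2 + ‖y‖ ^ 2 := by nlinarith [sq_nonneg (‖x‖ - 1), sq_nonneg ‖y‖, norm_nonneg x]
  unfold gaE
  calc ‖(1 / 2 : ℂ) * ∑ u, K u * T (x, y) u ^ 2 + ∑ j, lam j * x j‖ ≤
        (∑ u, ‖K u‖) * (C * (‖x‖ ^ 2 + ‖y‖ ^ 2)) + (∑ j, ‖lam j‖) * ‖x‖ :=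
        (norm_add_le _ _).trans (add_le_add h1 h4)
    _ ≤ (∑ u, ‖K u‖) * (C * (1 + ‖x‖ ^ 2 + ‖y‖ ^ 2)) +
        (∑ j, ‖lam j‖) * (1 + ‖x‖ ^ 2 + ‖y‖ ^ 2) := by
        refine add_le_add (mul_le_mul_of_nonneg_left (mul_le_mul_of_nonneg_left ?_ hC) hK)
          (mul_le_mul_of_nonneg_left h5 hl)
        linarith
    _ = _ := by ring

private lemma gaE_diff {σ ι η : Type} [Fintype σ] [Fintype ι] [Fintype η]
    (T : ((ι → ℂ) × (η → ℂ)) →ₗ[ℂ] (σ → ℂ)) (K : σ → ℂ) (lam : ι → ℂ) :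
    Differentiable ℂ (fun X : (ι → ℂ) × (η → ℂ) => gaE T K lam X.1 X.2) := by
  have hT : Differentiable ℂ (fun X : (ι → ℂ) × (η → ℂ) => T X) :=
    (LinearMap.toContinuousLinearMap T).differentiable
  have hTu : ∀ u, Differentiable ℂ (fun X : (ι → ℂ) × (η → ℂ) => T X u) := fun u =>
    differentiable_pi.1 hT u
  have hx : ∀ j, Differentiable ℂ (fun X : (ι → ℂ) × (η → ℂ) => X.1 j) := fun j =>
    differentiable_pi.1 differentiable_fst j
  unfold gaE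
  refine Differentiable.add ((differentiable_const _).mul ?_) ?_
  · exact Differentiable.fun_sum fun u _ => (differentiable_const _).mul ((hTu u).pow 2)
  · exact Differentiable.fun_sum fun j _ => (differentiable_const _).mul (hx j)

private lemma ga_l {σ ι η : Type} [Fintype σ] (T : ((ι → ℂ) × (η → ℂ)) →ₗ[ℂ] (σ → ℂ))
    (K : σ → ℂ) (w : (ι → ℤ) →+ (σ → ℂ)) :
    ∃ l : (ι → ℤ) →+ ((η → ℂ) →ₗ[ℂ] ℂ), ∀ b y,
      l b y = -(2 * ∑ u, K u * w b u * T (0, y) u) := by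
  refine ⟨AddMonoidHom.mk' (fun b => ∑ u, (-(2 * (K u * w b u))) •
    ((LinearMap.proj u).comp (T.comp (LinearMap.inr ℂ (ι → ℂ) (η → ℂ))))) ?_, ?_⟩
  · intro a b
    rw [← Finset.sum_add_distrib]
    refine Finset.sum_congr rfl fun u _ => ?_
    rw [← add_smul]
    congr 1
    rw [map_add, Pi.add_apply]
    ring
  · intro b y
    rw [AddMonoidHom.mk'_apply, LinearMap.sum_apply, Finset.mul_sum, ← Finset.sum_neg_distrib]
    refine Finset.sum_congr rfl fun u _ => ?_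
    simp only [LinearMap.smul_apply, LinearMap.comp_apply, LinearMap.inr_apply,
      LinearMap.proj_apply, smul_eq_mul]
    ring

private lemma ga_T_dec {σ ι η : Type} [Fintype ι] [DecidableEq ι]
    (T : ((ι → ℂ) × (η → ℂ)) →ₗ[ℂ] (σ → ℂ)) (v : ι → σ → ℂ)
    (hv : ∀ j, T (Pi.single j 1, 0) = v j) (x : ι → ℂ) (y : η → ℂ) (u : σ) :
    T (x, y) u = (∑ j, x j * v j u) + T (0, y) u := by
  have h1 : (x, y) = (∑ j, x j • ((Pi.single j (1 : ℂ), (0 : η → ℂ)) : (ι → ℂ) × (η → ℂ))) +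
      (0, y) := by
    refine Prod.ext ?_ ?_
    · rw [Prod.fst_add, Prod.fst_sum]
      funext i
      simp [Finset.sum_apply, Pi.single_apply]
    · rw [Prod.snd_add, Prod.snd_sum]
      simp
  rw [h1, map_add, map_sum, Pi.add_apply, Finset.sum_apply]
  congr 1
  refine Finset.sum_congr rfl fun j _ => ?_
  rw [map_smul, hv, Pi.smul_apply, smul_eq_mul]

private lemma ga_qp {σ ι η : Type} [Fintype σ] [Fintype ι] [Fintype η] [DecidableEq ι]
    (T : ((ι → ℂ) × (η → ℂ)) →ₗ[ℂ] (σ → ℂ)) (K : σ → ℂ) (v : ι → σ → ℂ)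
    (hv : ∀ j, T (Pi.single j 1, 0) = v j) (w : (ι → ℤ) →+ (σ → ℂ))
    (α : (ι → ℤ) →+ (ι → ℂ)) (β : (ι → ℤ) →+ (η → ℂ)) (hw : ∀ b, T (α b, β b) = w b)
    (c1 lam : ι → ℂ) (c2 e : (ι → ℤ) → ℂ)
    (hlam : ∀ j, lam j = c1 j - (1 / 2) * ∑ u, K u * v j u ^ 2)
    (he : ∀ b, e b = c2 b - (1 / 2) * (∑ u, K u * w b u ^ 2) - ∑ j, lam j * α b j)
    (μ : (ι → ℤ) →+ (ι → ℤ)) (hμ : ∀ b j,
      2 * ∑ u, K u * w b u * v j u = (μ b j : ℂ) * (2 * Real.pi * Complex.I))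
    (l : (ι → ℤ) →+ ((η → ℂ) →ₗ[ℂ] ℂ))
    (hl : ∀ b y, l b y = -(2 * ∑ u, K u * w b u * T (0, y) u))
    (N : ℕ) (F : (σ → ℂ) → ℂ) (hF : Differentiable ℂ F)
    (h1 : ∀ j z, F (z + v j) = Complex.exp (N * ((∑ u, K u * v j u * z u) + c1 j)) * F z)
    (h2 : ∀ b z, F (z + w b) = Complex.exp (N * (-(∑ u, K u * w b u * z u) + c2 b)) * F z) :
    Qp α β μ l N e (fun X => Complex.exp (-(N * gaE T K lam X.1 X.2)) * F (T X)) := by
  refine ⟨?_, ?_, ?_⟩
  · refine Differentiable.mul ?_ ?_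
    · exact (((differentiable_const _).mul (gaE_diff T K lam)).neg).cexp
    · exact hF.comp (LinearMap.toContinuousLinearMap T).differentiable
  · intro a x y
    refine ga_single_dec (G := fun X : (ι → ℂ) × (η → ℂ) =>
      Complex.exp (-(N * gaE T K lam X.1 X.2)) * F (T X)) ?_ a x y
    intro j x y
    show Complex.exp (-(N * gaE T K lam (x + Pi.single j 1) y)) * F (T (x + Pi.single j 1, y)) =
      Complex.exp (-(N * gaE T K lam x y)) * F (T (x, y))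
    have e1 : T (x + Pi.single j 1, y) = T (x, y) + v j := by
      rw [← hv j, ← map_add, Prod.mk_add_mk, add_zero]
    have e2 := gaE_shift T K lam x (Pi.single j 1) y 0
    rw [add_zero, hv j] at e2
    have e3 : ∑ i, lam i * (Pi.single j (1 : ℂ) : ι → ℂ) i = lam j := by
      simp [Pi.single_apply]
    rw [e3] at e2
    rw [e1, h1, e2, hlam j, ← mul_assoc, ← Complex.exp_add]
    congr 2
    ring
  · intro b x y
    show Complex.exp (-(N * gaE T K lam (x + α b) (y + β b))) * F (T (x + α b, y + β b)) = _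
    have e1 : T (x + α b, y + β b) = T (x, y) + w b := by
      rw [← hw b, ← map_add, Prod.mk_add_mk]
    have e2 := gaE_shift T K lam x (α b) y (β b)
    rw [hw b] at e2
    rw [e1, h2, e2, ← mul_assoc, ← Complex.exp_add]
    unfold ev
    rw [← mul_assoc, ← Complex.exp_add, ← Complex.exp_add]
    congr 2
    have e3 : ∑ u, K u * w b u * T (x, y) u =
        (∑ j, x j * ∑ u, K u * w b u * v j u) + ∑ u, K u * w b u * T (0, y) u := by
      have e4 : ∀ u, K u * w b u * T (x, y) u =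
          (∑ j, x j * (K u * w b u * v j u)) + K u * w b u * T (0, y) u := by
        intro u
        rw [ga_T_dec T v hv x y u, mul_add, Finset.mul_sum]
        congr 1
        exact Finset.sum_congr rfl fun j _ => by ring
      rw [Finset.sum_congr rfl fun u _ => e4 u, Finset.sum_add_distrib, Finset.sum_comm]
      congr 1
      exact Finset.sum_congr rfl fun j _ => by rw [Finset.mul_sum]
    have e5 : 2 * ∑ j, x j * ∑ u, K u * w b u * v j u =
        (2 * Real.pi * Complex.I) * ∑ j, (μ b j : ℂ) * x j := by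
      rw [Finset.mul_sum, Finset.mul_sum]
      refine Finset.sum_congr rfl fun j _ => ?_
      rw [mul_left_comm, hμ b j]
      ring
    have e6 : ∑ i, (((-((N : ℤ) • μ b)) i : ℤ) : ℂ) * x i = -(N * ∑ j, (μ b j : ℂ) * x j) := by
      rw [Finset.mul_sum, ← Finset.sum_neg_distrib]
      refine Finset.sum_congr rfl fun j _ => ?_
      simp only [Pi.neg_apply, Pi.smul_apply, smul_eq_mul]
      push_cast
      ring
    rw [e6, hl b y, he b]
    have e7 : ∑ u, K u * w b u * T (x, y) u = (1 / 2) * ((2 * Real.pi * Complex.I) *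
        ∑ j, (μ b j : ℂ) * x j) + ∑ u, K u * w b u * T (0, y) u := by
      rw [e3, ← e5]
      ring
    rw [e7]
    ring

/-- Proof. Copy of `B15` (Helper53/LT/Ga.lean; the private lemmas `ga_*` used there have to be copied with it)
with `B1P` in place of `B1`. New points:
* growth: `‖G_i (x, y)‖ ≤ exp (A + (A1 + A2) N (1 + ‖x‖^2 + ‖y‖^2))`, the `A` is carried along;
* `B1P` needs the polynomial bound for `G_i (x, y) = exp (-(N * gaE T K lam x y)) * F_i (T (x, y))` in `y_k`,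
  `k ∈ s`: `T (x, update y k t) = T (x, update y k 0) + t • T (0, Pi.single k 1)`; by `hK` the quadratic form
  `gaE T K lam x y` (it is `(1/2) ∑ K_u (T (x, y) u)^2 + ∑ lam_j x_j`) does not change when
  `t • T (0, Pi.single k 1)` is added (`K_u (a + t b)^2 = K_u a^2` if `K_u b = 0`), so
  `G_i (x, update y k t) = exp (-(N * gaE T K lam x (update y k 0))) * F_i (z + t • T (0, Pi.single k 1))`,
  `z = T (x, update y k 0)` bounded; use `hpoly` with a suitable radius and `gaE_bound`. -/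
theorem B15P {σ ι η : Type} [Fintype σ] [Fintype ι] [Fintype η] [DecidableEq ι] [DecidableEq η]
    (T : ((ι → ℂ) × (η → ℂ)) →ₗ[ℂ] (σ → ℂ)) (K : σ → ℂ) (v : ι → σ → ℂ)
    (hv : ∀ j, T (Pi.single j 1, 0) = v j) (w : (ι → ℤ) →+ (σ → ℂ))
    (α : (ι → ℤ) →+ (ι → ℂ)) (β : (ι → ℤ) →+ (η → ℂ)) (hw : ∀ b, T (α b, β b) = w b)
    (hM : ∀ b : ι → ℤ, (∀ j, ∑ u, K u * w b u * v j u = 0) → b = 0)
    (s : Finset η) (hK : ∀ k ∈ s, ∀ u, K u * T (0, Pi.single k 1) u = 0)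
    (c1 : ι → ℂ) (c2 : (ι → ℤ) → ℂ) (C0 R0 : ℝ) (hc2 : ∀ b, (c2 b).re ≤ C0 * (1 + ‖b‖ ^ 2))
    (F1 : (σ → ℂ) → ℂ)
    (h1 : ∀ j z, F1 (z + v j) = Complex.exp ((∑ u, K u * v j u * z u) + c1 j) * F1 z)
    (h2 : ∀ b z, F1 (z + w b) = Complex.exp (-(∑ u, K u * w b u * z u) + c2 b) * F1 z)
    (h3 : F1 0 ≠ 0) :
    ∃ C : ℝ, 0 < C ∧ ∀ (D N : ℕ), 1 ≤ N → ∀ (I : Type) [Fintype I] (F : I → (σ → ℂ) → ℂ),
      (∀ i, Differentiable ℂ (F i)) →
      (∀ i j z, F i (z + v j) = Complex.exp (N * ((∑ u, K u * v j u * z u) + c1 j)) * F i z) →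
      (∀ i b z, F i (z + w b) = Complex.exp (N * (-(∑ u, K u * w b u * z u) + c2 b)) * F i z) →
      (∀ i, ∀ k ∈ s, ∀ R : ℝ, ∃ B : ℝ, ∀ (z : σ → ℂ) (t : ℂ), ‖z‖ ≤ R →
        ‖F i (z + t • T (0, Pi.single k 1))‖ ≤ B * (1 + ‖t‖) ^ D) →
      ∀ A : ℝ, (∀ i z, ‖F i z‖ ≤ Real.exp (A + C0 * N * (1 + ‖z‖ ^ 2))) →
      ∀ S U : ℝ, 1 ≤ S → S ≤ U → A ≤ U → (N : ℝ) ≤ U → (Fintype.card I : ℝ) ≤ Real.exp U →
      C * (N : ℝ) ^ Fintype.card ι * ((D : ℝ) + 1) ^ s.card *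
        U ^ (Fintype.card η - s.card + 1) ≤ Fintype.card I * S →
      ∃ c : I → ℤ, c ≠ 0 ∧ (∀ i, |(c i : ℝ)| ≤ Real.exp S) ∧
        ∀ x y, ‖x‖ ≤ R0 → ‖y‖ ≤ R0 → ‖∑ i, (c i : ℂ) * F i (T (x, y))‖ ≤ Real.exp (-U) := by
  obtain ⟨μ, hμ⟩ := ga_mu K v w c1 c2 F1 h1 h2 h3
  obtain ⟨l, hl⟩ := ga_l T K w
  set lam : ι → ℂ := fun j => c1 j - (1 / 2) * ∑ u, K u * v j u ^ 2 with hlam
  set e : (ι → ℤ) → ℂ := fun b =>
    c2 b - (1 / 2) * (∑ u, K u * w b u ^ 2) - ∑ j, lam j * α b j with he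
  have hμi : Function.Injective μ := by
    rw [injective_iff_map_eq_zero]
    intro b hb
    refine hM b fun j => ?_
    have h4 := hμ b j
    rw [hb, Pi.zero_apply, Int.cast_zero, zero_mul] at h4
    exact (mul_eq_zero.1 h4).resolve_left two_ne_zero
  obtain ⟨CT, hCT, hT⟩ := ga_T T
  obtain ⟨C3, hC3, hG⟩ := gaE_bound T K lam
  obtain ⟨Cw, hCw, hwb⟩ := add_bound w
  obtain ⟨Ca, hCa, hab⟩ := add_bound α
  have hK0 : 0 ≤ ∑ u, ‖K u‖ := Finset.sum_nonneg fun _ _ => norm_nonneg _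
  have hla : 0 ≤ ∑ u, ‖lam u‖ := Finset.sum_nonneg fun _ _ => norm_nonneg _
  set A1 : ℝ := |C0| + (∑ u, ‖K u‖) * Cw ^ 2 + (∑ j, ‖lam j‖) * Ca with hA1
  set A2 : ℝ := C3 + |C0| * (1 + CT) with hA2
  have hA1' : 0 ≤ A1 := by positivity
  have hA2' : 0 ≤ A2 := by positivity
  obtain ⟨C, hC, hB⟩ := B1P α β μ l hμi (A1 + A2) R0
  set Dc : ℝ := C3 * (1 + R0 ^ 2 + R0 ^ 2) with hD
  have hD' : 0 ≤ Dc := by positivity
  refine ⟨C * (1 + Dc) ^ (Fintype.card η - s.card + 1), by positivity, ?_⟩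
  intro D N hN I _ F hF hF1 hF2 hpoly A hF3 S U hS hSU hAU hNU hI hcard
  have hN0 : (0 : ℝ) ≤ N := Nat.cast_nonneg N
  have hU0 : 0 ≤ U := by linarith
  have hUU : U ≤ (1 + Dc) * U := by nlinarith
  -- the bound of e
  have heb : ∀ b, (e b).re ≤ (A1 + A2) * (1 + ‖b‖ ^ 2) := by
    intro b
    have k1 : ‖(1 / 2 : ℂ) * (∑ u, K u * w b u ^ 2)‖ ≤ (∑ u, ‖K u‖) * (Cw ^ 2 * ‖b‖ ^ 2) := by
      rw [norm_mul]
      have k2 : ‖(1 / 2 : ℂ)‖ ≤ 1 := by norm_num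
      have k3 : ‖∑ u, K u * w b u ^ 2‖ ≤ (∑ u, ‖K u‖) * (Cw ^ 2 * ‖b‖ ^ 2) := by
        refine (ga_sum_sq K (w b)).trans (mul_le_mul_of_nonneg_left ?_ hK0)
        rw [← mul_pow]
        exact pow_le_pow_left₀ (norm_nonneg _) (hwb b) 2
      calc ‖(1 / 2 : ℂ)‖ * ‖∑ u, K u * w b u ^ 2‖ ≤ 1 * ‖∑ u, K u * w b u ^ 2‖ :=
            mul_le_mul_of_nonneg_right k2 (norm_nonneg _)
        _ ≤ _ := by rw [one_mul]; exact k3
    have k4 : ‖∑ j, lam j * α b j‖ ≤ (∑ j, ‖lam j‖) * (Ca * ‖b‖) :=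
      (ga_sum_lin lam (α b)).trans (mul_le_mul_of_nonneg_left (hab b) hla)
    have k5 : ‖b‖ ≤ 1 + ‖b‖ ^ 2 := by nlinarith [sq_nonneg (‖b‖ - 1), norm_nonneg b]
    have k6 : (e b).re = (c2 b).re - ((1 / 2 : ℂ) * (∑ u, K u * w b u ^ 2)).re -
        (∑ j, lam j * α b j).re := by
      rw [he]
      simp only [Complex.sub_re]
    have k7 := neg_le_of_abs_le (Complex.abs_re_le_norm ((1 / 2 : ℂ) * (∑ u, K u * w b u ^ 2)))
    have k8 := neg_le_of_abs_le (Complex.abs_re_le_norm (∑ j, lam j * α b j))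
    have k9 : C0 * (1 + ‖b‖ ^ 2) ≤ |C0| * (1 + ‖b‖ ^ 2) :=
      mul_le_mul_of_nonneg_right (le_abs_self C0) (by positivity)
    have k10 : (∑ u, ‖K u‖) * (Cw ^ 2 * ‖b‖ ^ 2) ≤ (∑ u, ‖K u‖) * Cw ^ 2 * (1 + ‖b‖ ^ 2) := by
      rw [mul_assoc]
      refine mul_le_mul_of_nonneg_left (mul_le_mul_of_nonneg_left ?_ (sq_nonneg _)) hK0
      linarith
    have k11 : (∑ j, ‖lam j‖) * (Ca * ‖b‖) ≤ (∑ j, ‖lam j‖) * Ca * (1 + ‖b‖ ^ 2) := by
      rw [mul_assoc]
      exact mul_le_mul_of_nonneg_left (mul_le_mul_of_nonneg_left k5 hCa.le) hla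
    have k12 : 0 ≤ A2 * (1 + ‖b‖ ^ 2) := by positivity
    have k13 := hc2 b
    have k14 : A1 * (1 + ‖b‖ ^ 2) = |C0| * (1 + ‖b‖ ^ 2) +
        (∑ u, ‖K u‖) * Cw ^ 2 * (1 + ‖b‖ ^ 2) + (∑ j, ‖lam j‖) * Ca * (1 + ‖b‖ ^ 2) := by
      rw [hA1]; ring
    rw [k6, add_mul, k14]
    linarith
  -- the functions of the class
  have hgr : ∀ i x y, ‖Complex.exp (-(N * gaE T K lam x y)) * F i (T (x, y))‖ ≤
      Real.exp (A + (A1 + A2) * N * (1 + ‖x‖ ^ 2 + ‖y‖ ^ 2)) := by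
    intro i x y
    rw [norm_mul, Complex.norm_exp]
    have k1 : (-(N * gaE T K lam x y)).re ≤ N * (C3 * (1 + ‖x‖ ^ 2 + ‖y‖ ^ 2)) := by
      refine (Complex.re_le_norm _).trans ?_
      rw [norm_neg, norm_mul, Complex.norm_natCast]
      exact mul_le_mul_of_nonneg_left (hG x y) hN0
    have k2 : C0 * N * (1 + ‖T (x, y)‖ ^ 2) ≤
        |C0| * N * ((1 + CT) * (1 + ‖x‖ ^ 2 + ‖y‖ ^ 2)) := by
      have k3 : C0 * N * (1 + ‖T (x, y)‖ ^ 2) ≤ |C0| * N * (1 + ‖T (x, y)‖ ^ 2) :=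
        mul_le_mul_of_nonneg_right (mul_le_mul_of_nonneg_right (le_abs_self C0) hN0)
          (by positivity)
      refine k3.trans (mul_le_mul_of_nonneg_left ?_ (by positivity))
      have k4 := hT x y
      nlinarith [sq_nonneg ‖x‖, sq_nonneg ‖y‖]
    calc Real.exp (-(N * gaE T K lam x y)).re * ‖F i (T (x, y))‖ ≤
          Real.exp (N * (C3 * (1 + ‖x‖ ^ 2 + ‖y‖ ^ 2))) *
            Real.exp (A + |C0| * N * ((1 + CT) * (1 + ‖x‖ ^ 2 + ‖y‖ ^ 2))) :=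
          mul_le_mul (Real.exp_le_exp.2 k1) ((hF3 i _).trans (Real.exp_le_exp.2
            (by linarith))) (norm_nonneg _) (Real.exp_nonneg _)
      _ = Real.exp (A + A2 * N * (1 + ‖x‖ ^ 2 + ‖y‖ ^ 2)) := by
          rw [← Real.exp_add]
          congr 1
          rw [hA2]
          ring
      _ ≤ _ := by
          refine Real.exp_le_exp.2 (by
            have k5 : A2 * N * (1 + ‖x‖ ^ 2 + ‖y‖ ^ 2) ≤
                (A1 + A2) * N * (1 + ‖x‖ ^ 2 + ‖y‖ ^ 2) :=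
              mul_le_mul_of_nonneg_right (mul_le_mul_of_nonneg_right (by linarith) hN0)
                (by positivity)
            linarith)
  -- the polynomial variables
  have hpo : ∀ i, ∀ k ∈ s, ∀ R : ℝ, ∃ B : ℝ, ∀ (x : ι → ℂ) (y : η → ℂ) (t : ℂ), ‖x‖ ≤ R →
      ‖y‖ ≤ R → ‖Complex.exp (-(N * gaE T K lam x (Function.update y k t))) *
        F i (T (x, Function.update y k t))‖ ≤ B * (1 + ‖t‖) ^ D := by
    intro i k hk R
    obtain ⟨B, hB'⟩ := hpoly i k hk (1 + CT * (R ^ 2 + R ^ 2))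
    refine ⟨Real.exp (N * (C3 * (1 + R ^ 2 + R ^ 2))) * B, fun x y t hx hy => ?_⟩
    set y0 : η → ℂ := Function.update y k 0 with hy0
    have k1 : T (x, Function.update y k t) = T (x, y0) + t • T (0, Pi.single k 1) := by
      rw [← map_smul, ← map_add]
      congr 1
      refine Prod.ext ?_ ?_
      · simp
      · funext j
        by_cases hj : j = k
        · subst hj
          simp [hy0]
        · simp [hy0, Function.update_of_ne hj, Pi.single_eq_of_ne hj]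
    have k2 : gaE T K lam x (Function.update y k t) = gaE T K lam x y0 := by
      unfold gaE
      rw [k1]
      congr 2
      refine Finset.sum_congr rfl fun u _ => ?_
      have k3 := hK k hk u
      simp only [Pi.add_apply, Pi.smul_apply, smul_eq_mul]
      linear_combination (2 * t * T (x, y0) u + t ^ 2 * T (0, Pi.single k 1) u) * k3
    have k4 : ‖y0‖ ≤ ‖y‖ := by
      refine (pi_norm_le_iff_of_nonneg (norm_nonneg y)).2 fun j => ?_
      by_cases hj : j = k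
      · subst hj
        simp [hy0]
      · rw [hy0, Function.update_of_ne hj]
        exact norm_le_pi_norm y j
    have k5 : ‖x‖ ^ 2 ≤ R ^ 2 := pow_le_pow_left₀ (norm_nonneg _) hx 2
    have k6 : ‖y0‖ ^ 2 ≤ R ^ 2 := pow_le_pow_left₀ (norm_nonneg _) (k4.trans hy) 2
    have k7 : ‖T (x, y0)‖ ≤ 1 + CT * (R ^ 2 + R ^ 2) := by
      have k8 := hT x y0
      have k9 : CT * (‖x‖ ^ 2 + ‖y0‖ ^ 2) ≤ CT * (R ^ 2 + R ^ 2) :=
        mul_le_mul_of_nonneg_left (add_le_add k5 k6) hCT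
      nlinarith [sq_nonneg (‖T (x, y0)‖ - 1), norm_nonneg (T (x, y0))]
    rw [k2, k1, norm_mul, mul_assoc]
    refine mul_le_mul ?_ (hB' _ t k7) (norm_nonneg _) (Real.exp_nonneg _)
    rw [Complex.norm_exp]
    refine Real.exp_le_exp.2 ((Complex.re_le_norm _).trans ?_)
    rw [norm_neg, norm_mul, Complex.norm_natCast]
    refine mul_le_mul_of_nonneg_left ((hG x y0).trans (mul_le_mul_of_nonneg_left ?_ hC3)) hN0
    linarith
  obtain ⟨c, hc1, hc2', hc3⟩ := hB s D N hN I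
    (fun i X => Complex.exp (-(N * gaE T K lam X.1 X.2)) * F i (T X)) e
    (fun i => ga_qp T K v hv w α β hw c1 lam c2 e (fun j => rfl) (fun b => rfl) μ hμ l hl N (F i)
      (hF i) (hF1 i) (hF2 i)) hpo heb A hgr S ((1 + Dc) * U) hS (hSU.trans hUU) (hAU.trans hUU)
    (hNU.trans hUU)
    (hI.trans (Real.exp_le_exp.2 hUU)) (by
      rw [mul_pow]
      calc C * (N : ℝ) ^ Fintype.card ι * ((D : ℝ) + 1) ^ s.card *
            ((1 + Dc) ^ (Fintype.card η - s.card + 1) * U ^ (Fintype.card η - s.card + 1)) =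
            C * (1 + Dc) ^ (Fintype.card η - s.card + 1) * (N : ℝ) ^ Fintype.card ι *
            ((D : ℝ) + 1) ^ s.card * U ^ (Fintype.card η - s.card + 1) := by ring
        _ ≤ _ := hcard)
  refine ⟨c, hc1, hc2', fun x y hx hy => ?_⟩
  have k1 := hc3 x y hx hy
  have k2 : ∑ i, (c i : ℂ) * F i (T (x, y)) = Complex.exp (N * gaE T K lam x y) *
      ∑ i, (c i : ℂ) * (Complex.exp (-(N * gaE T K lam x y)) * F i (T (x, y))) := by
    rw [Finset.mul_sum]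
    refine Finset.sum_congr rfl fun i _ => ?_
    have k3 : Complex.exp (N * gaE T K lam x y) * Complex.exp (-(N * gaE T K lam x y)) = 1 := by
      rw [← Complex.exp_add, add_neg_cancel, Complex.exp_zero]
    calc (c i : ℂ) * F i (T (x, y)) = (Complex.exp (N * gaE T K lam x y) *
          Complex.exp (-(N * gaE T K lam x y))) * ((c i : ℂ) * F i (T (x, y))) := by
          rw [k3, one_mul]
      _ = _ := by ring
  rw [k2, norm_mul, Complex.norm_exp]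
  have k4 : (N * gaE T K lam x y).re ≤ U * Dc := by
    refine (Complex.re_le_norm _).trans ?_
    rw [norm_mul, Complex.norm_natCast]
    have k5 : ‖gaE T K lam x y‖ ≤ Dc := by
      refine (hG x y).trans (mul_le_mul_of_nonneg_left ?_ hC3)
      have k6 := pow_le_pow_left₀ (norm_nonneg _) hx 2
      have k7 := pow_le_pow_left₀ (norm_nonneg _) hy 2
      linarith
    exact mul_le_mul hNU k5 (norm_nonneg _) hU0
  calc Real.exp (N * gaE T K lam x y).re *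
        ‖∑ i, (c i : ℂ) * (Complex.exp (-(N * gaE T K lam x y)) * F i (T (x, y)))‖ ≤
        Real.exp (U * Dc) * Real.exp (-((1 + Dc) * U)) :=
        mul_le_mul (Real.exp_le_exp.2 k4) k1 (norm_nonneg _) (Real.exp_nonneg _)
    _ = Real.exp (-U) := by
        rw [← Real.exp_add]
        congr 1
        ring

end

end Pool.Agent.Helper93.LX
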