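import Pool.Agent.Helper93.LX.Xd

/-!
PROJECT LT2, block X, file Xe: the box principle for `e` copies.
-/

namespace Pool.Agent.Helper93.LX

open Pool.Agent.Helper53.LT

noncomputable section

section aux

variable {e : ℕ} {σ ι η : Type}

/-- `e` copies of a homomorphism. -/
private def xe_hom {X : Type} (f : (ι → ℤ) →+ (X → ℂ)) : (Fin e × ι → ℤ) →+ (Fin e × X → ℂ) where
  toFun b p := f (fun j => b (p.1, j)) p.2
  map_zero' := by
    funext p
    have h := congrFun (map_zero f) p.2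
    exact h
  map_add' b b' := by
    funext p
    have h := congrFun (map_add f (fun j => b (p.1, j)) (fun j => b' (p.1, j))) p.2
    exact h

/-- `e` copies of the linear map. -/
private def xe_lin (T : ((ι → ℂ) × (η → ℂ)) →ₗ[ℂ] (σ → ℂ)) :
    ((Fin e × ι → ℂ) × (Fin e × η → ℂ)) →ₗ[ℂ] (Fin e × σ → ℂ) where
  toFun xy p := T (fun j => xy.1 (p.1, j), fun k => xy.2 (p.1, k)) p.2
  map_add' xy xy' := by
    funext p
    have h := congrFun (map_add T (fun j => xy.1 (p.1, j), fun k => xy.2 (p.1, k))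
      (fun j => xy'.1 (p.1, j), fun k => xy'.2 (p.1, k))) p.2
    exact h
  map_smul' c xy := by
    funext p
    have h := congrFun (map_smul T c (fun j => xy.1 (p.1, j), fun k => xy.2 (p.1, k))) p.2
    exact h

private theorem xe_single {X : Type} [DecidableEq X] (a₀ a : Fin e) (j : X) :
    (fun j' => (Pi.single (a₀, j) (1 : ℂ) : Fin e × X → ℂ) (a, j')) =
      if a = a₀ then Pi.single j 1 else 0 := by
  funext j'
  by_cases ha : a = a₀
  · rw [if_pos ha, ha]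
    by_cases hj : j' = j
    · rw [hj, Pi.single_eq_same, Pi.single_eq_same]
    · rw [Pi.single_eq_of_ne hj, Pi.single_eq_of_ne]
      intro h
      exact hj (congrArg Prod.snd h)
  · rw [if_neg ha, Pi.single_eq_of_ne]
    · rfl
    · intro h
      exact ha (congrArg Prod.fst h)

/-- `e` copies of the vectors `v j` -/
private def xe_v (v : ι → σ → ℂ) (q : Fin e × ι) (p : Fin e × σ) : ℂ :=
  if p.1 = q.1 then v q.2 p.2 else 0

variable [Fintype σ]

private theorem xe_sum (v : ι → σ → ℂ) (q : Fin e × ι) (g : Fin e × σ → ℂ) :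
    ∑ p, g p * xe_v v q p = ∑ u, g (q.1, u) * v q.2 u := by
  rw [Fintype.sum_prod_type, Finset.sum_eq_single q.1]
  · refine Finset.sum_congr rfl fun u _ => ?_
    unfold xe_v
    rw [if_pos rfl]
  · intro a _ ha
    refine Finset.sum_eq_zero fun u _ => ?_
    unfold xe_v
    rw [if_neg ha, mul_zero]
  · intro h
    exact absurd (Finset.mem_univ _) h

private theorem xe_prod1 (f : Fin e → (σ → ℂ) → ℂ) (K : σ → ℂ) (v : ι → σ → ℂ) (c1 : ι → ℂ)
    (h1 : ∀ a j z, f a (z + v j) = Complex.exp ((∑ u, K u * v j u * z u) + c1 j) * f a z)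
    (q : Fin e × ι) (z : Fin e × σ → ℂ) :
    ∏ a, f a (fun u => (z + xe_v v q) (a, u)) =
      Complex.exp ((∑ p : Fin e × σ, K p.2 * xe_v v q p * z p) + c1 q.2) *
        ∏ a, f a (fun u => z (a, u)) := by
  have h2 : ∀ a, f a (fun u => (z + xe_v v q) (a, u)) =
      (if a = q.1 then Complex.exp ((∑ u, K u * v q.2 u * z (q.1, u)) + c1 q.2) else 1) *
        f a (fun u => z (a, u)) := by
    intro a
    by_cases ha : a = q.1
    · rw [if_pos ha, ha]
      have h3 : (fun u => (z + xe_v v q) (q.1, u)) = (fun u => z (q.1, u)) + v q.2 := by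
        funext u
        show z (q.1, u) + xe_v v q (q.1, u) = z (q.1, u) + v q.2 u
        unfold xe_v
        rw [if_pos rfl]
      rw [h3, h1]
    · rw [if_neg ha, one_mul]
      congr 1
      funext u
      show z (a, u) + xe_v v q (a, u) = z (a, u)
      unfold xe_v
      rw [if_neg ha, add_zero]
  have h4 : ∑ p : Fin e × σ, K p.2 * xe_v v q p * z p = ∑ u, K u * v q.2 u * z (q.1, u) := by
    have h5 := xe_sum v q (fun p => K p.2 * z p)
    calc _ = ∑ p : Fin e × σ, (K p.2 * z p) * xe_v v q p :=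
          Finset.sum_congr rfl fun p _ => by ring
      _ = _ := h5
      _ = _ := Finset.sum_congr rfl fun u _ => by ring
  rw [Finset.prod_congr rfl fun a _ => h2 a, Finset.prod_mul_distrib, Finset.prod_ite_eq',
    if_pos (Finset.mem_univ _), h4]

private theorem xe_prod2 (f : Fin e → (σ → ℂ) → ℂ) (K : σ → ℂ) (w : (ι → ℤ) →+ (σ → ℂ))
    (c2 : (ι → ℤ) → ℂ)
    (h2 : ∀ a b z, f a (z + w b) = Complex.exp (-(∑ u, K u * w b u * z u) + c2 b) * f a z)
    (b : Fin e × ι → ℤ) (z : Fin e × σ → ℂ) :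
    ∏ a, f a (fun u => (z + xe_hom w b) (a, u)) =
      Complex.exp (-(∑ p : Fin e × σ, K p.2 * xe_hom w b p * z p) +
        ∑ a, c2 (fun j => b (a, j))) * ∏ a, f a (fun u => z (a, u)) := by
  have h3 : ∀ a, f a (fun u => (z + xe_hom w b) (a, u)) =
      Complex.exp (-(∑ u, K u * w (fun j => b (a, j)) u * z (a, u)) + c2 (fun j => b (a, j))) *
        f a (fun u => z (a, u)) := fun a => h2 a (fun j => b (a, j)) (fun u => z (a, u))
  rw [Finset.prod_congr rfl fun a _ => h3 a, Finset.prod_mul_distrib, ← Complex.exp_sum]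
  congr 2
  rw [Finset.sum_add_distrib, Finset.sum_neg_distrib, Fintype.sum_prod_type]
  rfl

private theorem xe_norm {X E : Type} [Fintype X] [SeminormedAddCommGroup E] (z : Fin e × X → E)
    (a : Fin e) : ‖fun u => z (a, u)‖ ≤ ‖z‖ :=
  (pi_norm_le_iff_of_nonneg (norm_nonneg _)).2 fun u => norm_le_pi_norm z (a, u)

private theorem xe_growth (f : Fin e → (σ → ℂ) → ℂ) (A C0 : ℝ)
    (h : ∀ a z, ‖f a z‖ ≤ Real.exp (A + C0 * (1 + ‖z‖ ^ 2))) (z : Fin e × σ → ℂ) :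
    ‖∏ a, f a (fun u => z (a, u))‖ ≤ Real.exp (e * A + e * |C0| * (1 + ‖z‖ ^ 2)) := by
  rw [norm_prod]
  have h1 : ∀ a : Fin e, ‖f a (fun u => z (a, u))‖ ≤ Real.exp (A + |C0| * (1 + ‖z‖ ^ 2)) := by
    intro a
    refine (h a _).trans (Real.exp_le_exp.2 ?_)
    have h2 : ‖fun u => z (a, u)‖ ^ 2 ≤ ‖z‖ ^ 2 := pow_le_pow_left₀ (norm_nonneg _) (xe_norm z a) 2
    have h3 : C0 * (1 + ‖fun u => z (a, u)‖ ^ 2) ≤ |C0| * (1 + ‖fun u => z (a, u)‖ ^ 2) :=
      mul_le_mul_of_nonneg_right (le_abs_self _) (by positivity)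
    have h4 : |C0| * (1 + ‖fun u => z (a, u)‖ ^ 2) ≤ |C0| * (1 + ‖z‖ ^ 2) :=
      mul_le_mul_of_nonneg_left (by linarith) (abs_nonneg _)
    linarith
  calc ∏ a, ‖f a (fun u => z (a, u))‖ ≤ ∏ _a : Fin e, Real.exp (A + |C0| * (1 + ‖z‖ ^ 2)) :=
        Finset.prod_le_prod (fun a _ => norm_nonneg _) fun a _ => h1 a
    _ = Real.exp (e * A + e * |C0| * (1 + ‖z‖ ^ 2)) := by
        rw [Finset.prod_const, Finset.card_univ, Fintype.card_fin, ← Real.exp_nat_mul]
        congr 1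
        ring

private theorem xe_poly (f : Fin e → (σ → ℂ) → ℂ) (A C0 : ℝ)
    (h : ∀ a z, ‖f a z‖ ≤ Real.exp (A + C0 * (1 + ‖z‖ ^ 2))) (D : ℕ) (g : σ → ℂ)
    (hp : ∀ a, ∀ R : ℝ, ∃ B : ℝ, ∀ (z : σ → ℂ) (t : ℂ), ‖z‖ ≤ R →
      ‖f a (z + t • g)‖ ≤ B * (1 + ‖t‖) ^ D) (a₀ : Fin e) (R : ℝ) :
    ∃ B : ℝ, ∀ (z : Fin e × σ → ℂ) (t : ℂ), ‖z‖ ≤ R →
      ‖∏ a, f a (fun u => (z + t • (fun p : Fin e × σ => if p.1 = a₀ then g p.2 else 0)) (a, u))‖ ≤
        B * (1 + ‖t‖) ^ D := by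
  obtain ⟨B, hB⟩ := hp a₀ R
  refine ⟨∏ a : Fin e, (if a = a₀ then B else Real.exp (A + |C0| * (1 + R ^ 2))),
    fun z t hz => ?_⟩
  have hR : 0 ≤ R := (norm_nonneg _).trans hz
  rw [norm_prod]
  have h1 : ∀ a : Fin e,
      ‖f a (fun u => (z + t • (fun p : Fin e × σ => if p.1 = a₀ then g p.2 else 0)) (a, u))‖ ≤
        (if a = a₀ then B else Real.exp (A + |C0| * (1 + R ^ 2))) *
          (if a = a₀ then (1 + ‖t‖) ^ D else 1) := by
    intro a
    by_cases ha : a = a₀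
    · rw [if_pos ha, if_pos ha, ha]
      have h2 : (fun u => (z + t • (fun p : Fin e × σ => if p.1 = a₀ then g p.2 else 0))
          (a₀, u)) = (fun u => z (a₀, u)) + t • g := by
        funext u
        show z (a₀, u) + t • (if a₀ = a₀ then g u else 0) = z (a₀, u) + t • g u
        rw [if_pos rfl]
      rw [h2]
      exact hB _ t ((xe_norm z a₀).trans hz)
    · rw [if_neg ha, if_neg ha, mul_one]
      have h2 : (fun u => (z + t • (fun p : Fin e × σ => if p.1 = a₀ then g p.2 else 0))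
          (a, u)) = fun u => z (a, u) := by
        funext u
        show z (a, u) + t • (if a = a₀ then g u else 0) = z (a, u)
        rw [if_neg ha, smul_zero, add_zero]
      rw [h2]
      refine (h a _).trans (Real.exp_le_exp.2 ?_)
      have h3 : ‖fun u => z (a, u)‖ ^ 2 ≤ R ^ 2 :=
        pow_le_pow_left₀ (norm_nonneg _) ((xe_norm z a).trans hz) 2
      have h4 : C0 * (1 + ‖fun u => z (a, u)‖ ^ 2) ≤ |C0| * (1 + ‖fun u => z (a, u)‖ ^ 2) :=
        mul_le_mul_of_nonneg_right (le_abs_self _) (by positivity)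
      have h5 : |C0| * (1 + ‖fun u => z (a, u)‖ ^ 2) ≤ |C0| * (1 + R ^ 2) :=
        mul_le_mul_of_nonneg_left (by linarith) (abs_nonneg _)
      linarith
  calc _ ≤ ∏ a : Fin e, ((if a = a₀ then B else Real.exp (A + |C0| * (1 + R ^ 2))) *
          (if a = a₀ then (1 + ‖t‖) ^ D else 1)) :=
        Finset.prod_le_prod (fun a _ => norm_nonneg _) fun a _ => h1 a
    _ = _ := by
        rw [Finset.prod_mul_distrib, Finset.prod_ite_eq', if_pos (Finset.mem_univ _)]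

private theorem xe_diff (f : Fin e → (σ → ℂ) → ℂ) (h : ∀ a, Differentiable ℂ (f a)) :
    Differentiable ℂ (fun z : Fin e × σ → ℂ => ∏ a, f a (fun u => z (a, u))) := by
  intro z
  have h2 : ∀ a, DifferentiableAt ℂ (fun z : Fin e × σ → ℂ => f a (fun u => z (a, u))) z :=
    fun a => ((h a).comp (differentiable_pi.2 fun u => differentiable_apply (a, u))) z
  exact (HasFDerivAt.finsetProd (u := Finset.univ)
    (g := fun a (z : Fin e × σ → ℂ) => f a (fun u => z (a, u)))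
    (fun a _ => (h2 a).hasFDerivAt)).differentiableAt

end aux

/-- Proof. `B15P` for the copies `σ' = Fin e × σ`, `ι' = Fin e × ι`, `η' = Fin e × η`, `N = 1`:
`T' (x, y) (a, u) = T (x (a, ·), y (a, ·)) u`, `K' (a, u) = K u`,
`v' (a, j) (a', u) = if a' = a then v j u else 0`, `w' b (a, u) = w (b (a, ·)) u`, `α'`, `β'` likewise,
`s' = Finset.univ ×ˢ s`, `c1' (a, j) = c1 j`, `c2' b = ∑ a, c2 (b (a, ·))`, `C0' = e |C0|`,
`F1' z = ∏ a, F1 (z (a, ·))`, and for `κ : Fin e → I` the function `F κ z = ∏ a, φ (κ a) (z (a, ·))`.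
* `hM'`: the sum over `(a', u)` for the index `(a, j)` is `∑ u, K u * w (b (a, ·)) u * v j u`.
* `hK'`: `T' (0, Pi.single (a, k) 1)` is `T (0, Pi.single k 1)` in block `a` and `0` in the others
  (`T (0, 0) = 0`).
* quasi-periodicity: adding `v' (a, j)` changes only the factor `a`; adding `w' b` changes each factor, the
  exponents add up (`Complex.exp_sum`, `Fintype.sum_prod_type`, `Finset.prod_mul_distrib`).
* growth: `∏ a exp (A + C0 (1 + ‖z (a, ·)‖^2)) ≤ exp (e A + e |C0| (1 + ‖z‖^2))` (`‖z (a, ·)‖ ≤ ‖z‖`), so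
  `A' = e A`; polynomial bound: only the factor `a` depends on `t` (bound `B (1 + ‖t‖)^D`), the others are
  bounded on `‖z‖ ≤ R` by `exp (A + |C0| (1 + R^2))`.
* `U' = e U` (`e ≥ 1`): `e A ≤ e U`, `card (Fin e → I) = (card I)^e ≤ exp U ≤ exp U'`; `s'.card = e s.card`,
  `card η' - s'.card = e (card η - s.card)`; the constant is `C * e^(e (card η - s.card) + 1)`.
* `x' (a, j) = x a j`: `‖x'‖ ≤ R0` from `∀ a, ‖x a‖ ≤ R0` and `0 ≤ R0` (if `R0 < 0` there is no such `x`,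
  `e ≥ 1`, so the last claim is empty; or use `max R0 0`). -/
theorem BXE {σ ι η : Type} [Fintype σ] [Fintype ι] [Fintype η] [DecidableEq ι] [DecidableEq η]
    (e : ℕ) (he : 1 ≤ e)
    (T : ((ι → ℂ) × (η → ℂ)) →ₗ[ℂ] (σ → ℂ)) (K : σ → ℂ) (v : ι → σ → ℂ)
    (hv : ∀ j, T (Pi.single j 1, 0) = v j) (w : (ι → ℤ) →+ (σ → ℂ))
    (α : (ι → ℤ) →+ (ι → ℂ)) (β : (ι → ℤ) →+ (η → ℂ)) (hw : ∀ b, T (α b, β b) = w b)
    (hM : ∀ b : ι → ℤ, (∀ j, ∑ u, K u * w b u * v j u = 0) → b = 0)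
    (s : Finset η) (hK : ∀ k ∈ s, ∀ u, K u * T (0, Pi.single k 1) u = 0)
    (c1 : ι → ℂ) (c2 : (ι → ℤ) → ℂ) (C0 R0 : ℝ) (hc2 : ∀ b, (c2 b).re ≤ C0 * (1 + ‖b‖ ^ 2))
    (F1 : (σ → ℂ) → ℂ)
    (h1 : ∀ j z, F1 (z + v j) = Complex.exp ((∑ u, K u * v j u * z u) + c1 j) * F1 z)
    (h2 : ∀ b z, F1 (z + w b) = Complex.exp (-(∑ u, K u * w b u * z u) + c2 b) * F1 z)
    (h3 : F1 0 ≠ 0) :
    ∃ C : ℝ, 0 < C ∧ ∀ (D : ℕ) (I : Type) [Fintype I] (φ : I → (σ → ℂ) → ℂ),
      (∀ i, Differentiable ℂ (φ i)) →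
      (∀ i j z, φ i (z + v j) = Complex.exp ((∑ u, K u * v j u * z u) + c1 j) * φ i z) →
      (∀ i b z, φ i (z + w b) = Complex.exp (-(∑ u, K u * w b u * z u) + c2 b) * φ i z) →
      (∀ i, ∀ k ∈ s, ∀ R : ℝ, ∃ B : ℝ, ∀ (z : σ → ℂ) (t : ℂ), ‖z‖ ≤ R →
        ‖φ i (z + t • T (0, Pi.single k 1))‖ ≤ B * (1 + ‖t‖) ^ D) →
      ∀ A : ℝ, (∀ i z, ‖φ i z‖ ≤ Real.exp (A + C0 * (1 + ‖z‖ ^ 2))) →
      ∀ S U : ℝ, 1 ≤ S → S ≤ U → A ≤ U → (Fintype.card I : ℝ) ^ e ≤ Real.exp U →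
      C * ((D : ℝ) + 1) ^ (e * s.card) * U ^ (e * (Fintype.card η - s.card) + 1) ≤
        (Fintype.card I : ℝ) ^ e * S →
      ∃ c : (Fin e → I) → ℤ, c ≠ 0 ∧ (∀ i, |(c i : ℝ)| ≤ Real.exp S) ∧
        ∀ (x : Fin e → ι → ℂ) (y : Fin e → η → ℂ), (∀ a, ‖x a‖ ≤ R0) → (∀ a, ‖y a‖ ≤ R0) →
          ‖∑ κ, (c κ : ℂ) * ∏ a, φ (κ a) (T (x a, y a))‖ ≤ Real.exp (-U) := by
  classical
  obtain ⟨T', hT'⟩ : ∃ T' : ((Fin e × ι → ℂ) × (Fin e × η → ℂ)) →ₗ[ℂ] (Fin e × σ → ℂ),
      T' = xe_lin T := ⟨_, rfl⟩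
  have hTa : ∀ x y (p : Fin e × σ), T' (x, y) p =
      T (fun j => x (p.1, j), fun k => y (p.1, k)) p.2 := by
    intro x y p
    rw [hT']
    rfl
  have hT0 : T (0, 0) = 0 := map_zero T
  have hTs : ∀ k : Fin e × η, T' (0, Pi.single k 1) =
      fun p : Fin e × σ => if p.1 = k.1 then T (0, Pi.single k.2 1) p.2 else 0 := by
    intro k
    funext p
    rw [hTa, show (Pi.single k (1 : ℂ) : Fin e × η → ℂ) = Pi.single (k.1, k.2) 1 from rfl,
      xe_single k.1 p.1 k.2]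
    by_cases hp : p.1 = k.1
    · rw [if_pos hp, if_pos hp]
      rfl
    · rw [if_neg hp, if_neg hp]
      exact congrFun hT0 p.2
  have hv' : ∀ q : Fin e × ι, T' (Pi.single q 1, 0) = xe_v v q := by
    intro q
    funext p
    rw [hTa, show (Pi.single q (1 : ℂ) : Fin e × ι → ℂ) = Pi.single (q.1, q.2) 1 from rfl,
      xe_single q.1 p.1 q.2]
    unfold xe_v
    by_cases hp : p.1 = q.1
    · rw [if_pos hp, if_pos hp, ← hv]
      rfl
    · rw [if_neg hp, if_neg hp]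
      exact congrFun hT0 p.2
  have hw' : ∀ b : Fin e × ι → ℤ, T' (xe_hom α b, xe_hom β b) = xe_hom w b := by
    intro b
    funext p
    rw [hTa]
    exact congrFun (hw (fun j => b (p.1, j))) p.2
  have hM' : ∀ b : Fin e × ι → ℤ,
      (∀ q, ∑ p : Fin e × σ, K p.2 * xe_hom w b p * xe_v v q p = 0) → b = 0 := by
    intro b hb
    funext q
    have h4 : (fun j => b (q.1, j)) = 0 := by
      refine hM _ fun j => ?_
      have h5 := hb (q.1, j)
      rw [xe_sum v (q.1, j) (fun p : Fin e × σ => K p.2 * xe_hom w b p)] at h5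
      exact h5
    exact congrFun h4 q.2
  obtain ⟨s', hs'⟩ : ∃ s' : Finset (Fin e × η), s' = Finset.univ ×ˢ s := ⟨_, rfl⟩
  have hK' : ∀ k ∈ s', ∀ p : Fin e × σ, K p.2 * T' (0, Pi.single k 1) p = 0 := by
    intro k hk p
    rw [hs', Finset.mem_product] at hk
    rw [hTs]
    simp only
    split_ifs
    · exact hK k.2 hk.2 p.2
    · exact mul_zero _
  have hc2' : ∀ b : Fin e × ι → ℤ, (∑ a : Fin e, c2 (fun j => b (a, j))).re ≤
      (e * |C0|) * (1 + ‖b‖ ^ 2) := by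
    intro b
    rw [Complex.re_sum]
    have h4 : ∀ a : Fin e, (c2 (fun j => b (a, j))).re ≤ |C0| * (1 + ‖b‖ ^ 2) := by
      intro a
      refine (hc2 _).trans ?_
      have h5 : ‖fun j => b (a, j)‖ ^ 2 ≤ ‖b‖ ^ 2 :=
        pow_le_pow_left₀ (norm_nonneg _) (xe_norm b a) 2
      have h6 : C0 * (1 + ‖fun j => b (a, j)‖ ^ 2) ≤ |C0| * (1 + ‖fun j => b (a, j)‖ ^ 2) :=
        mul_le_mul_of_nonneg_right (le_abs_self _) (by positivity)
      exact h6.trans (mul_le_mul_of_nonneg_left (by linarith) (abs_nonneg _))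
    calc _ ≤ ∑ _a : Fin e, |C0| * (1 + ‖b‖ ^ 2) := Finset.sum_le_sum fun a _ => h4 a
      _ = _ := by
        rw [Finset.sum_const, Finset.card_univ, Fintype.card_fin, nsmul_eq_mul]
        ring
  obtain ⟨C', hC', hmain⟩ := B15P T' (fun p => K p.2) (xe_v v) hv' (xe_hom w) (xe_hom α) (xe_hom β)
    hw' hM' s' hK' (fun q => c1 q.2) (fun b => ∑ a : Fin e, c2 (fun j => b (a, j)))
    (e * |C0|) (max R0 0) hc2' (fun z => ∏ _a : Fin e, F1 (fun u => z (_a, u)))
    (fun q z => xe_prod1 (fun _ => F1) K v c1 (fun _ => h1) q z)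
    (fun b z => xe_prod2 (fun _ => F1) K w c2 (fun _ => h2) b z)
    (Finset.prod_ne_zero_iff.2 fun a _ => h3)
  have he1 : (1 : ℝ) ≤ e := by exact_mod_cast he
  have he0 : (0 : ℝ) < e := by linarith
  refine ⟨C' * (e : ℝ) ^ (e * (Fintype.card η - s.card) + 1), by positivity, ?_⟩
  intro D I _ φ hd hq1 hq2 hpoly A hgr S U hS hSU hAU hcard hineq
  have hU1 : 1 ≤ U := hS.trans hSU
  have hUe : U ≤ e * U := le_mul_of_one_le_left (by linarith) he1
  have hcardJ : (Fintype.card (Fin e → I) : ℝ) = (Fintype.card I : ℝ) ^ e := by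
    rw [Fintype.card_fun, Fintype.card_fin, Nat.cast_pow]
  have hcs : s'.card = e * s.card := by
    rw [hs', Finset.card_product, Finset.card_univ, Fintype.card_fin]
  have hcη : Fintype.card (Fin e × η) - s'.card = e * (Fintype.card η - s.card) := by
    rw [hcs, Fintype.card_prod, Fintype.card_fin, Nat.mul_sub]
  obtain ⟨c, hc0, hcS, hcb⟩ := hmain D 1 le_rfl (Fin e → I)
    (fun κ z => ∏ a, φ (κ a) (fun u => z (a, u)))
    (fun κ => xe_diff (fun a => φ (κ a)) fun a => hd (κ a))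
    (fun κ q z => by
      rw [Nat.cast_one, one_mul]
      exact xe_prod1 (fun a => φ (κ a)) K v c1 (fun a => hq1 (κ a)) q z)
    (fun κ b z => by
      rw [Nat.cast_one, one_mul]
      exact xe_prod2 (fun a => φ (κ a)) K w c2 (fun a => hq2 (κ a)) b z)
    (fun κ k hk R => by
      rw [hs', Finset.mem_product] at hk
      rw [hTs]
      exact xe_poly (fun a => φ (κ a)) A C0 (fun a => hgr (κ a)) D _
        (fun a => hpoly (κ a) k.2 hk.2) k.1 R)
    (e * A)
    (fun κ z => by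
      rw [Nat.cast_one, mul_one]
      exact xe_growth (fun a => φ (κ a)) A C0 (fun a => hgr (κ a)) z)
    S (e * U) hS (hSU.trans hUe) (mul_le_mul_of_nonneg_left hAU he0.le)
    (by rw [Nat.cast_one]; linarith)
    (by
      rw [hcardJ]
      exact hcard.trans (Real.exp_le_exp.2 hUe))
    (by
      rw [hcardJ, hcη, hcs, Nat.cast_one, one_pow, mul_one]
      refine le_trans (le_of_eq ?_) hineq
      rw [mul_pow]
      ring)
  refine ⟨c, hc0, hcS, fun x y hx hy => ?_⟩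
  have h4 := hcb (fun q => x q.1 q.2) (fun q => y q.1 q.2)
    ((pi_norm_le_iff_of_nonneg (le_max_right _ _)).2 fun q =>
      (norm_le_pi_norm (x q.1) q.2).trans ((hx q.1).trans (le_max_left _ _)))
    ((pi_norm_le_iff_of_nonneg (le_max_right _ _)).2 fun q =>
      (norm_le_pi_norm (y q.1) q.2).trans ((hy q.1).trans (le_max_left _ _)))
  have h5 : ∀ a : Fin e, (fun u => T' (fun q => x q.1 q.2, fun q => y q.1 q.2) (a, u)) =
      T (x a, y a) := by
    intro a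
    funext u
    rw [hTa]
  simp only [h5] at h4
  exact h4.trans (Real.exp_le_exp.2 (by linarith))

end

end Pool.Agent.Helper93.LX
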