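import Mathlib

/-!
PROJECT LT2, block X, file Xf: coordinates.  `σ` = the units mod `q`, `ν u = -u`, `H` a half system
(the first CM type), `θ u = ζ^u + ζ^(-u)`, `τ u = ζ^u - ζ^(-u)`, `V` = the places `u` which are in neither
CM type (there the functions are polynomials).
-/

namespace Pool.Agent.Helper93.LX

noncomputable section

/-- the antireal lattice vector of index `b` -/
def wI {σ : Type} (g : ℕ) (θ τ : σ → ℂ) (b : Fin g → ℤ) : σ → ℂ :=
  fun u => τ u * ∑ k, (b k : ℂ) * θ u ^ (k : ℕ)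

/-- Proof. `θ` is injective on `H` and `H.card = g`: the square matrix `(θ_p^j)_{p ∈ H, j < g}` is invertible
(`Matrix.det_vandermonde_ne_zero_iff` after the choice of an equivalence `Fin g ≃ H`, `H.equivFin` with `hg`). -/
theorem vand {σ : Type} (H : Finset σ) (g : ℕ) (hg : H.card = g) (θ : σ → ℂ)
    (hθi : ∀ u ∈ H, ∀ v ∈ H, θ u = θ v → u = v) :
    ∃ A : (H → ℂ) ≃ₗ[ℂ] (Fin g → ℂ),
      (∀ X : H → ℂ, ∀ p : H, ∑ j : Fin g, A X j * θ p ^ (j : ℕ) = X p) ∧
      (∀ Y : H → ℂ, (∀ j : Fin g, ∑ p : H, Y p * θ p ^ (j : ℕ) = 0) → Y = 0) := by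
  classical
  obtain ⟨e⟩ : Nonempty (Fin g ≃ H) := ⟨(H.equivFinOfCardEq hg).symm⟩
  obtain ⟨M, hM⟩ : ∃ M : Matrix (Fin g) (Fin g) ℂ,
    M = Matrix.vandermonde (fun i => θ (e i)) := ⟨_, rfl⟩
  have hMij : ∀ i j, M i j = θ (e i) ^ (j : ℕ) := fun i j => by rw [hM]; rfl
  have hdet : M.det ≠ 0 := by
    rw [hM, Matrix.det_vandermonde_ne_zero_iff]
    intro i j hij
    exact e.injective (Subtype.ext (hθi _ (e i).2 _ (e j).2 hij))
  have hinj : Function.Injective (Matrix.toLin' M) := by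
    rw [← LinearMap.ker_eq_bot, Matrix.ker_toLin'_eq_bot_iff]
    intro v hv
    exact Matrix.eq_zero_of_mulVec_eq_zero hdet hv
  let E0 : (Fin g → ℂ) ≃ₗ[ℂ] (Fin g → ℂ) := LinearEquiv.ofInjectiveEndo (Matrix.toLin' M) hinj
  have hE0 : ∀ x, E0 x = M.mulVec x := fun x => by
    simp [E0, LinearEquiv.coe_ofInjectiveEndo, Matrix.toLin'_apply]
  refine ⟨(LinearEquiv.funCongrLeft ℂ ℂ e).trans E0.symm, fun X p => ?_, fun Y hY => ?_⟩
  · have h1 : M.mulVec (E0.symm (LinearEquiv.funCongrLeft ℂ ℂ e X)) = fun i => X (e i) := by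
      rw [← hE0, LinearEquiv.apply_symm_apply]
      rfl
    have h2 := congrFun h1 (e.symm p)
    simp only [Equiv.apply_symm_apply] at h2
    rw [← h2]
    simp only [Matrix.mulVec, dotProduct, hMij, Equiv.apply_symm_apply, LinearEquiv.trans_apply]
    exact Finset.sum_congr rfl fun j _ => mul_comm _ _
  · have h1 : Matrix.vecMul (fun i => Y (e i)) M = 0 := by
      funext j
      simp only [Matrix.vecMul, dotProduct, hMij, Pi.zero_apply]
      rw [← hY j]
      exact Equiv.sum_comp e fun p : H => Y p * θ p ^ (j : ℕ)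
    have h2 := Matrix.eq_zero_of_vecMul_eq_zero hdet h1
    funext p
    have h3 := congrFun h2 (e.symm p)
    simpa using h3

/-- Proof. `A` from `vand` (`A X` = the coefficients of the polynomial with values `X p` at `θ p`).
`η = {p // p ∈ H}`, `s = {p | ν p ∈ V}` (`card s = card V`: `p ↦ ν p` is a bijection `s → V`, since
`v ∈ V` is not in `H`, so `ν v ∈ H` and `ν (ν v) = v ∈ V`). `card η = H.card = g`.
`T (x, y) u = ∑_j x_j θ_u^j + (if u ∈ H then (if ν u ∈ V then 0 else y_u) else (if u ∈ V then y_(ν u) else -y_(ν u)))`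
(for `u ∉ H`, `ν u ∈ H`; for `u ∈ H` in the first case `ν u ∈ V`). `w b = wI g θ τ b`, additive in `b`.
`β b p = if ν p ∈ V then -2 w_b(p) else w_b(p)`; `α b = A X_b`, `X_b p = if ν p ∈ V then w_b(p) else 0`.
* `T (α b, β b) = w b`: `u = p ∈ H`, `ν p ∈ V`: `w_b(p) + 0`; its partner `ν p`: `θ_(ν p) = θ_p`, so
  `w_b(p) - 2 w_b(p) = -w_b(p) = w_b(ν p)` (`hτ`, `hθ`); `p ∈ H`, `ν p ∉ V`: `0 + w_b(p)`; its partner:
  `0 - w_b(p) = w_b(ν p)`.
* `hM`: pairing `u` with `ν u` (`∑_u f u = ∑_{p ∈ H} (f p + f (ν p))`, as `ν` maps `H` onto its complement):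
  `∑_u K_u w_b(u) θ_u^j = ∑_{p ∈ H} (K_p - K_(ν p)) w_b(p) θ_p^j = 0` for all `j`, so by the second part of
  `vand` `(K_p - K_(ν p)) w_b(p) = 0`, so `w_b(p) = 0` (`hK`), `∑_k b_k θ_p^k = 0` for all `p ∈ H` (`hτ0`).
  The complex vector `x = (b_k)` has `∑_k x_k θ_p^k = 0` for all `p`, so `x = A 0 = 0`
  (`A` is onto: `x = A X`, `X p = ∑_j x_j θ_p^j = 0`). So `b = 0`.
* `K_u * T (0, single p 1) u = 0` for `p ∈ s`: `T (0, single p 1) = single (ν p) 1` and `K_(ν p) = 0` (`hV`).
* last claim: `z` given, `X p = if ν p ∈ V then z_p else (z_p + z_(ν p))/2`, `x = A X`,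
  `y_p = if ν p ∈ V then z_(ν p) - z_p else (z_p - z_(ν p))/2`; `‖y‖ ≤ 2`, `‖x‖ ≤ ‖A‖ ‖X‖` (continuous linear
  map in finite dimension, `LinearMap.toContinuousLinearMap`). -/
theorem coordI {σ : Type} [Fintype σ] [DecidableEq σ] (ν : σ → σ) (hν : ∀ u, ν (ν u) = u)
    (H : Finset σ) (hH : ∀ u, u ∈ H ↔ ν u ∉ H) (g : ℕ) (hg : H.card = g)
    (θ τ : σ → ℂ) (hθ : ∀ u, θ (ν u) = θ u) (hθi : ∀ u ∈ H, ∀ v ∈ H, θ u = θ v → u = v)
    (hτ : ∀ u, τ (ν u) = -τ u) (hτ0 : ∀ u, τ u ≠ 0)
    (K : σ → ℂ) (hK : ∀ u, K u ≠ K (ν u))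
    (V : Finset σ) (hV : ∀ u ∈ V, u ∉ H ∧ K u = 0) :
    ∃ (η : Type) (_ : Fintype η) (_ : DecidableEq η)
      (T : ((Fin g → ℂ) × (η → ℂ)) →ₗ[ℂ] (σ → ℂ))
      (w : (Fin g → ℤ) →+ (σ → ℂ)) (α : (Fin g → ℤ) →+ (Fin g → ℂ))
      (β : (Fin g → ℤ) →+ (η → ℂ)) (s : Finset η) (R0 : ℝ),
      Fintype.card η = g ∧ s.card = V.card ∧
      (∀ j : Fin g, T (Pi.single j 1, 0) = fun u => θ u ^ (j : ℕ)) ∧
      (∀ b, w b = wI g θ τ b) ∧
      (∀ b, T (α b, β b) = w b) ∧
      (∀ b : Fin g → ℤ, (∀ j : Fin g, ∑ u, K u * w b u * θ u ^ (j : ℕ) = 0) → b = 0) ∧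
      (∀ k ∈ s, ∀ u, K u * T (0, Pi.single k 1) u = 0) ∧
      (∀ k ∈ s, ∃ v ∈ V, T (0, Pi.single k 1) = Pi.single v 1) ∧
      (∀ z : σ → ℂ, ‖z‖ ≤ 1 → ∃ x y, ‖x‖ ≤ R0 ∧ ‖y‖ ≤ R0 ∧ T (x, y) = z) := by
  classical
  obtain ⟨A, hA1, hA2⟩ := vand H g hg θ hθi
  have hν' : ∀ u, u ∉ H → ν u ∈ H := fun u hu => by
    by_contra h
    exact hu ((hH u).2 h)
  have hν'' : ∀ u, u ∈ H → ν u ∉ H := fun u hu => (hH u).1 hu
  let T : ((Fin g → ℂ) × ({p // p ∈ H} → ℂ)) →ₗ[ℂ] (σ → ℂ) :=
    { toFun := fun x u => ∑ j : Fin g, x.1 j * θ u ^ (j : ℕ) +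
        (if hu : u ∈ H then (if ν u ∈ V then 0 else x.2 ⟨u, hu⟩)
          else (if u ∈ V then x.2 ⟨ν u, hν' u hu⟩ else -x.2 ⟨ν u, hν' u hu⟩))
      map_add' := by
        intro x y
        funext u
        simp only [Prod.fst_add, Prod.snd_add, Pi.add_apply, add_mul, Finset.sum_add_distrib]
        split_ifs <;> ring
      map_smul' := by
        intro c x
        funext u
        simp only [Prod.smul_fst, Prod.smul_snd, Pi.smul_apply, smul_eq_mul, RingHom.id_apply,
          mul_assoc, ← Finset.mul_sum]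
        split_ifs <;> ring }
  have hT1 : ∀ (x : Fin g → ℂ) (y : {p // p ∈ H} → ℂ) (u : σ) (hu : u ∈ H),
      T (x, y) u = ∑ j : Fin g, x j * θ u ^ (j : ℕ) + (if ν u ∈ V then 0 else y ⟨u, hu⟩) := by
    intro x y u hu
    change ∑ j : Fin g, x j * θ u ^ (j : ℕ) + _ = _
    rw [dif_pos hu]
  have hT2 : ∀ (x : Fin g → ℂ) (y : {p // p ∈ H} → ℂ) (u : σ) (hu : u ∉ H),
      T (x, y) u = ∑ j : Fin g, x j * θ u ^ (j : ℕ) +
        (if u ∈ V then y ⟨ν u, hν' u hu⟩ else -y ⟨ν u, hν' u hu⟩) := by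
    intro x y u hu
    change ∑ j : Fin g, x j * θ u ^ (j : ℕ) + _ = _
    rw [dif_neg hu]
  have hX1 : ∀ (X : {p // p ∈ H} → ℂ) (u : σ) (hu : u ∈ H),
      ∑ j : Fin g, A X j * θ u ^ (j : ℕ) = X ⟨u, hu⟩ := fun X u hu => hA1 X ⟨u, hu⟩
  have hX2 : ∀ (X : {p // p ∈ H} → ℂ) (u : σ) (hu : u ∉ H),
      ∑ j : Fin g, A X j * θ u ^ (j : ℕ) = X ⟨ν u, hν' u hu⟩ := by
    intro X u hu
    rw [← hA1 X ⟨ν u, hν' u hu⟩]
    refine Finset.sum_congr rfl fun j _ => ?_
    rw [← hθ u]
  have hwν : ∀ (b : Fin g → ℤ) (u : σ), wI g θ τ b (ν u) = -wI g θ τ b u := by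
    intro b u
    simp only [wI, hθ, hτ]
    ring
  let w : (Fin g → ℤ) →+ (σ → ℂ) :=
    { toFun := fun b => wI g θ τ b
      map_zero' := by
        funext u
        simp [wI]
      map_add' := by
        intro a b
        funext u
        simp only [wI, Pi.add_apply, Int.cast_add, add_mul, Finset.sum_add_distrib, mul_add] }
  have hw : ∀ b, w b = wI g θ τ b := fun b => rfl
  let XL : (Fin g → ℤ) →+ ({p // p ∈ H} → ℂ) :=
    { toFun := fun b p => if ν p ∈ V then w b p else 0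
      map_zero' := by
        funext p
        simp
      map_add' := by
        intro a b
        funext p
        simp only [map_add, Pi.add_apply]
        split_ifs <;> simp }
  let α : (Fin g → ℤ) →+ (Fin g → ℂ) := A.toLinearMap.toAddMonoidHom.comp XL
  have hα : ∀ b, α b = A (fun p => if ν p ∈ V then w b p else 0) := fun b => rfl
  let β : (Fin g → ℤ) →+ ({p // p ∈ H} → ℂ) :=
    { toFun := fun b p => if ν p ∈ V then -2 * w b p else w b p
      map_zero' := by
        funext p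
        simp
      map_add' := by
        intro a b
        funext p
        simp only [map_add, Pi.add_apply]
        split_ifs <;> ring }
  have hβ : ∀ b p, β b p = if ν p ∈ V then -2 * w b p else w b p := fun b p => rfl
  let s : Finset {p // p ∈ H} := Finset.univ.filter fun p => ν p ∈ V
  have hs : ∀ p, p ∈ s ↔ ν p ∈ V := fun p => by simp [s]
  have hsingle : ∀ k ∈ s, T (0, Pi.single k 1) = Pi.single (ν k) 1 := by
    intro k hk
    have hkV := (hs k).1 hk
    funext u
    by_cases hu : u ∈ H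
    · rw [hT1 _ _ u hu]
      have hne : u ≠ ν k := by
        rintro rfl
        exact hν'' _ k.2 hu
      rw [Pi.single_eq_of_ne hne]
      simp only [Pi.zero_apply, zero_mul, Finset.sum_const_zero, zero_add]
      by_cases h1 : ν u ∈ V
      · rw [if_pos h1]
      · rw [if_neg h1, Pi.single_eq_of_ne]
        rintro rfl
        exact h1 hkV
    · rw [hT2 _ _ u hu]
      simp only [Pi.zero_apply, zero_mul, Finset.sum_const_zero, zero_add]
      by_cases h2 : u = ν k
      · have h3 : (⟨ν u, hν' u hu⟩ : {p // p ∈ H}) = k :=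
          Subtype.ext (show ν u = (k : σ) by rw [h2, hν])
        rw [h3, h2, if_pos hkV, Pi.single_eq_same, Pi.single_eq_same]
      · have h3 : (⟨ν u, hν' u hu⟩ : {p // p ∈ H}) ≠ k := by
          intro h
          apply h2
          rw [← h]
          exact (hν u).symm
        rw [Pi.single_eq_of_ne h3, Pi.single_eq_of_ne h2, neg_zero, ite_self]
  let Ac := LinearMap.toContinuousLinearMap A.toLinearMap
  refine ⟨{p // p ∈ H}, inferInstance, inferInstance, T, w, α, β, s, max 2 ‖Ac‖, ?_, ?_, ?_, hw,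
    ?_, ?_, ?_, ?_, ?_⟩
  · rw [Fintype.card_coe, hg]
  · refine Finset.card_bij (fun p _ => ν p) (fun p hp => (hs p).1 hp) ?_ ?_
    · intro p _ p' _ h
      apply Subtype.ext
      rw [← hν p, h, hν]
    · intro v hv
      refine ⟨⟨ν v, hν' v (hV v hv).1⟩, (hs _).2 ?_, hν v⟩
      rw [hν]
      exact hv
  · intro j
    funext u
    have h0 : ∑ i : Fin g, (Pi.single j 1 : Fin g → ℂ) i * θ u ^ (i : ℕ) = θ u ^ (j : ℕ) := by
      rw [Finset.sum_eq_single j]
      · rw [Pi.single_eq_same, one_mul]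
      · intro i _ hi
        rw [Pi.single_eq_of_ne hi, zero_mul]
      · intro h
        exact absurd (Finset.mem_univ _) h
    by_cases hu : u ∈ H
    · rw [hT1 _ _ u hu, h0]
      simp
    · rw [hT2 _ _ u hu, h0]
      simp
  · intro b
    funext u
    by_cases hu : u ∈ H
    · rw [hT1 _ _ u hu, hα, hX1 _ u hu, hβ]
      dsimp only
      by_cases h1 : ν u ∈ V
      · rw [if_pos h1, if_pos h1, add_zero]
      · rw [if_neg h1, if_neg h1, if_neg h1, zero_add]
    · rw [hT2 _ _ u hu, hα, hX2 _ u hu, hβ]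
      dsimp only
      rw [hν, hw, hwν]
      by_cases h1 : u ∈ V
      · rw [if_pos h1, if_pos h1, if_pos h1]
        ring
      · rw [if_neg h1, if_neg h1, if_neg h1]
        ring
  · intro b hb
    have hY := hA2 (fun p => (K p - K (ν p)) * w b p) (by
      intro j
      have h1 : ∑ u, K u * w b u * θ u ^ (j : ℕ) =
          ∑ u ∈ H, (K u - K (ν u)) * w b u * θ u ^ (j : ℕ) := by
        rw [← Finset.sum_add_sum_compl H]
        have h2 : ∑ u ∈ Hᶜ, K u * w b u * θ u ^ (j : ℕ) =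
            ∑ u ∈ H, K (ν u) * w b (ν u) * θ (ν u) ^ (j : ℕ) := by
          refine Finset.sum_nbij' ν ν ?_ ?_ ?_ ?_ ?_
          · intro u hu
            exact hν' u (Finset.mem_compl.1 hu)
          · intro u hu
            exact Finset.mem_compl.2 (hν'' u hu)
          · intro u _
            exact hν u
          · intro u _
            exact hν u
          · intro u _
            rw [hν]
        rw [h2, ← Finset.sum_add_distrib]
        refine Finset.sum_congr rfl fun u _ => ?_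
        rw [hw, hwν, hθ]
        ring
      rw [← hb j, h1, ← Finset.sum_coe_sort H])
    have hY' : ∀ u, u ∈ H → w b u = 0 := by
      intro u hu
      have h1 := congrFun hY ⟨u, hu⟩
      exact (mul_eq_zero.1 h1).resolve_left (sub_ne_zero.2 (hK u))
    have hz : ∀ u, u ∈ H → ∑ k : Fin g, (b k : ℂ) * θ u ^ (k : ℕ) = 0 := by
      intro u hu
      exact (mul_eq_zero.1 (hY' u hu)).resolve_left (hτ0 u)
    have hx : (fun k => (b k : ℂ)) = A (A.symm fun k => (b k : ℂ)) :=
      (A.apply_symm_apply _).symm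
    have hX0 : (A.symm fun k => (b k : ℂ)) = 0 := by
      funext p
      have h1 := hA1 (A.symm fun k => (b k : ℂ)) p
      rw [A.apply_symm_apply] at h1
      rw [← h1]
      exact hz p p.2
    rw [hX0, map_zero] at hx
    funext k
    have h1 := congrFun hx k
    exact Int.cast_eq_zero.1 h1
  · intro k hk u
    rw [hsingle k hk]
    by_cases h : u = ν k
    · rw [h, (hV _ ((hs k).1 hk)).2, zero_mul]
    · rw [Pi.single_eq_of_ne h, mul_zero]
  · intro k hk
    exact ⟨ν k, (hs k).1 hk, hsingle k hk⟩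
  · intro z hz
    have hzu : ∀ u, ‖z u‖ ≤ 1 := fun u => (norm_le_pi_norm z u).trans hz
    refine ⟨A (fun p => if ν p ∈ V then z p else (z p + z (ν p)) / 2),
      fun p => if ν p ∈ V then z (ν p) - z p else (z p - z (ν p)) / 2, ?_, ?_, ?_⟩
    · have h1 : ‖(fun p : {p // p ∈ H} => if ν p ∈ V then z p else (z p + z (ν p)) / 2)‖ ≤ 1 := by
        rw [pi_norm_le_iff_of_nonneg zero_le_one]
        intro p
        by_cases h : ν p ∈ V
        · rw [if_pos h]
          exact hzu _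
        · rw [if_neg h, norm_div, Complex.norm_ofNat]
          have h2 := norm_add_le (z p) (z (ν p))
          have h3 := hzu p
          have h4 := hzu (ν p)
          rw [div_le_one (by norm_num)]
          linarith
      have h2 := Ac.le_opNorm (fun p : {p // p ∈ H} =>
        if ν p ∈ V then z p else (z p + z (ν p)) / 2)
      have h3 : Ac (fun p : {p // p ∈ H} => if ν p ∈ V then z p else (z p + z (ν p)) / 2) =
        A (fun p => if ν p ∈ V then z p else (z p + z (ν p)) / 2) := rfl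
      rw [h3] at h2
      refine (h2.trans ?_).trans (le_max_right _ _)
      have h4 := mul_le_mul_of_nonneg_left h1 (norm_nonneg Ac)
      rwa [mul_one] at h4
    · refine le_trans ?_ (le_max_left _ _)
      rw [pi_norm_le_iff_of_nonneg (by norm_num)]
      intro p
      have h3 := hzu p
      have h4 := hzu (ν p)
      by_cases h : ν p ∈ V
      · rw [if_pos h]
        have h2 := norm_sub_le (z (ν p)) (z p)
        linarith
      · rw [if_neg h, norm_div, Complex.norm_ofNat]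
        have h2 := norm_sub_le (z p) (z (ν p))
        rw [div_le_iff₀ (by norm_num)]
        linarith
    · funext u
      by_cases hu : u ∈ H
      · rw [hT1 _ _ u hu, hX1 _ u hu]
        dsimp only
        by_cases h1 : ν u ∈ V
        · rw [if_pos h1, if_pos h1, add_zero]
        · rw [if_neg h1, if_neg h1, if_neg h1]
          ring
      · rw [hT2 _ _ u hu, hX2 _ u hu]
        dsimp only
        rw [hν]
        by_cases h1 : u ∈ V
        · rw [if_pos h1, if_pos h1, if_pos h1]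
          ring
        · rw [if_neg h1, if_neg h1, if_neg h1]
          ring

end

end Pool.Agent.Helper93.LX
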