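import Pool.Agent.Helper93.LX.Xe
import Pool.Agent.Helper93.LX.Xf

/-!
PROJECT LT2, block X, file Xg: the box principle for `e` copies in the coordinates of the places.
-/

namespace Pool.Agent.Helper93.LX

open Pool.Agent.Helper53.LT

noncomputable section

/-- Proof. `coordI` (with its `R0`) and `BXE` with `max 0 R1 * max 0 R0 + R0` or `max 1 R1 * max 1 R0` in place of
its `R0` (`v j u = θ u ^ j`); `card η - s.card = g - V.card`. `‖z a‖ ≤ R1 ≤ max 1 R1 =: ρ`: `z a = ρ • z'`,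
`‖z'‖ ≤ 1`, `z' = T (x', y')`, so `z a = T (ρ • x', ρ • y')`. -/
theorem BXI {σ : Type} [Fintype σ] [DecidableEq σ] (e : ℕ) (he : 1 ≤ e)
    (ν : σ → σ) (hν : ∀ u, ν (ν u) = u)
    (H : Finset σ) (hH : ∀ u, u ∈ H ↔ ν u ∉ H) (g : ℕ) (hg : H.card = g)
    (θ τ : σ → ℂ) (hθ : ∀ u, θ (ν u) = θ u) (hθi : ∀ u ∈ H, ∀ v ∈ H, θ u = θ v → u = v)
    (hτ : ∀ u, τ (ν u) = -τ u) (hτ0 : ∀ u, τ u ≠ 0)
    (K : σ → ℂ) (hK : ∀ u, K u ≠ K (ν u))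
    (V : Finset σ) (hV : ∀ u ∈ V, u ∉ H ∧ K u = 0)
    (c1 : Fin g → ℂ) (c2 : (Fin g → ℤ) → ℂ) (C0 R1 : ℝ) (hc2 : ∀ b, (c2 b).re ≤ C0 * (1 + ‖b‖ ^ 2))
    (F1 : (σ → ℂ) → ℂ)
    (h1 : ∀ (j : Fin g) z, F1 (z + fun u => θ u ^ (j : ℕ)) =
      Complex.exp ((∑ u, K u * θ u ^ (j : ℕ) * z u) + c1 j) * F1 z)
    (h2 : ∀ b z, F1 (z + wI g θ τ b) =
      Complex.exp (-(∑ u, K u * wI g θ τ b u * z u) + c2 b) * F1 z)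
    (h3 : F1 0 ≠ 0) :
    ∃ C : ℝ, 0 < C ∧ ∀ (D : ℕ) (I : Type) [Fintype I] (φ : I → (σ → ℂ) → ℂ),
      (∀ i, Differentiable ℂ (φ i)) →
      (∀ i (j : Fin g) z, φ i (z + fun u => θ u ^ (j : ℕ)) =
        Complex.exp ((∑ u, K u * θ u ^ (j : ℕ) * z u) + c1 j) * φ i z) →
      (∀ i b z, φ i (z + wI g θ τ b) =
        Complex.exp (-(∑ u, K u * wI g θ τ b u * z u) + c2 b) * φ i z) →
      (∀ i, ∀ v ∈ V, ∀ R : ℝ, ∃ B : ℝ, ∀ (z : σ → ℂ) (t : ℂ), ‖z‖ ≤ R →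
        ‖φ i (z + t • Pi.single v 1)‖ ≤ B * (1 + ‖t‖) ^ D) →
      ∀ A : ℝ, (∀ i z, ‖φ i z‖ ≤ Real.exp (A + C0 * (1 + ‖z‖ ^ 2))) →
      ∀ S U : ℝ, 1 ≤ S → S ≤ U → A ≤ U → (Fintype.card I : ℝ) ^ e ≤ Real.exp U →
      C * ((D : ℝ) + 1) ^ (e * V.card) * U ^ (e * (g - V.card) + 1) ≤
        (Fintype.card I : ℝ) ^ e * S →
      ∃ c : (Fin e → I) → ℤ, c ≠ 0 ∧ (∀ i, |(c i : ℝ)| ≤ Real.exp S) ∧
        ∀ z : Fin e → σ → ℂ, (∀ a, ‖z a‖ ≤ R1) →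
          ‖∑ κ, (c κ : ℂ) * ∏ a, φ (κ a) (z a)‖ ≤ Real.exp (-U) := by
  obtain ⟨η, _, _, T, w, α, β, s, R0, hcη, hcs, hT, hw, hTw, hM, hKs, hsV, hz⟩ :=
    coordI ν hν H hH g hg θ τ hθ hθi hτ hτ0 K hK V hV
  obtain ⟨ρ, hρ⟩ : ∃ ρ : ℝ, ρ = max 1 R1 := ⟨_, rfl⟩
  have hρ1 : 1 ≤ ρ := by rw [hρ]; exact le_max_left _ _
  have hρR : R1 ≤ ρ := by rw [hρ]; exact le_max_right _ _
  have hρ0 : 0 < ρ := by linarith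
  obtain ⟨C, hC, hmain⟩ := BXE e he T K (fun j u => θ u ^ (j : ℕ)) hT w α β hTw hM s hKs c1 c2
    C0 (ρ * R0) hc2 F1 h1 (fun b z => by rw [hw]; exact h2 b z) h3
  refine ⟨C, hC, ?_⟩
  intro D I _ φ hφ hφ1 hφ2 hφp A hA S U hS hSU hAU hcard hbig
  have hpoly : ∀ i, ∀ k ∈ s, ∀ R : ℝ, ∃ B : ℝ, ∀ (z : σ → ℂ) (t : ℂ), ‖z‖ ≤ R →
      ‖φ i (z + t • T (0, Pi.single k 1))‖ ≤ B * (1 + ‖t‖) ^ D := by
    intro i k hk R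
    obtain ⟨v, hv, hkv⟩ := hsV k hk
    rw [hkv]
    exact hφp i v hv R
  have hbig' : C * ((D : ℝ) + 1) ^ (e * s.card) * U ^ (e * (Fintype.card η - s.card) + 1) ≤
      (Fintype.card I : ℝ) ^ e * S := by
    rw [hcη, hcs]
    exact hbig
  obtain ⟨c, hc0, hcb, hcz⟩ := hmain D I φ hφ hφ1 (fun i b z => by rw [hw]; exact hφ2 i b z)
    hpoly A hA S U hS hSU hAU hcard hbig'
  refine ⟨c, hc0, hcb, fun z hz1 => ?_⟩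
  have hnρ : ‖(ρ : ℂ)‖ = ρ := by
    rw [Complex.norm_real, Real.norm_eq_abs, abs_of_pos hρ0]
  have hρne : (ρ : ℂ) ≠ 0 := Complex.ofReal_ne_zero.2 hρ0.ne'
  have hex : ∀ a, ∃ x y, ‖x‖ ≤ ρ * R0 ∧ ‖y‖ ≤ ρ * R0 ∧ T (x, y) = z a := by
    intro a
    have hza : ‖(ρ : ℂ)⁻¹ • z a‖ ≤ 1 := by
      rw [norm_smul, norm_inv, hnρ, inv_mul_le_iff₀ hρ0, mul_one]
      exact (hz1 a).trans hρR
    obtain ⟨x, y, hx, hy, hxy⟩ := hz _ hza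
    refine ⟨(ρ : ℂ) • x, (ρ : ℂ) • y, ?_, ?_, ?_⟩
    · rw [norm_smul, hnρ]
      exact mul_le_mul_of_nonneg_left hx hρ0.le
    · rw [norm_smul, hnρ]
      exact mul_le_mul_of_nonneg_left hy hρ0.le
    · rw [← Prod.smul_mk, map_smul, hxy, smul_smul, mul_inv_cancel₀ hρne, one_smul]
  choose x y hx hy hxy using hex
  have h := hcz x y hx hy
  simpa only [hxy] using h

end

end Pool.Agent.Helper93.LX
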